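import Mathlib

/-! # Contradictory real sequences -/

namespace Pool.Agent.H50.Rdb

/-- a bounded sequence cannot grow geometrically -/
theorem no_geom {ρ : ℕ → ℝ} {q : ℝ} (hq : 1 < q) (h0 : 0 < ρ 0) (h1 : ∀ j, ρ j ≤ 1)
    (h : ∀ j, q * ρ j ≤ ρ (j + 1)) : False := by
  have hk : ∀ n : ℕ, q ^ n * ρ 0 ≤ ρ n := by
    intro n
    induction n with
    | zero => simp
    | succ n ih =>
      calc q ^ (n + 1) * ρ 0 = q * (q ^ n * ρ 0) := by ring
        _ ≤ q * ρ n := mul_le_mul_of_nonneg_left ih (by linarith)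
        _ ≤ ρ (n + 1) := h n
  obtain ⟨n, hn⟩ := pow_unbounded_of_one_lt (1 / ρ 0) hq
  have h2 := hk n
  have h3 := h1 n
  rw [div_lt_iff₀ h0] at hn
  linarith

/-- a nonnegative sequence cannot decrease linearly -/
theorem no_lin {v : ℕ → ℝ} {κ : ℝ} (hκ : 0 < κ) (h0 : ∀ j, 0 ≤ v j)
    (h : ∀ j, v (j + 1) ≤ v j - κ) : False := by
  have hk : ∀ n : ℕ, v n ≤ v 0 - n * κ := by
    intro n
    induction n with
    | zero => simp
    | succ n ih =>
      have := h n
      push_cast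
      linarith
  obtain ⟨n, hn⟩ := exists_nat_gt (v 0 / κ)
  rw [div_lt_iff₀ hκ] at hn
  have := hk n
  have := h0 n
  linarith

/-- the family `F1`, `F2` -/
theorem no_L1 {b0 a1 a3 c : ℝ} {v ρ : ℕ → ℝ} (_hb0 : 0 ≤ b0) (ha1 : 0 < a1) (ha3 : 0 < a3)
    (hc : a1 ^ 2 ≤ c) (hv : ∀ j, 0 ≤ v j) (hvr : ∀ j, v j * (b0 + a1) = c + a3 * v (j + 1))
    (hρ : ∀ j, 0 < ρ j) (hρ1 : ∀ j, ρ j ≤ 1) (hρr : ∀ j, ρ j * (b0 + v j) = a3 * ρ (j + 1)) : False := by
  have hc0 : 0 < c := lt_of_lt_of_le (by positivity) hc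
  rcases le_or_gt (b0 + a1) a3 with hs | hs
  · refine no_lin (κ := c / a3) (by positivity) hv fun j => ?_
    have h1 := hvr j
    have h2 : v j * (b0 + a1) ≤ v j * a3 := mul_le_mul_of_nonneg_left hs (hv j)
    have h3 : v (j + 1) ≤ (v j * a3 - c) / a3 := by
      rw [le_div_iff₀ ha3]
      linarith
    calc v (j + 1) ≤ (v j * a3 - c) / a3 := h3
      _ = v j - c / a3 := by field_simp
  · have hsp : 0 < b0 + a1 - a3 := by linarith
    set V := c / (b0 + a1 - a3) with hV
    have hVe : V * (b0 + a1 - a3) = c := by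
      rw [hV]; field_simp
    have hlow : ∀ j, V ≤ v j := by
      intro j
      by_contra hlt
      push Not at hlt
      -- the distance to `V` does not decrease
      have hd : ∀ n, v (j + n) ≤ v j := by
        intro n
        induction n with
        | zero => simp
        | succ n ih =>
          have h1 := hvr (j + n)
          have h2 : a3 * v (j + n + 1) = v (j + n) * (b0 + a1) - c := by linarith
          have h3 : v (j + n) * (b0 + a1 - a3) ≤ V * (b0 + a1 - a3) :=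
            mul_le_mul_of_nonneg_right (by linarith) hsp.le
          have h4 : a3 * v (j + n + 1) ≤ a3 * v (j + n) := by
            rw [h2]; linarith
          have h5 := le_of_mul_le_mul_left h4 ha3
          have e : j + (n + 1) = j + n + 1 := by ring
          rw [e]
          linarith
      refine no_lin (v := fun n => v (j + n)) (κ := (V - v j) * (b0 + a1 - a3) / a3)
        (div_pos (mul_pos (by linarith) hsp) ha3) (fun n => hv _) fun n => ?_
      have h1 := hvr (j + n)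
      have h2 := hd n
      have e : j + (n + 1) = j + n + 1 := by ring
      show v (j + (n + 1)) ≤ v (j + n) - _
      rw [e]
      have h3 : (V - v j) * (b0 + a1 - a3) ≤ (V - v (j + n)) * (b0 + a1 - a3) :=
        mul_le_mul_of_nonneg_right (by linarith) hsp.le
      have h4 : v (j + n + 1) * a3 ≤ v (j + n) * a3 - (V - v j) * (b0 + a1 - a3) := by
        have : v (j + n + 1) * a3 = v (j + n) * (b0 + a1) - c := by linarith
        rw [this]
        nlinarith
      calc v (j + n + 1) ≤ (v (j + n) * a3 - (V - v j) * (b0 + a1 - a3)) / a3 := by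
            rw [le_div_iff₀ ha3]; exact h4
        _ = v (j + n) - (V - v j) * (b0 + a1 - a3) / a3 := by field_simp
    have hq : a3 < b0 + V := by
      have h1 : (a3 - b0) * (b0 + a1 - a3) < c := by
        nlinarith [sq_nonneg (a1 - 2 * (a3 - b0))]
      have h2 : (a3 - b0) * (b0 + a1 - a3) < V * (b0 + a1 - a3) := by rw [hVe]; exact h1
      have := lt_of_mul_lt_mul_right h2 hsp.le
      linarith
    refine no_geom (ρ := ρ) (q := (b0 + V) / a3) ((one_lt_div ha3).2 hq) (hρ 0) hρ1 fun j => ?_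
    have h1 := hρr j
    have h2 : ρ j * (b0 + V) ≤ ρ j * (b0 + v j) :=
      mul_le_mul_of_nonneg_left (by linarith [hlow j]) (hρ j).le
    rw [div_mul_eq_mul_div, div_le_iff₀ ha3]
    linarith

/-- the family `N3` -/
theorem no_N3 {a0 a3 b0 : ℝ} {v ρ : ℕ → ℝ} (ha0 : 0 < a0) (ha3 : 0 < a3)
    (hv : ∀ j, 0 ≤ v j) (hvr : ∀ j, v j * b0 = a0 + a3 * v (j + 1))
    (hρ : ∀ j, 0 < ρ j) (hρ1 : ∀ j, ρ j ≤ 1) (hρr : ∀ j, ρ j * b0 ≤ a3 * ρ (j + 1)) : False := by
  rcases le_or_gt b0 a3 with hs | hs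
  · refine no_lin (κ := a0 / a3) (by positivity) hv fun j => ?_
    have h1 := hvr j
    have h2 : v j * b0 ≤ v j * a3 := mul_le_mul_of_nonneg_left hs (hv j)
    have h3 : v (j + 1) ≤ (v j * a3 - a0) / a3 := by
      rw [le_div_iff₀ ha3]
      linarith
    calc v (j + 1) ≤ (v j * a3 - a0) / a3 := h3
      _ = v j - a0 / a3 := by field_simp
  · refine no_geom (ρ := ρ) (q := b0 / a3) ((one_lt_div ha3).2 hs) (hρ 0) hρ1 fun j => ?_
    have h1 := hρr j
    rw [div_mul_eq_mul_div, div_le_iff₀ ha3]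
    linarith

/-- the family `T4` -/
theorem no_T4 {s a1 a3 : ℝ} {z ρ : ℕ → ℝ} (hs : 0 < s) (ha1 : 0 < a1) (ha3 : 0 < a3)
    (hz : ∀ j, 0 < z j) (hzr : ∀ j, a1 * z j = a1 * s + a3 * z (j + 1))
    (hρ : ∀ j, 0 < ρ j) (hρ1 : ∀ j, ρ j ≤ 1)
    (hρr : ∀ j, ρ j * (s * z (j + 1) + a1 ^ 2) = a1 * a3 * ρ (j + 1)) : False := by
  rcases lt_or_ge a3 a1 with h | h
  · refine no_geom (ρ := ρ) (q := a1 / a3) ((one_lt_div ha3).2 h) (hρ 0) hρ1 fun j => ?_
    have h1 := hρr j
    have h2 : ρ j * a1 ^ 2 ≤ ρ j * (s * z (j + 1) + a1 ^ 2) :=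
      mul_le_mul_of_nonneg_left (by nlinarith [hz (j + 1)]) (hρ j).le
    rw [div_mul_eq_mul_div, div_le_iff₀ ha3]
    have h3 : a1 * (a1 * ρ j) ≤ a1 * (ρ (j + 1) * a3) := by nlinarith
    exact le_of_mul_le_mul_left h3 ha1
  · refine no_lin (v := z) (κ := a1 * s / a3) (by positivity) (fun j => (hz j).le) fun j => ?_
    have h1 := hzr j
    have h2 : a1 * z j ≤ a3 * z j := mul_le_mul_of_nonneg_right h (hz j).le
    have h3 : z (j + 1) ≤ (z j * a3 - a1 * s) / a3 := by
      rw [le_div_iff₀ ha3]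
      linarith
    calc z (j + 1) ≤ (z j * a3 - a1 * s) / a3 := h3
      _ = z j - a1 * s / a3 := by field_simp

end Pool.Agent.H50.Rdb
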