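import Pool.Agent.H50.Rdb.Lim
import Pool.Agent.H50.Rdb.Seq

/-! # The families F1, F2, N3, T4 -/

namespace Pool.Agent.H50.Rdb

open Filter Topology

variable {a b : ℕ → ℝ} {l : Ultrafilter ℕ} {X : ℕ → ℕ → ℝ} {r v : ℕ → ℝ}

/-- every term is at least `a m / b m` if `x_{n-m}` is the only term of the denominator -/
theorem Lims.lower (h : Lims a b l X r v) {m : ℕ} (hm1 : 1 ≤ m) (hm4 : m ≤ 4) (hbm : 0 < b m)
    (hb : ∀ i < 5, i ≠ m → b i = 0) (j : ℕ) : ∀ᶠ i in (l : Filter ℕ), a m / b m ≤ X i j := by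
  filter_upwards [h.back.step j] with i hi
  have hx := h.back.pos i (j + m)
  have e : lin b (X i (j + 1)) (X i (j + 2)) (X i (j + 3)) (X i (j + 4)) = b m * X i (j + m) := by
    unfold lin
    have : m = 1 ∨ m = 2 ∨ m = 3 ∨ m = 4 := by omega
    rcases this with rfl | rfl | rfl | rfl
    · rw [hb 0 (by norm_num) (by norm_num), hb 2 (by norm_num) (by norm_num),
        hb 3 (by norm_num) (by norm_num), hb 4 (by norm_num) (by norm_num)]; ring
    · rw [hb 0 (by norm_num) (by norm_num), hb 1 (by norm_num) (by norm_num),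
        hb 3 (by norm_num) (by norm_num), hb 4 (by norm_num) (by norm_num)]; ring
    · rw [hb 0 (by norm_num) (by norm_num), hb 1 (by norm_num) (by norm_num),
        hb 2 (by norm_num) (by norm_num), hb 4 (by norm_num) (by norm_num)]; ring
    · rw [hb 0 (by norm_num) (by norm_num), hb 1 (by norm_num) (by norm_num),
        hb 2 (by norm_num) (by norm_num), hb 3 (by norm_num) (by norm_num)]; ring
  have e2 : a m * X i (j + m) ≤ lin a (X i (j + 1)) (X i (j + 2)) (X i (j + 3)) (X i (j + 4)) := by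
    have h0 := h.na 0 (by norm_num)
    have h1 := mul_nonneg (h.na 1 (by norm_num)) (h.back.pos i (j + 1)).le
    have h2 := mul_nonneg (h.na 2 (by norm_num)) (h.back.pos i (j + 2)).le
    have h3 := mul_nonneg (h.na 3 (by norm_num)) (h.back.pos i (j + 3)).le
    have h4 := mul_nonneg (h.na 4 (by norm_num)) (h.back.pos i (j + 4)).le
    unfold lin
    have : m = 1 ∨ m = 2 ∨ m = 3 ∨ m = 4 := by omega
    rcases this with rfl | rfl | rfl | rfl <;> linarith
  rw [e] at hi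
  rw [div_le_iff₀ hbm]
  have h3 : a m * X i (j + m) ≤ X i j * b m * X i (j + m) := by
    calc a m * X i (j + m) ≤ _ := e2
      _ = X i j * (b m * X i (j + m)) := hi.symm
      _ = X i j * b m * X i (j + m) := by ring
  exact le_of_mul_le_mul_right h3 hx

/-- positivity of `b 0 + b m v_j` -/
theorem Lims.bpos (h : Lims a b l X r v) {m : ℕ} (hm1 : 1 ≤ m) (hm4 : m ≤ 4) (hbm : 0 < b m)
    (hb : ∀ i < 5, i ≠ 0 → i ≠ m → b i = 0) (hor : 0 < b 0 ∨ 0 < a m) {j : ℕ} (hj : Bd l X j) :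
    0 < b 0 + b m * v j := by
  have hv := h.v_nonneg hj
  rcases hor with h0 | ham
  · have := mul_nonneg hbm.le hv
    linarith
  · rcases (h.nb 0 (by norm_num)).lt_or_eq with h0 | h0
    · have := mul_nonneg hbm.le hv
      linarith
    · have h1 := h.le_v hj (h.lower hm1 hm4 hbm (fun i hi him => by
        rcases Nat.eq_zero_or_pos i with rfl | hp
        · exact h0.symm
        · exact hb i hi hp.ne' him) j)
      have h2 : 0 < a m / b m := div_pos ham hbm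
      have := mul_pos hbm (lt_of_lt_of_le h2 h1)
      linarith

/-- family F1: numerator `(a₀), a₁, a₃`, denominator `(b₀), b₁` -/
theorem noBack_F1 (na : ∀ i < 5, 0 ≤ a i) (nb : ∀ i < 5, 0 ≤ b i) (ha1 : 0 < a 1) (ha2 : a 2 = 0)
    (ha3 : 0 < a 3) (ha4 : a 4 = 0) (hb1 : 0 < b 1) (hb2 : b 2 = 0) (hb3 : b 3 = 0) (hb4 : b 4 = 0) :
    NoBack a b := by
  intro l X hX
  obtain ⟨r, v, h⟩ := exists_lims hX na nb
  have hbm : ∀ i < 5, i ≠ 0 → i ≠ 1 → b i = 0 := by
    intro i hi h0 h1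
    have : i = 2 ∨ i = 3 ∨ i = 4 := by omega
    rcases this with rfl | rfl | rfl <;> assumption
  have hE1 : ∀ j, 0 < r j → r j * (b 0 + b 1 * v (j + 1)) = a 3 * r (j + 3) := by
    intro j hj
    have hB := h.bd_add (m := 1) le_rfl (by norm_num) hb1 hj
    have := h.eq1 j (Or.inr hB) (Or.inl hb2) (Or.inl hb3) (Or.inl hb4)
    rw [ha2, ha4, hb2, hb3, hb4, h.r_eq_zero hB] at this
    linarith
  have hS : ∀ j, 0 < r (3 * j) := by
    intro j
    induction j with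
    | zero => rw [mul_zero, h.r_zero]; norm_num
    | succ j ih =>
      have hB := h.bd_add (m := 1) le_rfl (by norm_num) hb1 ih
      have hp := h.bpos le_rfl (by norm_num) hb1 hbm (Or.inr ha1) hB
      have := hE1 _ ih
      have h2 : 0 < a 3 * r (3 * j + 3) := by rw [← this]; exact mul_pos ih hp
      have h3 := pos_of_mul_pos_right h2 ha3.le
      exact h3
  have hB1 : ∀ j, Bd l X (3 * j + 1) := fun j => h.bd_add (m := 1) le_rfl (by norm_num) hb1 (hS j)
  have hB2 : ∀ j, Bd l X (3 * j + 2) := fun j =>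
    h.bd_of_add (m := 1) le_rfl (by norm_num) hb1 (by
      have := hS (j + 1)
      have e : 3 * (j + 1) = 3 * j + 2 + 1 := by ring
      rwa [e] at this)
  have hv2 : ∀ j, b 1 * v (3 * j + 2) = a 1 := by
    intro j
    have h2 := h.eq2 (hB2 j)
    have e1 : 3 * j + 2 + 1 = 3 * (j + 1) := by ring
    have e3 : 3 * j + 2 + 3 = 3 * (j + 1) + 2 := by ring
    rw [ha2, ha4, hb2, hb3, hb4, e1, e3, h.r_eq_zero (hB2 (j + 1))] at h2
    have h3 : (b 1 * v (3 * j + 2)) * r (3 * (j + 1)) = a 1 * r (3 * (j + 1)) := by linarith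
    exact mul_right_cancel₀ (hS (j + 1)).ne' h3
  refine no_L1 (b0 := b 0) (a1 := a 1) (a3 := a 3) (c := b 1 * a 0 + a 1 ^ 2)
    (v := fun j => b 1 * v (3 * j + 1)) (ρ := fun j => r (3 * j)) (nb 0 (by norm_num)) ha1 ha3
    (by have := mul_nonneg hb1.le (na 0 (by norm_num)); linarith)
    (fun j => mul_nonneg hb1.le (h.v_nonneg (hB1 j))) (fun j => ?_) hS (fun j => h.r_le_one _)
    (fun j => ?_)
  · have h3 := h.eq3 (hB1 j) (Or.inr (hB2 j)) (Or.inl ⟨ha2, hb2⟩) (Or.inr (by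
      have := hB1 (j + 1)
      have e : 3 * (j + 1) + 1 = 3 * j + 1 + 3 := by ring
      rwa [e] at this)) (Or.inl ⟨ha4, hb4⟩)
    have e : 3 * j + 1 + 3 = 3 * (j + 1) + 1 := by ring
    have e1 : 3 * j + 1 + 1 = 3 * j + 2 := by ring
    rw [ha2, ha4, hb2, hb3, hb4, e, e1] at h3
    have h4 := hv2 j
    show b 1 * v (3 * j + 1) * (b 0 + a 1) = b 1 * a 0 + a 1 ^ 2 + a 3 * (b 1 * v (3 * (j + 1) + 1))
    linear_combination b 1 * h3 + (a 1 - b 1 * v (3 * j + 1)) * h4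
  · have := hE1 _ (hS j)
    exact this

/-- family F2: numerator `(a₀), a₂, a₃`, denominator `(b₀), b₂` -/
theorem noBack_F2 (na : ∀ i < 5, 0 ≤ a i) (nb : ∀ i < 5, 0 ≤ b i) (ha1 : a 1 = 0) (ha2 : 0 < a 2)
    (ha3 : 0 < a 3) (ha4 : a 4 = 0) (hb1 : b 1 = 0) (hb2 : 0 < b 2) (hb3 : b 3 = 0) (hb4 : b 4 = 0) :
    NoBack a b := by
  intro l X hX
  obtain ⟨r, v, h⟩ := exists_lims hX na nb
  have hbm : ∀ i < 5, i ≠ 0 → i ≠ 2 → b i = 0 := by
    intro i hi h0 h1
    have : i = 1 ∨ i = 3 ∨ i = 4 := by omega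
    rcases this with rfl | rfl | rfl <;> assumption
  have hE1 : ∀ j, 0 < r j → r j * (b 0 + b 2 * v (j + 2)) = a 3 * r (j + 3) := by
    intro j hj
    have hB := h.bd_add (m := 2) (by norm_num) (by norm_num) hb2 hj
    have := h.eq1 j (Or.inl hb1) (Or.inr hB) (Or.inl hb3) (Or.inl hb4)
    rw [ha1, ha4, hb1, hb3, hb4, h.r_eq_zero hB] at this
    linarith
  have hS : ∀ j, 0 < r (3 * j) := by
    intro j
    induction j with
    | zero => rw [mul_zero, h.r_zero]; norm_num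
    | succ j ih =>
      have hB := h.bd_add (m := 2) (by norm_num) (by norm_num) hb2 ih
      have hp := h.bpos (by norm_num) (by norm_num) hb2 hbm (Or.inr ha2) hB
      have := hE1 _ ih
      have h2 : 0 < a 3 * r (3 * j + 3) := by rw [← this]; exact mul_pos ih hp
      have h3 := pos_of_mul_pos_right h2 ha3.le
      exact h3
  have hB2 : ∀ j, Bd l X (3 * j + 2) := fun j =>
    h.bd_add (m := 2) (by norm_num) (by norm_num) hb2 (hS j)
  have hB1 : ∀ j, Bd l X (3 * j + 1) := fun j =>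
    h.bd_of_add (m := 2) (by norm_num) (by norm_num) hb2 (by
      have := hS (j + 1)
      have e : 3 * (j + 1) = 3 * j + 1 + 2 := by ring
      rwa [e] at this)
  have hv1 : ∀ j, b 2 * v (3 * j + 1) = a 2 := by
    intro j
    have h2 := h.eq2 (hB1 j)
    have e1 : 3 * j + 1 + 2 = 3 * (j + 1) := by ring
    have e3 : 3 * j + 1 + 3 = 3 * (j + 1) + 1 := by ring
    rw [ha1, ha4, hb1, hb3, hb4, e1, e3, h.r_eq_zero (hB1 (j + 1))] at h2
    have h3 : (b 2 * v (3 * j + 1)) * r (3 * (j + 1)) = a 2 * r (3 * (j + 1)) := by linarith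
    exact mul_right_cancel₀ (hS (j + 1)).ne' h3
  refine no_L1 (b0 := b 0) (a1 := a 2) (a3 := a 3) (c := b 2 * a 0 + a 2 ^ 2)
    (v := fun j => b 2 * v (3 * j + 2)) (ρ := fun j => r (3 * j)) (nb 0 (by norm_num)) ha2 ha3
    (by have := mul_nonneg hb2.le (na 0 (by norm_num)); linarith)
    (fun j => mul_nonneg hb2.le (h.v_nonneg (hB2 j))) (fun j => ?_) hS (fun j => h.r_le_one _)
    (fun j => ?_)
  · have h3 := h.eq3 (hB2 j) (Or.inl ⟨ha1, hb1⟩) (Or.inr (by
      have := hB1 (j + 1)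
      have e : 3 * (j + 1) + 1 = 3 * j + 2 + 2 := by ring
      rwa [e] at this)) (Or.inr (by
      have := hB2 (j + 1)
      have e : 3 * (j + 1) + 2 = 3 * j + 2 + 3 := by ring
      rwa [e] at this)) (Or.inl ⟨ha4, hb4⟩)
    have e : 3 * j + 2 + 3 = 3 * (j + 1) + 2 := by ring
    have e1 : 3 * j + 2 + 2 = 3 * (j + 1) + 1 := by ring
    rw [ha1, ha4, hb1, hb3, hb4, e, e1] at h3
    have h4 := hv1 (j + 1)
    show b 2 * v (3 * j + 2) * (b 0 + a 2) = b 2 * a 0 + a 2 ^ 2 + a 3 * (b 2 * v (3 * (j + 1) + 2))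
    linear_combination b 2 * h3 + (a 2 - b 2 * v (3 * j + 2)) * h4
  · exact hE1 _ (hS j)

/-- family N3 with `b₁` (and possibly `b₄`) -/
theorem noBack_N3a (na : ∀ i < 5, 0 ≤ a i) (nb : ∀ i < 5, 0 ≤ b i) (ha0 : 0 < a 0) (ha1 : a 1 = 0)
    (ha2 : a 2 = 0) (ha3 : 0 < a 3) (ha4 : a 4 = 0) (hb0 : 0 < b 0) (hb1 : 0 < b 1) (hb2 : b 2 = 0)
    (hb3 : b 3 = 0) : NoBack a b := by
  intro l X hX
  obtain ⟨r, v, h⟩ := exists_lims hX na nb
  have hb4 := nb 4 (by norm_num)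
  have hB4 : ∀ j, 0 < r j → b 4 = 0 ∨ Bd l X (j + 4) := by
    intro j hj
    rcases hb4.lt_or_eq with h4 | h4
    · exact Or.inr (h.bd_add (m := 4) (by norm_num) (by norm_num) h4 hj)
    · exact Or.inl h4.symm
  have hvv : ∀ c : ℝ, ∀ j, 0 ≤ c → (c = 0 ∨ Bd l X j) → 0 ≤ c * v j := by
    intro c j hc hj
    rcases hj with rfl | hj
    · simp
    · exact mul_nonneg hc (h.v_nonneg hj)
  have hE1 : ∀ j, 0 < r j → r j * (b 0 + b 1 * v (j + 1) + b 4 * v (j + 4)) = a 3 * r (j + 3) := by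
    intro j hj
    have hB := h.bd_add (m := 1) le_rfl (by norm_num) hb1 hj
    have := h.eq1 j (Or.inr hB) (Or.inl hb2) (Or.inl hb3) (hB4 j hj)
    rw [ha1, ha2, ha4, hb2, hb3] at this
    linarith
  have hlow : ∀ j, 0 < r j → r j * b 0 ≤ a 3 * r (j + 3) := by
    intro j hj
    rw [← hE1 j hj]
    refine mul_le_mul_of_nonneg_left ?_ hj.le
    have h1 := hvv (b 1) (j + 1) hb1.le (Or.inr (h.bd_add (m := 1) le_rfl (by norm_num) hb1 hj))
    have h2 := hvv (b 4) (j + 4) hb4 (hB4 j hj)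
    linarith
  have hS : ∀ j, 0 < r (3 * j) := by
    intro j
    induction j with
    | zero => rw [mul_zero, h.r_zero]; norm_num
    | succ j ih =>
      have h2 : 0 < a 3 * r (3 * j + 3) := lt_of_lt_of_le (mul_pos ih hb0) (hlow _ ih)
      exact pos_of_mul_pos_right h2 ha3.le
  have hB1 : ∀ j, Bd l X (3 * j + 1) := fun j => h.bd_add (m := 1) le_rfl (by norm_num) hb1 (hS j)
  have hB2 : ∀ j, Bd l X (3 * j + 2) := fun j =>
    h.bd_of_add (m := 1) le_rfl (by norm_num) hb1 (by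
      have := hS (j + 1)
      have e : 3 * (j + 1) = 3 * j + 2 + 1 := by ring
      rwa [e] at this)
  have hv2 : ∀ j, v (3 * j + 2) = 0 := by
    intro j
    have h2 := h.eq2 (hB2 j)
    have e1 : 3 * j + 2 + 1 = 3 * (j + 1) := by ring
    have e3 : 3 * j + 2 + 3 = 3 * (j + 1) + 2 := by ring
    have e4 : 3 * j + 2 + 4 = 3 * (j + 2) := by ring
    rw [ha1, ha2, ha4, hb2, hb3, e1, e3, e4, h.r_eq_zero (hB2 (j + 1))] at h2
    have h3 : v (3 * j + 2) * (b 1 * r (3 * (j + 1)) + b 4 * r (3 * (j + 2))) = 0 := by linarith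
    have h4 : 0 < b 1 * r (3 * (j + 1)) + b 4 * r (3 * (j + 2)) :=
      add_pos_of_pos_of_nonneg (mul_pos hb1 (hS _)) (mul_nonneg hb4 (hS _).le)
    rcases mul_eq_zero.1 h3 with h5 | h5
    · exact h5
    · exact absurd h5 h4.ne'
  refine no_N3 (a0 := a 0) (a3 := a 3) (b0 := b 0) (v := fun j => v (3 * j + 1))
    (ρ := fun j => r (3 * j)) ha0 ha3 (fun j => h.v_nonneg (hB1 j)) (fun j => ?_) hS
    (fun j => h.r_le_one _) (fun j => hlow _ (hS j))
  have e : 3 * j + 1 + 3 = 3 * (j + 1) + 1 := by ring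
  have e1 : 3 * j + 1 + 1 = 3 * j + 2 := by ring
  have e4 : 3 * j + 1 + 4 = 3 * (j + 1) + 2 := by ring
  have h3 := h.eq3 (hB1 j) (Or.inr (by rw [e1]; exact hB2 j)) (Or.inl ⟨ha2, hb2⟩)
    (Or.inr (by rw [e]; exact hB1 (j + 1))) (Or.inr (by rw [e4]; exact hB2 (j + 1)))
  rw [ha1, ha2, ha4, hb2, hb3, e, e1, e4, hv2, hv2] at h3
  show v (3 * j + 1) * b 0 = a 0 + a 3 * v (3 * (j + 1) + 1)
  linarith

/-- family N3 with `b₂` -/
theorem noBack_N3b (na : ∀ i < 5, 0 ≤ a i) (nb : ∀ i < 5, 0 ≤ b i) (ha0 : 0 < a 0) (ha1 : a 1 = 0)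
    (ha2 : a 2 = 0) (ha3 : 0 < a 3) (ha4 : a 4 = 0) (hb0 : 0 < b 0) (hb1 : b 1 = 0) (hb2 : 0 < b 2)
    (hb3 : b 3 = 0) (hb4 : b 4 = 0) : NoBack a b := by
  intro l X hX
  obtain ⟨r, v, h⟩ := exists_lims hX na nb
  have hE1 : ∀ j, 0 < r j → r j * (b 0 + b 2 * v (j + 2)) = a 3 * r (j + 3) := by
    intro j hj
    have hB := h.bd_add (m := 2) (by norm_num) (by norm_num) hb2 hj
    have := h.eq1 j (Or.inl hb1) (Or.inr hB) (Or.inl hb3) (Or.inl hb4)
    rw [ha1, ha2, ha4, hb1, hb3, hb4] at this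
    linarith
  have hlow : ∀ j, 0 < r j → r j * b 0 ≤ a 3 * r (j + 3) := by
    intro j hj
    rw [← hE1 j hj]
    refine mul_le_mul_of_nonneg_left ?_ hj.le
    have h1 := mul_nonneg hb2.le (h.v_nonneg (h.bd_add (m := 2) (by norm_num) (by norm_num) hb2 hj))
    linarith
  have hS : ∀ j, 0 < r (3 * j) := by
    intro j
    induction j with
    | zero => rw [mul_zero, h.r_zero]; norm_num
    | succ j ih =>
      have h2 : 0 < a 3 * r (3 * j + 3) := lt_of_lt_of_le (mul_pos ih hb0) (hlow _ ih)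
      exact pos_of_mul_pos_right h2 ha3.le
  have hB2 : ∀ j, Bd l X (3 * j + 2) := fun j =>
    h.bd_add (m := 2) (by norm_num) (by norm_num) hb2 (hS j)
  have hB1 : ∀ j, Bd l X (3 * j + 1) := fun j =>
    h.bd_of_add (m := 2) (by norm_num) (by norm_num) hb2 (by
      have := hS (j + 1)
      have e : 3 * (j + 1) = 3 * j + 1 + 2 := by ring
      rwa [e] at this)
  have hv1 : ∀ j, v (3 * j + 1) = 0 := by
    intro j
    have h2 := h.eq2 (hB1 j)
    have e1 : 3 * j + 1 + 2 = 3 * (j + 1) := by ring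
    have e3 : 3 * j + 1 + 3 = 3 * (j + 1) + 1 := by ring
    rw [ha1, ha2, ha4, hb1, hb3, hb4, e1, e3, h.r_eq_zero (hB1 (j + 1))] at h2
    have h3 : v (3 * j + 1) * (b 2 * r (3 * (j + 1))) = 0 := by linarith
    rcases mul_eq_zero.1 h3 with h5 | h5
    · exact h5
    · exact absurd h5 (mul_pos hb2 (hS _)).ne'
  refine no_N3 (a0 := a 0) (a3 := a 3) (b0 := b 0) (v := fun j => v (3 * j + 2))
    (ρ := fun j => r (3 * j)) ha0 ha3 (fun j => h.v_nonneg (hB2 j)) (fun j => ?_) hS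
    (fun j => h.r_le_one _) (fun j => hlow _ (hS j))
  have e : 3 * j + 2 + 3 = 3 * (j + 1) + 2 := by ring
  have e1 : 3 * j + 2 + 2 = 3 * (j + 1) + 1 := by ring
  have h3 := h.eq3 (hB2 j) (Or.inl ⟨ha1, hb1⟩) (Or.inr (by rw [e1]; exact hB1 (j + 1)))
    (Or.inr (by rw [e]; exact hB2 (j + 1))) (Or.inl ⟨ha4, hb4⟩)
  rw [ha1, ha2, ha4, hb1, hb3, hb4, e, e1, hv1] at h3
  show v (3 * j + 2) * b 0 = a 0 + a 3 * v (3 * (j + 1) + 2)
  linarith

/-- family T4: numerator `(a₀), a₁, (a₂), a₃`, denominator `(b₀), b₂`, one of `b₀`, `a₂` present -/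
theorem noBack_T4 (na : ∀ i < 5, 0 ≤ a i) (nb : ∀ i < 5, 0 ≤ b i) (ha1 : 0 < a 1)
    (ha3 : 0 < a 3) (ha4 : a 4 = 0) (hb1 : b 1 = 0) (hb2 : 0 < b 2) (hb3 : b 3 = 0) (hb4 : b 4 = 0)
    (hor : 0 < b 0 ∨ 0 < a 2) : NoBack a b := by
  intro l X hX
  obtain ⟨r, v, h⟩ := exists_lims hX na nb
  have na2 := na 2 (by norm_num)
  have nb0 := nb 0 (by norm_num)
  have hbm : ∀ i < 5, i ≠ 0 → i ≠ 2 → b i = 0 := by
    intro i hi h0 h1
    have : i = 1 ∨ i = 3 ∨ i = 4 := by omega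
    rcases this with rfl | rfl | rfl <;> assumption
  have hBd : ∀ j, 0 < r j → Bd l X (j + 2) := fun j hj =>
    h.bd_add (m := 2) (by norm_num) (by norm_num) hb2 hj
  have hE1 : ∀ j, 0 < r j → r j * (b 0 + b 2 * v (j + 2)) = a 1 * r (j + 1) + a 3 * r (j + 3) := by
    intro j hj
    have hB := hBd j hj
    have := h.eq1 j (Or.inl hb1) (Or.inr hB) (Or.inl hb3) (Or.inl hb4)
    rw [ha4, hb1, hb3, hb4, h.r_eq_zero hB] at this
    linarith
  have hE2 : ∀ j, Bd l X j → v j * (b 2 * r (j + 2)) = a 1 * r (j + 1) + a 2 * r (j + 2) +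
      a 3 * r (j + 3) := by
    intro j hj
    have := h.eq2 hj
    rw [ha4, hb1, hb3, hb4] at this
    linarith
  have hpos : ∀ j, 0 < r j → 0 < b 0 + b 2 * v (j + 2) := fun j hj =>
    h.bpos (by norm_num) (by norm_num) hb2 hbm hor (hBd j hj)
  -- from a bounded term whose neighbour is comparable to the record
  have hnext : ∀ j, Bd l X j → 0 < r (j + 1) → 0 < r (j + 2) := by
    intro j hj hr1
    by_contra hc
    have h0 : r (j + 2) = 0 := le_antisymm (not_lt.1 hc) (h.r_nonneg _)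
    have h1 := hE2 j hj
    rw [h0] at h1
    have h2 := mul_pos ha1 hr1
    have h3 := mul_nonneg ha3.le (h.r_nonneg (j + 3))
    linarith
  have hstart : ∃ t, 0 < r t ∧ 0 < r (t + 1) := by
    have hr0 : 0 < r 0 := by rw [h.r_zero]; norm_num
    by_cases h1 : 0 < r 1
    · exact ⟨0, hr0, h1⟩
    · have h10 : r 1 = 0 := le_antisymm (not_lt.1 h1) (h.r_nonneg _)
      have h2 := hE1 0 hr0
      rw [zero_add, h10] at h2
      have h3 : 0 < a 3 * r (0 + 3) := by
        have := mul_pos hr0 (hpos 0 hr0)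
        linarith
      have h4 := pos_of_mul_pos_right h3 ha3.le
      exact ⟨3, h4, hnext 2 (hBd 0 hr0) h4⟩
  obtain ⟨t, ht, ht1⟩ := hstart
  have hstep : ∀ j, 0 < r j → 0 < r (j + 1) → 0 < r (j + 4) ∧ 0 < r (j + 5) := by
    intro j h0 h1
    have hB3 := hBd (j + 1) h1
    have e1 := hE1 (j + 1) h1
    have hB2 := hBd j h0
    rw [show j + 1 + 1 = j + 2 from rfl, h.r_eq_zero hB2] at e1
    have h3 : 0 < a 3 * r (j + 1 + 3) := by
      have := mul_pos h1 (hpos _ h1)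
      linarith
    have h4 : 0 < r (j + 4) := pos_of_mul_pos_right h3 ha3.le
    exact ⟨h4, hnext (j + 3) hB3 h4⟩
  have hS : ∀ k, 0 < r (t + 4 * k) ∧ 0 < r (t + 4 * k + 1) := by
    intro k
    induction k with
    | zero => exact ⟨ht, ht1⟩
    | succ k ih =>
      have := hstep _ ih.1 ih.2
      exact this
  -- the relations
  have R1 : ∀ k, r (t + 4 * k) * (b 0 + b 2 * v (t + 4 * k + 2)) = a 1 * r (t + 4 * k + 1) := by
    intro k
    have h1 := hE1 _ (hS k).1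
    rw [h.r_eq_zero (hBd _ (hS k).2)] at h1
    linarith
  have R2 : ∀ k, r (t + 4 * k + 1) * (b 0 + b 2 * v (t + 4 * k + 3)) = a 3 * r (t + 4 * (k + 1)) := by
    intro k
    have h1 := hE1 _ (hS k).2
    rw [show t + 4 * k + 1 + 1 = t + 4 * k + 2 from rfl, h.r_eq_zero (hBd _ (hS k).1)] at h1
    rw [show t + 4 * (k + 1) = t + 4 * k + 1 + 3 by ring]
    rw [show t + 4 * k + 1 + 2 = t + 4 * k + 3 from rfl] at h1
    linarith
  have R3 : ∀ k, b 2 * v (t + 4 * k + 2) * r (t + 4 * (k + 1)) = a 2 * r (t + 4 * (k + 1)) +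
      a 3 * r (t + 4 * (k + 1) + 1) := by
    intro k
    have h1 := hE2 _ (hBd _ (hS k).1)
    rw [show t + 4 * k + 2 + 1 = t + 4 * k + 1 + 2 from rfl, h.r_eq_zero (hBd _ (hS k).2)] at h1
    rw [show t + 4 * (k + 1) + 1 = t + 4 * k + 2 + 3 by ring,
      show t + 4 * (k + 1) = t + 4 * k + 2 + 2 by ring]
    linarith
  have R4 : ∀ k, b 2 * v (t + 4 * k + 3) * r (t + 4 * (k + 1) + 1) = a 1 * r (t + 4 * (k + 1)) +
      a 2 * r (t + 4 * (k + 1) + 1) := by
    intro k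
    have h1 := hE2 _ (hBd _ (hS k).2)
    have h6 : r (t + 4 * k + 1 + 2 + 3) = 0 := by
      have := h.r_eq_zero (hBd _ (hS (k + 1)).1)
      rw [show t + 4 * (k + 1) + 2 = t + 4 * k + 1 + 2 + 3 by ring] at this
      exact this
    rw [h6] at h1
    rw [show t + 4 * (k + 1) + 1 = t + 4 * k + 1 + 2 + 2 by ring,
      show t + 4 * (k + 1) = t + 4 * k + 1 + 2 + 1 by ring, show t + 4 * k + 3 = t + 4 * k + 1 + 2 from rfl]
    linarith
  have hs : 0 < b 0 + a 2 := by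
    rcases hor with h0 | h0 <;> linarith
  refine no_T4 (s := b 0 + a 2) (a1 := a 1) (a3 := a 3)
    (z := fun k => b 0 + b 2 * v (t + 4 * k + 2)) (ρ := fun k => r (t + 4 * k + 1)) hs ha1 ha3
    (fun k => hpos _ (hS k).1) (fun k => ?_) (fun k => (hS k).2) (fun k => h.r_le_one _) (fun k => ?_)
  · have hm := (hS (k + 1)).1
    have h1 := R3 k
    have h2 := R1 (k + 1)
    have h3 : (a 1 * (b 0 + b 2 * v (t + 4 * k + 2))) * r (t + 4 * (k + 1)) =
        (a 1 * (b 0 + a 2) + a 3 * (b 0 + b 2 * v (t + 4 * (k + 1) + 2))) * r (t + 4 * (k + 1)) := by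
      linear_combination a 1 * h1 - a 3 * h2
    exact mul_right_cancel₀ hm.ne' h3
  · have hl := (hS (k + 1)).2
    have hm := (hS (k + 1)).1
    have h1 := R2 k
    have h2 := R1 (k + 1)
    have h4 := R4 k
    have hz := hpos _ hm
    show r (t + 4 * k + 1) * ((b 0 + a 2) * (b 0 + b 2 * v (t + 4 * (k + 1) + 2)) + a 1 ^ 2) =
      a 1 * a 3 * r (t + 4 * (k + 1) + 1)
    set L := r (t + 4 * k + 1)
    set L' := r (t + 4 * (k + 1) + 1)
    set M' := r (t + 4 * (k + 1))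
    set z := b 0 + b 2 * v (t + 4 * (k + 1) + 2)
    set u := b 2 * v (t + 4 * k + 3)
    -- L (b0 + u) = a3 M', M' z = a1 L', u L' = a1 M' + a2 L'
    have h5 : (L * ((b 0 + a 2) * z + a 1 ^ 2)) * L' = (a 1 * a 3 * L') * L' := by
      have e1 : a 1 * L' = M' * z := h2.symm
      have e2 : u * L' = a 1 * M' + a 2 * L' := h4
      have e3 : L * (b 0 + u) = a 3 * M' := h1
      -- multiply e3 by z L'
      have e4 : L * (b 0 + u) * (z * L') = a 3 * M' * (z * L') := by rw [e3]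
      have e5 : L * (b 0 + u) * (z * L') = L * z * (b 0 * L' + u * L') := by ring
      rw [e5, e2] at e4
      have e6 : L * z * (b 0 * L' + (a 1 * M' + a 2 * L')) =
          L * ((b 0 + a 2) * z * L' + a 1 * (M' * z)) := by ring
      rw [e6, ← e1] at e4
      have e7 : a 3 * M' * (z * L') = a 3 * (M' * z) * L' := by ring
      rw [e7, ← e1] at e4
      linear_combination e4
    exact mul_right_cancel₀ hl.ne' h5

end Pool.Agent.H50.Rdb
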