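import Pool.Agent.H50.Rdb.Zero

/-! # Limits along a backward orbit -/

namespace Pool.Agent.H50.Rdb

open Filter Topology

/-- the `j`-th term of the backward orbit stays bounded -/
def Bd (l : Ultrafilter ℕ) (X : ℕ → ℕ → ℝ) (j : ℕ) : Prop := ∃ M : ℝ, ∀ᶠ i in (l : Filter ℕ), X i j ≤ M

/-- `r j` is the limit of `X_j / X_0`, and `v j` the limit of `X_j` if it is bounded. -/
structure Lims (a b : ℕ → ℝ) (l : Ultrafilter ℕ) (X : ℕ → ℕ → ℝ) (r v : ℕ → ℝ) : Prop where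
  back : Back a b l X
  na : ∀ i < 5, 0 ≤ a i
  nb : ∀ i < 5, 0 ≤ b i
  hr : ∀ j, Tendsto (fun i => X i j / X i 0) l (𝓝 (r j))
  hv : ∀ j, Bd l X j → Tendsto (fun i => X i j) l (𝓝 (v j))

theorem exists_lim {l : Ultrafilter ℕ} {f : ℕ → ℝ} {m M : ℝ} (h : ∀ᶠ i in (l : Filter ℕ), m ≤ f i ∧ f i ≤ M) :
    ∃ c, Tendsto f l (𝓝 c) := by
  have hk : Set.Icc m M ∈ l.map f := by
    rw [Ultrafilter.mem_map]
    exact h
  obtain ⟨c, -, hc⟩ := (isCompact_Icc (a := m) (b := M)).ultrafilter_le_nhds (l.map f)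
    (Filter.le_principal_iff.2 hk)
  exact ⟨c, hc⟩

theorem exists_lims {a b : ℕ → ℝ} {l : Ultrafilter ℕ} {X : ℕ → ℕ → ℝ} (hX : Back a b l X)
    (na : ∀ i < 5, 0 ≤ a i) (nb : ∀ i < 5, 0 ≤ b i) : ∃ r v, Lims a b l X r v := by
  have h1 : ∀ j, ∃ c, Tendsto (fun i => X i j / X i 0) l (𝓝 c) := fun j =>
    exists_lim (m := 0) (M := 1) (Eventually.of_forall fun i =>
      ⟨div_nonneg (hX.pos i j).le (hX.pos i 0).le, (div_le_one (hX.pos i 0)).2 (hX.le i j)⟩)
  have h2 : ∀ j, ∃ c, Bd l X j → Tendsto (fun i => X i j) l (𝓝 c) := by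
    intro j
    by_cases hb : Bd l X j
    · obtain ⟨M, hM⟩ := hb
      obtain ⟨c, hc⟩ := exists_lim (m := 0) (M := M) (hM.mono fun i hi => ⟨(hX.pos i j).le, hi⟩)
      exact ⟨c, fun _ => hc⟩
    · exact ⟨0, fun h => absurd h hb⟩
  choose r hr using h1
  choose v hv using h2
  exact ⟨r, v, hX, na, nb, hr, hv⟩

namespace Lims

variable {a b : ℕ → ℝ} {l : Ultrafilter ℕ} {X : ℕ → ℕ → ℝ} {r v : ℕ → ℝ}

theorem r_nonneg (h : Lims a b l X r v) (j : ℕ) : 0 ≤ r j :=
  ge_of_tendsto' (h.hr j) fun i => div_nonneg (h.back.pos i j).le (h.back.pos i 0).le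

theorem r_le_one (h : Lims a b l X r v) (j : ℕ) : r j ≤ 1 :=
  le_of_tendsto' (h.hr j) fun i => (div_le_one (h.back.pos i 0)).2 (h.back.le i j)

theorem r_zero (h : Lims a b l X r v) : r 0 = 1 := by
  refine tendsto_nhds_unique (h.hr 0) ?_
  have : (fun i => X i 0 / X i 0) = fun _ => (1 : ℝ) := funext fun i => div_self (h.back.pos i 0).ne'
  rw [this]
  exact tendsto_const_nhds

theorem v_nonneg (h : Lims a b l X r v) {j : ℕ} (hj : Bd l X j) : 0 ≤ v j :=
  ge_of_tendsto' (h.hv j hj) fun i => (h.back.pos i j).le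

theorem inv_tendsto (h : Lims a b l X r v) : Tendsto (fun i => (X i 0)⁻¹) l (𝓝 0) :=
  tendsto_inv_atTop_zero.comp h.back.top

theorem r_eq_zero (h : Lims a b l X r v) {j : ℕ} (hj : Bd l X j) : r j = 0 := by
  refine tendsto_nhds_unique (h.hr j) ?_
  have := (h.hv j hj).mul h.inv_tendsto
  rw [mul_zero] at this
  exact this

/-- a lower bound for a bounded term passes to the limit -/
theorem le_v (h : Lims a b l X r v) {j : ℕ} {c : ℝ} (hj : Bd l X j)
    (hc : ∀ᶠ i in (l : Filter ℕ), c ≤ X i j) : c ≤ v j :=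
  ge_of_tendsto (h.hv j hj) hc

theorem lin_le (h : Lims a b l X r v) (j : ℕ) : ∀ᶠ i in (l : Filter ℕ),
    lin a (X i (j + 1)) (X i (j + 2)) (X i (j + 3)) (X i (j + 4)) ≤
      (a 0 + a 1 + a 2 + a 3 + a 4) * X i 0 := by
  filter_upwards [h.back.top.eventually_ge_atTop 1] with i hi
  have h0 := mul_le_mul_of_nonneg_left hi (h.na 0 (by norm_num))
  have h1 := mul_le_mul_of_nonneg_left (h.back.le i (j + 1)) (h.na 1 (by norm_num))
  have h2 := mul_le_mul_of_nonneg_left (h.back.le i (j + 2)) (h.na 2 (by norm_num))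
  have h3 := mul_le_mul_of_nonneg_left (h.back.le i (j + 3)) (h.na 3 (by norm_num))
  have h4 := mul_le_mul_of_nonneg_left (h.back.le i (j + 4)) (h.na 4 (by norm_num))
  unfold lin
  linarith

theorem le_lin (h : Lims a b l X r v) (i j : ℕ) {m : ℕ} (hm1 : 1 ≤ m) (hm4 : m ≤ 4) :
    b m * X i (j + m) ≤ lin b (X i (j + 1)) (X i (j + 2)) (X i (j + 3)) (X i (j + 4)) := by
  have h0 := h.nb 0 (by norm_num)
  have h1 := mul_nonneg (h.nb 1 (by norm_num)) (h.back.pos i (j + 1)).le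
  have h2 := mul_nonneg (h.nb 2 (by norm_num)) (h.back.pos i (j + 2)).le
  have h3 := mul_nonneg (h.nb 3 (by norm_num)) (h.back.pos i (j + 3)).le
  have h4 := mul_nonneg (h.nb 4 (by norm_num)) (h.back.pos i (j + 4)).le
  unfold lin
  have : m = 1 ∨ m = 2 ∨ m = 3 ∨ m = 4 := by omega
  rcases this with rfl | rfl | rfl | rfl <;> linarith

/-- the product bound `b_m X_j X_{j+m} ≤ A X_0` -/
theorem prod_le (h : Lims a b l X r v) (j : ℕ) {m : ℕ} (hm1 : 1 ≤ m) (hm4 : m ≤ 4) :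
    ∀ᶠ i in (l : Filter ℕ), X i j * (b m * X i (j + m)) ≤ (a 0 + a 1 + a 2 + a 3 + a 4) * X i 0 := by
  filter_upwards [h.lin_le j, h.back.step j] with i h1 h2
  calc X i j * (b m * X i (j + m)) ≤
      X i j * lin b (X i (j + 1)) (X i (j + 2)) (X i (j + 3)) (X i (j + 4)) :=
        mul_le_mul_of_nonneg_left (h.le_lin i j hm1 hm4) (h.back.pos i j).le
    _ = _ := h2
    _ ≤ _ := h1

theorem ge_of_r (h : Lims a b l X r v) {j : ℕ} (hj : 0 < r j) :
    ∀ᶠ i in (l : Filter ℕ), r j / 2 * X i 0 ≤ X i j := by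
  filter_upwards [(h.hr j).eventually (lt_mem_nhds (show r j / 2 < r j by linarith))] with i hi
  rw [lt_div_iff₀ (h.back.pos i 0)] at hi
  exact hi.le

/-- if `X_j` is comparable to the record then `X_{j+m}` is bounded, `m` being in the denominator -/
theorem bd_add (h : Lims a b l X r v) {j m : ℕ} (hm1 : 1 ≤ m) (hm4 : m ≤ 4) (hbm : 0 < b m)
    (hj : 0 < r j) : Bd l X (j + m) := by
  refine ⟨(a 0 + a 1 + a 2 + a 3 + a 4) / (r j / 2 * b m), ?_⟩
  filter_upwards [h.prod_le j hm1 hm4, h.ge_of_r hj] with i h1 h2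
  rw [le_div_iff₀ (by positivity)]
  have hx := h.back.pos i 0
  have hm := h.back.pos i (j + m)
  have h3 : r j / 2 * X i 0 * (b m * X i (j + m)) ≤ X i j * (b m * X i (j + m)) :=
    mul_le_mul_of_nonneg_right h2 (by positivity)
  have h4 : (X i (j + m) * (r j / 2 * b m)) * X i 0 ≤ (a 0 + a 1 + a 2 + a 3 + a 4) * X i 0 := by
    linarith
  exact le_of_mul_le_mul_right h4 hx

/-- if `X_{j+m}` is comparable to the record then `X_j` is bounded, `m` being in the denominator -/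
theorem bd_of_add (h : Lims a b l X r v) {j m : ℕ} (hm1 : 1 ≤ m) (hm4 : m ≤ 4) (hbm : 0 < b m)
    (hj : 0 < r (j + m)) : Bd l X j := by
  refine ⟨(a 0 + a 1 + a 2 + a 3 + a 4) / (r (j + m) / 2 * b m), ?_⟩
  filter_upwards [h.prod_le j hm1 hm4, h.ge_of_r hj] with i h1 h2
  rw [le_div_iff₀ (by positivity)]
  have hx := h.back.pos i 0
  have hm := h.back.pos i j
  have h3 : X i j * (b m * (r (j + m) / 2 * X i 0)) ≤ X i j * (b m * X i (j + m)) :=
    mul_le_mul_of_nonneg_left (mul_le_mul_of_nonneg_left h2 hbm.le) hm.le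
  have h4 : (X i j * (r (j + m) / 2 * b m)) * X i 0 ≤ (a 0 + a 1 + a 2 + a 3 + a 4) * X i 0 := by
    linarith
  exact le_of_mul_le_mul_right h4 hx

/-- the convergence of a term with a coefficient -/
theorem term (h : Lims a b l X r v) {c : ℝ} {j : ℕ} (hj : c = 0 ∨ Bd l X j) :
    Tendsto (fun i => c * X i j) l (𝓝 (c * v j)) := by
  rcases hj with rfl | hj
  · simp only [zero_mul]
    exact tendsto_const_nhds
  · exact (h.hv j hj).const_mul c

/-- equation divided by the record, all denominator terms bounded -/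
theorem eq1 (h : Lims a b l X r v) (j : ℕ) (h1 : b 1 = 0 ∨ Bd l X (j + 1))
    (h2 : b 2 = 0 ∨ Bd l X (j + 2)) (h3 : b 3 = 0 ∨ Bd l X (j + 3)) (h4 : b 4 = 0 ∨ Bd l X (j + 4)) :
    r j * (b 0 + b 1 * v (j + 1) + b 2 * v (j + 2) + b 3 * v (j + 3) + b 4 * v (j + 4)) =
      a 1 * r (j + 1) + a 2 * r (j + 2) + a 3 * r (j + 3) + a 4 * r (j + 4) := by
  have hL : Tendsto (fun i => X i j / X i 0 *
      lin b (X i (j + 1)) (X i (j + 2)) (X i (j + 3)) (X i (j + 4))) l (𝓝 (r j *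
      (b 0 + b 1 * v (j + 1) + b 2 * v (j + 2) + b 3 * v (j + 3) + b 4 * v (j + 4)))) :=
    (h.hr j).mul ((((tendsto_const_nhds.add (h.term h1)).add (h.term h2)).add (h.term h3)).add
      (h.term h4))
  have hR : Tendsto (fun i => a 0 * (X i 0)⁻¹ + a 1 * (X i (j + 1) / X i 0) +
      a 2 * (X i (j + 2) / X i 0) + a 3 * (X i (j + 3) / X i 0) + a 4 * (X i (j + 4) / X i 0)) l
      (𝓝 (a 0 * 0 + a 1 * r (j + 1) + a 2 * r (j + 2) + a 3 * r (j + 3) + a 4 * r (j + 4))) :=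
    ((((h.inv_tendsto.const_mul _).add ((h.hr (j + 1)).const_mul _)).add
      ((h.hr (j + 2)).const_mul _)).add ((h.hr (j + 3)).const_mul _)).add ((h.hr (j + 4)).const_mul _)
  have := tendsto_nhds_unique_of_eventuallyEq hL hR (by
    filter_upwards [h.back.step j] with i hi
    have hx := (h.back.pos i 0).ne'
    have e : X i j / X i 0 * lin b (X i (j + 1)) (X i (j + 2)) (X i (j + 3)) (X i (j + 4)) =
        lin a (X i (j + 1)) (X i (j + 2)) (X i (j + 3)) (X i (j + 4)) / X i 0 := by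
      rw [← hi]; ring
    rw [e]
    unfold lin
    field_simp)
  rw [this]
  ring

/-- equation of a bounded term, divided by the record -/
theorem eq2 (h : Lims a b l X r v) {j : ℕ} (hj : Bd l X j) :
    v j * (b 1 * r (j + 1) + b 2 * r (j + 2) + b 3 * r (j + 3) + b 4 * r (j + 4)) =
      a 1 * r (j + 1) + a 2 * r (j + 2) + a 3 * r (j + 3) + a 4 * r (j + 4) := by
  have hlin : ∀ c : ℕ → ℝ, Tendsto (fun i => c 0 * (X i 0)⁻¹ + c 1 * (X i (j + 1) / X i 0) +
      c 2 * (X i (j + 2) / X i 0) + c 3 * (X i (j + 3) / X i 0) + c 4 * (X i (j + 4) / X i 0)) l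
      (𝓝 (c 0 * 0 + c 1 * r (j + 1) + c 2 * r (j + 2) + c 3 * r (j + 3) + c 4 * r (j + 4))) := fun c =>
    ((((h.inv_tendsto.const_mul _).add ((h.hr (j + 1)).const_mul _)).add
      ((h.hr (j + 2)).const_mul _)).add ((h.hr (j + 3)).const_mul _)).add ((h.hr (j + 4)).const_mul _)
  have := tendsto_nhds_unique_of_eventuallyEq ((h.hv j hj).mul (hlin b)) (hlin a) (by
    filter_upwards [h.back.step j] with i hi
    have hx := (h.back.pos i 0).ne'
    unfold lin at hi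
    field_simp
    linarith)
  rw [mul_zero, zero_add, mul_zero, zero_add] at this
  exact this

/-- equation between bounded terms -/
theorem eq3 (h : Lims a b l X r v) {j : ℕ} (hj : Bd l X j)
    (h1 : (a 1 = 0 ∧ b 1 = 0) ∨ Bd l X (j + 1)) (h2 : (a 2 = 0 ∧ b 2 = 0) ∨ Bd l X (j + 2))
    (h3 : (a 3 = 0 ∧ b 3 = 0) ∨ Bd l X (j + 3)) (h4 : (a 4 = 0 ∧ b 4 = 0) ∨ Bd l X (j + 4)) :
    v j * (b 0 + b 1 * v (j + 1) + b 2 * v (j + 2) + b 3 * v (j + 3) + b 4 * v (j + 4)) =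
      a 0 + a 1 * v (j + 1) + a 2 * v (j + 2) + a 3 * v (j + 3) + a 4 * v (j + 4) := by
  have hB : Tendsto (fun i => lin b (X i (j + 1)) (X i (j + 2)) (X i (j + 3)) (X i (j + 4))) l
      (𝓝 (b 0 + b 1 * v (j + 1) + b 2 * v (j + 2) + b 3 * v (j + 3) + b 4 * v (j + 4))) :=
    (((tendsto_const_nhds.add (h.term (h1.imp And.right id))).add
      (h.term (h2.imp And.right id))).add (h.term (h3.imp And.right id))).add
      (h.term (h4.imp And.right id))
  have hA : Tendsto (fun i => lin a (X i (j + 1)) (X i (j + 2)) (X i (j + 3)) (X i (j + 4))) l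
      (𝓝 (a 0 + a 1 * v (j + 1) + a 2 * v (j + 2) + a 3 * v (j + 3) + a 4 * v (j + 4))) :=
    (((tendsto_const_nhds.add (h.term (h1.imp And.left id))).add
      (h.term (h2.imp And.left id))).add (h.term (h3.imp And.left id))).add
      (h.term (h4.imp And.left id))
  exact tendsto_nhds_unique_of_eventuallyEq ((h.hv j hj).mul hB) hA (h.back.step j)

end Lims

end Pool.Agent.H50.Rdb
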