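import Mathlib
import Pool.Agent.H81.RDE.Problem

/-!
# MP_5c7d49_an: boundedness of the remaining special cases, common definitions

Everything is done for the order four; an equation of order three is a special case.
-/

namespace Pool.Agent.H50.Rdb

open Filter Topology
open Pool.Agent.H81.RDE (Params IsSolution SpecialCase Belongs ESB Admissible caseOf Sign)

/-- `c 0 + c 1 u₁ + c 2 u₂ + c 3 u₃ + c 4 u₄` -/
def lin (c : ℕ → ℝ) (u1 u2 u3 u4 : ℝ) : ℝ := c 0 + c 1 * u1 + c 2 * u2 + c 3 * u3 + c 4 * u4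

/-- the coefficients `c 0, …, c 4` are positive at the bits of the mask and zero elsewhere -/
def Pat (N : ℕ) (c : ℕ → ℝ) : Prop := ∀ i < 5, if N.testBit i then 0 < c i else c i = 0

/-- a solution of the equation of order four, all terms positive -/
def PosSol (a b : ℕ → ℝ) (x : ℕ → ℝ) : Prop :=
  (∀ n, 0 < x n) ∧ ∀ n, x (n + 4) * lin b (x (n + 3)) (x (n + 2)) (x (n + 1)) (x n) =
    lin a (x (n + 3)) (x (n + 2)) (x (n + 1)) (x n)

/-- A backward orbit: `X i j` is the term `j` steps before a record of the solution number `i`. -/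
structure Back (a b : ℕ → ℝ) (l : Ultrafilter ℕ) (X : ℕ → ℕ → ℝ) : Prop where
  step : ∀ j, ∀ᶠ i in (l : Filter ℕ), X i j * lin b (X i (j + 1)) (X i (j + 2)) (X i (j + 3)) (X i (j + 4)) =
    lin a (X i (j + 1)) (X i (j + 2)) (X i (j + 3)) (X i (j + 4))
  pos : ∀ i j, 0 < X i j
  le : ∀ i j, X i j ≤ X i 0
  top : Tendsto (fun i => X i 0) l atTop

/-- There is no backward orbit for the coefficients. -/
def NoBack (a b : ℕ → ℝ) : Prop := ∀ (l : Ultrafilter ℕ) (X : ℕ → ℕ → ℝ), Back a b l X → False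

/-- a uniform bound for the positive solutions -/
def Uniform (a b : ℕ → ℝ) : Prop :=
  ∃ (K : ℝ) (R : ℕ), ∀ x, PosSol a b x → ∀ n, x n ≤ K ∨ ∃ t < R, x n ≤ x t

end Pool.Agent.H50.Rdb
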