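import Pool.Agent.H50.Rdb.Log

/-! # Finite certificates for records -/

namespace Pool.Agent.H50.Rdb

open Filter Topology Real
open Pool.Agent.H81.RDE (bitsL)

/-- A linear form in the four logarithms of a window, with a slack `s`. -/
structure F where
  a : ℤ
  b : ℤ
  c : ℤ
  d : ℤ
  s : ℕ

/-- the linear form -/
def F.ev (f : F) (w : ℕ → ℝ) (j : ℕ) : ℝ :=
  f.a * w j + f.b * w (j + 1) + f.c * w (j + 2) + f.d * w (j + 3)

/-- the inequality coded by `f` -/
def F.Holds (f : F) (C : ℝ) (w : ℕ → ℝ) (j : ℕ) : Prop := 0 ≤ f.ev w j + f.s * C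

/-- indicator of the position `i` -/
def ind (i k : ℕ) : ℤ := if Nat.beq i k then 1 else 0

/-- substitution of `w j = ent s - ent t ± C`, passing from the window at `j` to the one at `j + 1` -/
def F.tr (s t : ℕ) (f : F) : F :=
  ⟨f.b + f.a * (ind s 1 - ind t 1), f.c + f.a * (ind s 2 - ind t 2),
    f.d + f.a * (ind s 3 - ind t 3), f.a * (ind s 4 - ind t 4), f.s + f.a.natAbs⟩

/-- `ent s - ent t` as a form of the window at `j + 1` -/
def dif (s t : ℕ) : F := ⟨ind s 1 - ind t 1, ind s 2 - ind t 2, ind s 3 - ind t 3, ind s 4 - ind t 4, 0⟩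

/-- the record inequality for the oldest term of the window -/
def recF (Z : F) : F := ⟨Z.a, Z.b, Z.c, Z.d - 1, Z.s⟩

def zeroF : F := ⟨0, 0, 0, 0, 0⟩

def getF : List F → ℕ → F
  | [], _ => zeroF
  | h :: _, 0 => h
  | _ :: hs, k + 1 => getF hs k

/-- a combination of the hypotheses -/
def combF (H : List F) : List (ℕ × ℕ) → F
  | [] => zeroF
  | (i, m) :: l =>
    let h := getF H i
    let r := combF H l
    ⟨m * h.a + r.a, m * h.b + r.b, m * h.c + r.c, m * h.d + r.d, m * h.s + r.s⟩

def isZ : ℤ → Bool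
  | Int.ofNat n => Nat.beq n 0
  | Int.negSucc _ => false

/-- the hypotheses after a step of the kind `(s, t)` -/
def newH (N D : ℕ) (s t : ℕ) (Z : F) (H : List F) : List F :=
  recF (Z.tr s t) :: ((bitsL N).map fun s' => dif s s') ++ (((bitsL D).map fun t' => dif t t') ++
    H.map (F.tr s t))

/-- certificate trees -/
inductive T where
  | leaf (n : ℕ) (l : List (ℕ × ℕ))
  | keep (l : List ℕ) (t : T)
  | node (cs : T)
  | cons (t rest : T)
  | nil

/-- state of the checker -/
inductive Mode where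
  | nd
  | ch (todo : List (ℕ × ℕ))

/-- all kinds of steps -/
def pairs (N D : ℕ) : List (ℕ × ℕ) := (bitsL N).flatMap fun s => (bitsL D).map fun t => (s, t)

def check (N D : ℕ) (prs : List (ℕ × ℕ)) : T → F → List F → Mode → Bool
  | .leaf n l, Z, H, .nd =>
    let r := combF H l
    Nat.blt 0 n && isZ (n * Z.a + r.a) && isZ (n * Z.b + r.b) && isZ (n * Z.c + r.c) &&
      isZ (n * Z.d + r.d)
  | .keep l t, Z, H, .nd => check N D prs t Z (l.map (getF H)) .nd
  | .node cs, Z, H, .nd => check N D prs cs Z H (.ch prs)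
  | .cons t rest, Z, H, .ch ((s, u) :: todo) =>
    check N D prs t (Z.tr s u) (newH N D s u Z H) .nd && check N D prs rest Z H (.ch todo)
  | .nil, _, _, .ch [] => true
  | _, _, _, _ => false

/-- the initial state -/
def Z0 : F := ⟨1, 0, 0, 0, 0⟩

def H0 : List F := [⟨1, -1, 0, 0, 0⟩, ⟨1, 0, -1, 0, 0⟩, ⟨1, 0, 0, -1, 0⟩]

/-- the whole check -/
def ok (N D : ℕ) (t : T) : Bool :=
  Nat.blt N 32 && Nat.blt D 32 && Nat.blt 0 N && Nat.blt 0 D && check N D (pairs N D) t Z0 H0 .nd

/-! ### Soundness -/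

theorem isZ_iff {z : ℤ} (h : isZ z = true) : z = 0 := by
  cases z with
  | ofNat n => have := Nat.eq_of_beq_eq_true h; subst this; rfl
  | negSucc n => simp [isZ] at h

theorem holds_zeroF (C : ℝ) (w : ℕ → ℝ) (j : ℕ) : zeroF.Holds C w j := by
  simp [F.Holds, F.ev, zeroF]

theorem holds_getF {C : ℝ} {w : ℕ → ℝ} {j : ℕ} : ∀ (H : List F) (_ : ∀ f ∈ H, f.Holds C w j) (i : ℕ),
    (getF H i).Holds C w j
  | [], _, _ => holds_zeroF _ _ _
  | h :: _, hH, 0 => hH h (by simp)
  | _ :: hs, hH, k + 1 => holds_getF hs (fun f hf => hH f (by simp [hf])) k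

theorem holds_combF {C : ℝ} {w : ℕ → ℝ} {j : ℕ} {H : List F} (hH : ∀ f ∈ H, f.Holds C w j)
    (l : List (ℕ × ℕ)) : (combF H l).Holds C w j := by
  induction l with
  | nil => exact holds_zeroF _ _ _
  | cons p l ih =>
    obtain ⟨i, m⟩ := p
    have h1 := holds_getF H hH i
    have h2 := mul_nonneg (Nat.cast_nonneg (α := ℝ) m) h1
    unfold F.Holds at ih h2 ⊢
    have e : (combF H ((i, m) :: l)).ev w j + ((combF H ((i, m) :: l)).s : ℝ) * C =
        (m : ℝ) * ((getF H i).ev w j + (getF H i).s * C) + ((combF H l).ev w j + (combF H l).s * C) := by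
      simp only [combF, F.ev]
      push_cast
      ring
    rw [e]
    exact add_nonneg h2 ih

theorem ind_cast (s t : ℕ) (w : ℕ → ℝ) (j : ℕ) (hs : s < 5) (ht : t < 5) :
    ((ind s 1 - ind t 1 : ℤ) : ℝ) * w (j + 1) + ((ind s 2 - ind t 2 : ℤ) : ℝ) * w (j + 1 + 1) +
      ((ind s 3 - ind t 3 : ℤ) : ℝ) * w (j + 1 + 2) + ((ind s 4 - ind t 4 : ℤ) : ℝ) * w (j + 1 + 3) =
      ent w j s - ent w j t := by
  have h : ∀ s < 5, ((ind s 1 : ℤ) : ℝ) * w (j + 1) + ((ind s 2 : ℤ) : ℝ) * w (j + 1 + 1) +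
      ((ind s 3 : ℤ) : ℝ) * w (j + 1 + 2) + ((ind s 4 : ℤ) : ℝ) * w (j + 1 + 3) = ent w j s := by
    intro s hs
    have : s = 0 ∨ s = 1 ∨ s = 2 ∨ s = 3 ∨ s = 4 := by omega
    rcases this with rfl | rfl | rfl | rfl | rfl <;> simp [ind, ent, add_assoc]
  rw [← h s hs, ← h t ht]
  push_cast
  ring

theorem ev_dif (s t : ℕ) (w : ℕ → ℝ) (j : ℕ) (hs : s < 5) (ht : t < 5) :
    (dif s t).ev w (j + 1) = ent w j s - ent w j t := by
  rw [← ind_cast s t w j hs ht]
  rfl

/-- the transformed form bounds the old one -/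
theorem ev_tr {s t : ℕ} (f : F) {w : ℕ → ℝ} {j : ℕ} {C : ℝ} (hs : s < 5) (ht : t < 5)
    (h : |w j - (ent w j s - ent w j t)| ≤ C) :
    f.ev w j ≤ (f.tr s t).ev w (j + 1) + f.a.natAbs * C := by
  have e : (f.tr s t).ev w (j + 1) = f.ev w j - f.a * (w j - (ent w j s - ent w j t)) := by
    rw [← ind_cast s t w j hs ht]
    simp only [F.ev, F.tr]
    have e1 : j + 1 + 1 = j + 2 := rfl
    have e2 : j + 1 + 2 = j + 3 := rfl
    rw [e1, e2]
    push_cast
    ring
  rw [e]
  have h1 : (f.a : ℝ) * (w j - (ent w j s - ent w j t)) ≤ f.a.natAbs * C := by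
    have h2 : (f.a.natAbs : ℝ) = |(f.a : ℝ)| := by
      rw [Nat.cast_natAbs, Int.cast_abs]
    rw [h2]
    calc (f.a : ℝ) * (w j - (ent w j s - ent w j t)) ≤ |(f.a : ℝ) * (w j - (ent w j s - ent w j t))| :=
          le_abs_self _
      _ = |(f.a : ℝ)| * |w j - (ent w j s - ent w j t)| := abs_mul _ _
      _ ≤ |(f.a : ℝ)| * C := mul_le_mul_of_nonneg_left h (abs_nonneg _)
  linarith

theorem holds_tr {s t : ℕ} {f : F} {w : ℕ → ℝ} {j : ℕ} {C : ℝ} (hs : s < 5) (ht : t < 5)
    (h : |w j - (ent w j s - ent w j t)| ≤ C) (hf : f.Holds C w j) : (f.tr s t).Holds C w (j + 1) := by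
  have h1 := ev_tr f hs ht h
  unfold F.Holds at hf ⊢
  have e : ((f.tr s t).s : ℝ) = f.s + f.a.natAbs := by simp [F.tr]
  rw [e]
  linarith

/-- the claim proved by a certificate for the current window -/
def Concl (N D : ℕ) (Z : F) (H : List F) (m : Mode) : Prop :=
  ∃ Q L : ℕ, ∀ (C : ℝ) (w : ℕ → ℝ) (j : ℕ), 0 ≤ C → (∀ i, w i ≤ w 0) →
    (∀ i, j ≤ i → i < j + L → StepAt N D C w i) → w 0 ≤ Z.ev w j + Z.s * C →
    (∀ f ∈ H, f.Holds C w j) →
    (match m with
      | .nd => True
      | .ch todo => ∃ p ∈ todo, p.1 ∈ bitsL N ∧ p.2 ∈ bitsL D ∧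
          (∀ s' ∈ bitsL N, ent w j s' ≤ ent w j p.1) ∧
          (∀ t' ∈ bitsL D, ent w j t' ≤ ent w j p.2) ∧ |w j - (ent w j p.1 - ent w j p.2)| ≤ C) →
    w 0 ≤ Q * C

theorem concl_leaf {N D n : ℕ} {l : List (ℕ × ℕ)} {Z : F} {H : List F}
    (h : check N D (pairs N D) (.leaf n l) Z H .nd = true) : Concl N D Z H .nd := by
  simp only [check, Bool.and_eq_true] at h
  obtain ⟨⟨⟨⟨h0, ha⟩, hb⟩, hc⟩, hd⟩ := h
  have hn : 0 < n := by
    rw [Nat.blt_eq] at h0
    exact h0
  have ha := isZ_iff ha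
  have hb := isZ_iff hb
  have hc := isZ_iff hc
  have hd := isZ_iff hd
  refine ⟨(combF H l).s + Z.s, 0, fun C w j hC _ _ hZ hH _ => ?_⟩
  have h1 := holds_combF hH l
  unfold F.Holds at h1
  have hae : (n : ℝ) * Z.a + (combF H l).a = 0 := by exact_mod_cast ha
  have hbe : (n : ℝ) * Z.b + (combF H l).b = 0 := by exact_mod_cast hb
  have hce : (n : ℝ) * Z.c + (combF H l).c = 0 := by exact_mod_cast hc
  have hde : (n : ℝ) * Z.d + (combF H l).d = 0 := by exact_mod_cast hd
  have h2 : (n : ℝ) * Z.ev w j + (combF H l).ev w j = 0 := by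
    simp only [F.ev]
    linear_combination w j * hae + w (j + 1) * hbe + w (j + 2) * hce + w (j + 3) * hde
  have hn1 : (1 : ℝ) ≤ n := by exact_mod_cast hn
  have h3 : 0 ≤ ((combF H l).s : ℝ) * C := mul_nonneg (Nat.cast_nonneg _) hC
  have h4 : Z.ev w j ≤ ((combF H l).s : ℝ) * C := by
    by_contra hlt
    push Not at hlt
    have : Z.ev w j ≤ n * Z.ev w j := by nlinarith
    linarith
  push_cast
  linarith

theorem check_sound (N D : ℕ) : ∀ (t : T) (Z : F) (H : List F) (m : Mode),
    check N D (pairs N D) t Z H m = true → Concl N D Z H m := by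
  intro t
  induction t with
  | leaf n l =>
    intro Z H m h
    cases m with
    | nd => exact concl_leaf h
    | ch todo => simp [check] at h
  | keep l t ih =>
    intro Z H m h
    cases m with
    | ch todo => simp [check] at h
    | nd =>
      simp only [check] at h
      obtain ⟨Q, L, hQ⟩ := ih Z _ .nd h
      refine ⟨Q, L, fun C w j hC hr hst hZ hH hm => hQ C w j hC hr hst hZ ?_ hm⟩
      intro f hf
      obtain ⟨i, -, rfl⟩ := List.mem_map.1 hf
      exact holds_getF H hH i
  | node cs ih =>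
    intro Z H m h
    cases m with
    | ch todo => simp [check] at h
    | nd =>
      simp only [check] at h
      obtain ⟨Q, L, hQ⟩ := ih Z H _ h
      refine ⟨Q, L + 1, fun C w j hC hr hst hZ hH _ => hQ C w j hC hr
        (fun i h1 h2 => hst i h1 (by omega)) hZ hH ?_⟩
      obtain ⟨s, hs, t, ht, h1, h2, h3⟩ := hst j le_rfl (by omega)
      refine ⟨(s, t), ?_, hs, ht, h1, h2, h3⟩
      unfold pairs
      rw [List.mem_flatMap]
      exact ⟨s, hs, List.mem_map.2 ⟨t, ht, rfl⟩⟩
  | cons t rest iht ihr =>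
    intro Z H m h
    cases m with
    | nd => simp [check] at h
    | ch todo =>
      cases todo with
      | nil => simp [check] at h
      | cons p todo =>
        obtain ⟨s, u⟩ := p
        simp only [check, Bool.and_eq_true] at h
        obtain ⟨Q1, L1, h1⟩ := iht _ _ _ h.1
        obtain ⟨Q2, L2, h2⟩ := ihr _ _ _ h.2
        refine ⟨Q1 + Q2, L1 + L2 + 1, fun C w j hC hr hst hZ hH hm => ?_⟩
        obtain ⟨p, hp, hp1, hp2, hp3, hp4, hp5⟩ := hm
        rcases List.mem_cons.1 hp with rfl | hp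
        · have hs5 := (mem_bitsL.1 hp1).1
          have hu5 := (mem_bitsL.1 hp2).1
          have hZ' : w 0 ≤ (Z.tr s u).ev w (j + 1) + (Z.tr s u).s * C := by
            have := ev_tr Z hs5 hu5 hp5
            have e : ((Z.tr s u).s : ℝ) = Z.s + Z.a.natAbs := by simp [F.tr]
            rw [e]
            linarith
          have := h1 C w (j + 1) hC hr (fun i h1 h2 => hst i (by omega) (by omega)) hZ' (by
            intro f hf
            unfold newH at hf
            simp only [List.mem_append, List.mem_cons, List.mem_map] at hf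
            rcases hf with (rfl | ⟨s', hs', rfl⟩) | ⟨t', ht', rfl⟩ | ⟨g, hg, rfl⟩
            · have h4 := hr (j + 1 + 3)
              unfold F.Holds
              have e : (recF (Z.tr s u)).ev w (j + 1) = (Z.tr s u).ev w (j + 1) - w (j + 1 + 3) := by
                simp only [recF, F.ev]
                push_cast
                ring
              have e2 : (recF (Z.tr s u)).s = (Z.tr s u).s := rfl
              rw [e, e2]
              linarith
            · unfold F.Holds
              rw [ev_dif s s' w j hs5 (mem_bitsL.1 hs').1]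
              have := hp3 s' hs'
              have e2 : (dif s s').s = 0 := rfl
              rw [e2]
              push_cast
              linarith
            · unfold F.Holds
              rw [ev_dif u t' w j hu5 (mem_bitsL.1 ht').1]
              have := hp4 t' ht'
              have e2 : (dif u t').s = 0 := rfl
              rw [e2]
              push_cast
              linarith
            · exact holds_tr hs5 hu5 hp5 (hH g hg)) trivial
          have h0 : 0 ≤ (Q2 : ℝ) * C := mul_nonneg (Nat.cast_nonneg _) hC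
          push_cast
          linarith
        · have := h2 C w j hC hr (fun i h1 h2 => hst i h1 (by omega)) hZ hH
            ⟨p, hp, hp1, hp2, hp3, hp4, hp5⟩
          have h0 : 0 ≤ (Q1 : ℝ) * C := mul_nonneg (Nat.cast_nonneg _) hC
          push_cast
          linarith
  | nil =>
    intro Z H m h
    cases m with
    | nd => simp [check] at h
    | ch todo =>
      cases todo with
      | nil =>
        refine ⟨0, 0, fun C w j hC hr hst hZ hH hm => ?_⟩
        obtain ⟨p, hp, -⟩ := hm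
        simp at hp
      | cons p todo => simp [check] at h

/-- **The certificates are sound.** -/
theorem noBack_of_ok {N D : ℕ} {t : T} (h : ok N D t = true) :
    (N < 32 ∧ N ≠ 0 ∧ D < 32 ∧ D ≠ 0) ∧ ∀ a b, Pat N a → Pat D b → NoBack a b := by
  simp only [ok, Bool.and_eq_true, Nat.blt_eq] at h
  obtain ⟨⟨⟨⟨hN, hD⟩, hN1⟩, hD1⟩, hc⟩ := h
  refine ⟨⟨hN, hN1.ne', hD, hD1.ne'⟩, fun a b ha hb l X hX => ?_⟩
  obtain ⟨C, hC, hstep⟩ := exists_stepAt hN hN1.ne' hD hD1.ne' ha hb
  obtain ⟨Q, L, hQ⟩ := check_sound N D t _ _ _ hc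
  have e1 : ∀ᶠ i in (l : Filter ℕ), ∀ j ∈ Finset.range L,
      X i j * lin b (X i (j + 1)) (X i (j + 2)) (X i (j + 3)) (X i (j + 4)) =
        lin a (X i (j + 1)) (X i (j + 2)) (X i (j + 3)) (X i (j + 4)) :=
    (Finset.eventually_all _).2 fun j _ => hX.step j
  have e2 : ∀ᶠ i in (l : Filter ℕ), exp (Q * C) < X i 0 := hX.top.eventually_gt_atTop _
  obtain ⟨i, h1, h2⟩ := (e1.and e2).exists
  have h3 := hQ C (fun n => log (X i n)) 0 hC (fun n => log_le_log (hX.pos i n) (hX.le i n))
    (fun j _ hj => hstep (X i) j (hX.pos i) (h1 j (Finset.mem_range.2 (by omega))))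
    (by simp [Z0, F.ev]) (by
      intro f hf
      have hle : ∀ n, log (X i n) ≤ log (X i 0) := fun n => log_le_log (hX.pos i n) (hX.le i n)
      unfold H0 at hf
      simp only [List.mem_cons, List.not_mem_nil, or_false] at hf
      rcases hf with rfl | rfl | rfl
      · have := hle 1; simp [F.Holds, F.ev]; linarith
      · have := hle 2; simp [F.Holds, F.ev]; linarith
      · have := hle 3; simp [F.Holds, F.ev]; linarith) trivial
  have h4 : (Q : ℝ) * C < log (X i 0) := by
    rw [lt_log_iff_exp_lt (hX.pos i 0)]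
    exact h2
  linarith

theorem esb_of_ok {N D : ℕ} {t : T} (h : ok N D t = true) : Pool.Agent.H81.RDE.ESB (Pool.Agent.H81.RDE.caseOf 4 N D) := by
  obtain ⟨⟨h1, h2, h3, h4⟩, h5⟩ := noBack_of_ok h
  exact esb_of_noBack h1 h2 h3 h4 h5

end Pool.Agent.H50.Rdb
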