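import Pool.Agent.H50.Rdb.Fam3

/-! # Constant numerators, period six, Lyness, and the families as special cases -/

namespace Pool.Agent.H50.Rdb

open Filter Topology
open Pool.Agent.H81.RDE (Params IsSolution SpecialCase Belongs ESB Admissible caseOf Sign)

/-- ESB from a property of the nonnegative solutions -/
theorem esb_of_nonneg {N D : ℕ}
    (h : ∀ a b x, Pat N a → Pat D b → NonnegSol a b x → ∃ M, ∀ n, x n ≤ M) : ESB (caseOf 4 N D) := by
  intro P hP x hx
  exact h _ _ x (pat_numC hP) (pat_denC hP) (nonnegSol_of_isSolution hP hx)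

/-- a sequence bounded from some point on is bounded -/
theorem bdd_of_tail {x : ℕ → ℝ} (hx : ∀ n, 0 ≤ x n) {k : ℕ} {M : ℝ} (h : ∀ n, k ≤ n → x n ≤ M) :
    ∃ M, ∀ n, x n ≤ M := by
  refine ⟨max M (∑ t ∈ Finset.range k, x t), fun n => ?_⟩
  by_cases hn : k ≤ n
  · exact (h n hn).trans (le_max_left _ _)
  · refine le_trans ?_ (le_max_right _ _)
    exact Finset.single_le_sum (f := x) (fun i _ => hx i) (Finset.mem_range.2 (by omega))

/-- constant numerator, no constant in the denominator -/
theorem esb_const {D : ℕ} (hD : D < 32) (hD1 : D ≠ 0) (h0 : D.testBit 0 = false) :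
    ESB (caseOf 4 1 D) := by
  refine esb_of_nonneg fun a b x ha hb hx => ?_
  have a0 : 0 < a 0 := ha.pos (by norm_num) (by decide)
  have hlin : ∀ u1 u2 u3 u4, lin a u1 u2 u3 u4 = a 0 := by
    intro u1 u2 u3 u4
    unfold lin
    rw [ha.zero (i := 1) (by norm_num) (by decide), ha.zero (i := 2) (by norm_num) (by decide),
      ha.zero (i := 3) (by norm_num) (by decide), ha.zero (i := 4) (by norm_num) (by decide)]
    ring
  have b0 : b 0 = 0 := hb.zero (by norm_num) h0
  have hb1 := hb.nonneg (i := 1) (by norm_num)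
  have hb2 := hb.nonneg (i := 2) (by norm_num)
  have hb3 := hb.nonneg (i := 3) (by norm_num)
  have hb4 := hb.nonneg (i := 4) (by norm_num)
  set S := b 1 + b 2 + b 3 + b 4 with hS
  have hSp : 0 < S := by
    have := lin_pos hD hD1 hb (u1 := 1) (u2 := 1) (u3 := 1) (u4 := 1) one_pos one_pos one_pos one_pos
    unfold lin at this
    rw [b0] at this
    linarith
  have hpos : ∀ n, 0 < x (n + 4) := by
    intro n
    rw [(hx.2 n).2, hlin]
    exact div_pos a0 (hx.2 n).1
  set m0 := min (min (x 4) (x 5)) (min (x 6) (x 7)) with hm0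
  have hm0p : 0 < m0 := lt_min (lt_min (hpos 0) (hpos 1)) (lt_min (hpos 2) (hpos 3))
  set M := max (max (max (x 4) (x 5)) (max (x 6) (x 7))) (a 0 / (S * m0)) with hM
  have hMp : 0 < M := lt_of_lt_of_le (div_pos a0 (mul_pos hSp hm0p)) (le_max_right _ _)
  set m := a 0 / (S * M) with hm
  have hmp : 0 < m := div_pos a0 (mul_pos hSp hMp)
  have hmm0 : m ≤ m0 := by
    rw [hm, div_le_iff₀ (mul_pos hSp hMp)]
    have h1 : a 0 / (S * m0) ≤ M := le_max_right _ _
    rw [div_le_iff₀ (mul_pos hSp hm0p)] at h1
    linarith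
  have key : ∀ n, m ≤ x (n + 4) ∧ x (n + 4) ≤ M := by
    intro n
    induction n using Nat.strong_induction_on with
    | _ n ih =>
      by_cases hn : n < 4
      · have hle : m0 ≤ x (n + 4) := by
          have : n = 0 ∨ n = 1 ∨ n = 2 ∨ n = 3 := by omega
          rcases this with rfl | rfl | rfl | rfl
          · exact (min_le_left _ _).trans (min_le_left _ _)
          · exact (min_le_left _ _).trans (min_le_right _ _)
          · exact (min_le_right _ _).trans (min_le_left _ _)
          · exact (min_le_right _ _).trans (min_le_right _ _)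
        have hge : x (n + 4) ≤ max (max (x 4) (x 5)) (max (x 6) (x 7)) := by
          have : n = 0 ∨ n = 1 ∨ n = 2 ∨ n = 3 := by omega
          rcases this with rfl | rfl | rfl | rfl
          · exact le_trans (le_max_left (x 4) (x 5)) (le_max_left _ _)
          · exact le_trans (le_max_right (x 4) (x 5)) (le_max_left _ _)
          · exact le_trans (le_max_left (x 6) (x 7)) (le_max_right _ _)
          · exact le_trans (le_max_right (x 6) (x 7)) (le_max_right _ _)
        exact ⟨hmm0.trans hle, hge.trans (le_max_left _ _)⟩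
      · obtain ⟨k, rfl⟩ : ∃ k, n = k + 4 := ⟨n - 4, by omega⟩
        obtain ⟨l0, u0⟩ := ih k (by omega)
        obtain ⟨l1, u1⟩ := ih (k + 1) (by omega)
        obtain ⟨l2, u2⟩ := ih (k + 2) (by omega)
        obtain ⟨l3, u3⟩ := ih (k + 3) (by omega)
        have hd := hx.2 (k + 4)
        have e1 : k + 4 + 3 = k + 3 + 4 := by ring
        have e2 : k + 4 + 2 = k + 2 + 4 := by ring
        have e3 : k + 4 + 1 = k + 1 + 4 := by ring
        rw [hd.2, hlin, e1, e2, e3]
        have hden : lin b (x (k + 3 + 4)) (x (k + 2 + 4)) (x (k + 1 + 4)) (x (k + 4)) =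
            b 1 * x (k + 3 + 4) + b 2 * x (k + 2 + 4) + b 3 * x (k + 1 + 4) + b 4 * x (k + 4) := by
          unfold lin; rw [b0]; ring
        have hlow : S * m ≤ lin b (x (k + 3 + 4)) (x (k + 2 + 4)) (x (k + 1 + 4)) (x (k + 4)) := by
          rw [hden]
          have := mul_le_mul_of_nonneg_left l3 hb1
          have := mul_le_mul_of_nonneg_left l2 hb2
          have := mul_le_mul_of_nonneg_left l1 hb3
          have := mul_le_mul_of_nonneg_left l0 hb4
          rw [hS]; linarith
        have hup : lin b (x (k + 3 + 4)) (x (k + 2 + 4)) (x (k + 1 + 4)) (x (k + 4)) ≤ S * M := by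
          rw [hden]
          have := mul_le_mul_of_nonneg_left u3 hb1
          have := mul_le_mul_of_nonneg_left u2 hb2
          have := mul_le_mul_of_nonneg_left u1 hb3
          have := mul_le_mul_of_nonneg_left u0 hb4
          rw [hS]; linarith
        have hdp : 0 < lin b (x (k + 3 + 4)) (x (k + 2 + 4)) (x (k + 1 + 4)) (x (k + 4)) :=
          lt_of_lt_of_le (mul_pos hSp hmp) hlow
        constructor
        · rw [hm]
          exact div_le_div_of_nonneg_left a0.le hdp hup
        · have h1 : a 0 / lin b (x (k + 3 + 4)) (x (k + 2 + 4)) (x (k + 1 + 4)) (x (k + 4)) ≤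
              a 0 / (S * m) := div_le_div_of_nonneg_left a0.le (mul_pos hSp hmp) hlow
          have h2 : a 0 / (S * m) = M := by
            rw [hm]; field_simp
          rw [h2] at h1
          exact h1
  exact bdd_of_tail hx.1 (k := 4) (M := M) fun n hn => by
    obtain ⟨k, rfl⟩ : ∃ k, n = k + 4 := ⟨n - 4, by omega⟩
    exact (key k).2

/-- `x_n = x_{n-1} / x_{n-2}`: period six -/
theorem esb_2_4 : ESB (caseOf 4 2 4) := by
  refine esb_of_nonneg fun a b x ha hb hx => ?_
  have a1 : 0 < a 1 := ha.pos (by norm_num) (by decide)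
  have b2 : 0 < b 2 := hb.pos (by norm_num) (by decide)
  have hA : ∀ u1 u2 u3 u4, lin a u1 u2 u3 u4 = a 1 * u1 := by
    intro u1 u2 u3 u4
    unfold lin
    rw [ha.zero (i := 0) (by norm_num) (by decide), ha.zero (i := 2) (by norm_num) (by decide),
      ha.zero (i := 3) (by norm_num) (by decide), ha.zero (i := 4) (by norm_num) (by decide)]
    ring
  have hB : ∀ u1 u2 u3 u4, lin b u1 u2 u3 u4 = b 2 * u2 := by
    intro u1 u2 u3 u4
    unfold lin
    rw [hb.zero (i := 0) (by norm_num) (by decide), hb.zero (i := 1) (by norm_num) (by decide),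
      hb.zero (i := 3) (by norm_num) (by decide), hb.zero (i := 4) (by norm_num) (by decide)]
    ring
  have hpos : ∀ n, 0 < x (n + 2) := by
    intro n
    have := (hx.2 n).1
    rw [hB] at this
    exact pos_of_mul_pos_right this b2.le
  have hrec : ∀ n, x (n + 4) * (b 2 * x (n + 2)) = a 1 * x (n + 3) := by
    intro n
    have h1 := (hx.2 n).2
    have h2 := (hx.2 n).1
    rw [hB] at h1 h2
    rw [hA] at h1
    rw [h1]
    exact div_mul_cancel₀ _ h2.ne'
  have h3 : ∀ n, x (n + 5) * x (n + 2) * b 2 ^ 2 = a 1 ^ 2 := by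
    intro n
    have h1 := hrec n
    have h2 := hrec (n + 1)
    rw [show n + 1 + 4 = n + 5 by ring, show n + 1 + 2 = n + 3 by ring,
      show n + 1 + 3 = n + 4 by ring] at h2
    have hp := hpos (n + 1)
    rw [show n + 1 + 2 = n + 3 by ring] at hp
    have hq := hpos (n + 2)
    rw [show n + 2 + 2 = n + 4 by ring] at hq
    have : (x (n + 5) * x (n + 2) * b 2 ^ 2) * (x (n + 3) * x (n + 4)) =
        a 1 ^ 2 * (x (n + 3) * x (n + 4)) := by
      linear_combination (x (n + 4) * (b 2 * x (n + 2))) * h2 + (a 1 * x (n + 4)) * h1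
    exact mul_right_cancel₀ (mul_pos hp hq).ne' this
  have h6 : ∀ n, x (n + 8) = x (n + 2) := by
    intro n
    have h1 := h3 n
    have h2 := h3 (n + 3)
    rw [show n + 3 + 5 = n + 8 by ring, show n + 3 + 2 = n + 5 by ring] at h2
    have hp := hpos (n + 3)
    rw [show n + 3 + 2 = n + 5 by ring] at hp
    have : x (n + 8) * (x (n + 5) * b 2 ^ 2) = x (n + 2) * (x (n + 5) * b 2 ^ 2) := by linarith
    exact mul_right_cancel₀ (mul_pos hp (by positivity)).ne' this
  refine bdd_of_tail hx.1 (k := 2) (M := ∑ t ∈ Finset.range 8, x t) fun n hn => ?_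
  obtain ⟨k, rfl⟩ : ∃ k, n = k + 2 := ⟨n - 2, by omega⟩
  clear hn
  induction k using Nat.strong_induction_on with
  | _ k ih =>
    by_cases hk : k < 6
    · exact Finset.single_le_sum (f := x) (fun i _ => hx.1 i) (Finset.mem_range.2 (by omega))
    · obtain ⟨j, rfl⟩ : ∃ j, k = j + 6 := ⟨k - 6, by omega⟩
      have := ih j (by omega)
      rw [show j + 6 + 2 = j + 8 by ring, h6 j]
      exact this

/-- Lyness' equation -/
theorem esb_3_4 : ESB (caseOf 4 3 4) := by
  refine esb_of_nonneg fun a b x ha hb hx => ?_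
  have a0 : 0 < a 0 := ha.pos (by norm_num) (by decide)
  have a1 : 0 < a 1 := ha.pos (by norm_num) (by decide)
  have b2 : 0 < b 2 := hb.pos (by norm_num) (by decide)
  have hA : ∀ u1 u2 u3 u4, lin a u1 u2 u3 u4 = a 0 + a 1 * u1 := by
    intro u1 u2 u3 u4
    unfold lin
    rw [ha.zero (i := 2) (by norm_num) (by decide),
      ha.zero (i := 3) (by norm_num) (by decide), ha.zero (i := 4) (by norm_num) (by decide)]
    ring
  have hB : ∀ u1 u2 u3 u4, lin b u1 u2 u3 u4 = b 2 * u2 := by
    intro u1 u2 u3 u4
    unfold lin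
    rw [hb.zero (i := 0) (by norm_num) (by decide), hb.zero (i := 1) (by norm_num) (by decide),
      hb.zero (i := 3) (by norm_num) (by decide), hb.zero (i := 4) (by norm_num) (by decide)]
    ring
  have hpos : ∀ n, 0 < x (n + 2) := by
    intro n
    have := (hx.2 n).1
    rw [hB] at this
    exact pos_of_mul_pos_right this b2.le
  set p := a 0 / b 2 with hp
  set q := a 1 / b 2 with hq
  have hpp : 0 < p := div_pos a0 b2
  have hqp : 0 < q := div_pos a1 b2
  have hrec : ∀ n, x (n + 4) * x (n + 2) = p + q * x (n + 3) := by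
    intro n
    have h1 := (hx.2 n).2
    have h2 := (hx.2 n).1
    rw [hB] at h1 h2
    rw [hA] at h1
    have h3 : x (n + 2) ≠ 0 := (hpos n).ne'
    rw [h1, hp, hq]
    field_simp
  set J : ℕ → ℝ := fun n => (x (n + 2) + q) * (x (n + 3) + q) * (p / q + x (n + 2) + x (n + 3)) /
    (x (n + 2) * x (n + 3)) with hJ
  have hJc : ∀ n, J (n + 1) = J n := by
    intro n
    have h1 := hpos n
    have h2 : 0 < x (n + 3) := hpos (n + 1)
    have h3 : 0 < x (n + 4) := hpos (n + 2)
    have hr := hrec n
    simp only [hJ]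
    rw [show n + 1 + 2 = n + 3 by ring, show n + 1 + 3 = n + 4 by ring]
    have e1 : (x (n + 4) + q) * x (n + 2) = q * (p / q + x (n + 2) + x (n + 3)) := by
      have : q * (p / q) = p := by field_simp
      linear_combination hr - this
    have e2 : q * (p / q + x (n + 3) + x (n + 4)) = x (n + 4) * (x (n + 2) + q) := by
      have : q * (p / q) = p := by field_simp
      linear_combination this - hr
    rw [div_eq_div_iff (mul_pos h2 h3).ne' (mul_pos h1 h2).ne']
    have h5 : q * ((x (n + 3) + q) * (x (n + 4) + q) * (p / q + x (n + 3) + x (n + 4)) *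
        (x (n + 2) * x (n + 3))) = q * ((x (n + 2) + q) * (x (n + 3) + q) *
        (p / q + x (n + 2) + x (n + 3)) * (x (n + 3) * x (n + 4))) := by
      calc q * ((x (n + 3) + q) * (x (n + 4) + q) * (p / q + x (n + 3) + x (n + 4)) *
        (x (n + 2) * x (n + 3))) = (x (n + 3) + q) * ((x (n + 4) + q) * x (n + 2)) *
          (q * (p / q + x (n + 3) + x (n + 4))) * x (n + 3) := by ring
        _ = (x (n + 3) + q) * (q * (p / q + x (n + 2) + x (n + 3))) *
          (x (n + 4) * (x (n + 2) + q)) * x (n + 3) := by rw [e1, e2]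
        _ = _ := by ring
    exact mul_left_cancel₀ hqp.ne' h5
  have hJ0 : ∀ n, J n = J 0 := by
    intro n
    induction n with
    | zero => rfl
    | succ n ih => rw [hJc, ih]
  refine bdd_of_tail hx.1 (k := 2) (M := J 0) fun n hn => ?_
  obtain ⟨k, rfl⟩ : ∃ k, n = k + 2 := ⟨n - 2, by omega⟩
  rw [← hJ0 k]
  have h1 := hpos k
  have h2 : 0 < x (k + 3) := hpos (k + 1)
  simp only [hJ]
  rw [le_div_iff₀ (mul_pos h1 h2)]
  have h3 : 0 < p / q := div_pos hpp hqp
  have h4 : x (k + 2) * x (k + 3) ≤ (x (k + 2) + q) * (x (k + 3) + q) := by nlinarith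
  have h5 : x (k + 2) ≤ p / q + x (k + 2) + x (k + 3) := by linarith
  calc x (k + 2) * (x (k + 2) * x (k + 3)) ≤
      (p / q + x (k + 2) + x (k + 3)) * ((x (k + 2) + q) * (x (k + 3) + q)) :=
        mul_le_mul h5 h4 (by positivity) (by positivity)
    _ = _ := by ring

/-! ### The families as special cases -/

theorem esb_F1 {N D : ℕ} (hN : N = 10 ∨ N = 11) (hD : D = 2 ∨ D = 3) : ESB (caseOf 4 N D) := by
  rcases hN with rfl | rfl <;> rcases hD with rfl | rfl <;>
  exact esb_of_noBack (by norm_num) (by norm_num) (by norm_num) (by norm_num) fun a b ha hb =>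
    noBack_F1 (fun i hi => ha.nonneg hi) (fun i hi => hb.nonneg hi)
      (ha.pos (by norm_num) (by decide)) (ha.zero (by norm_num) (by decide))
      (ha.pos (by norm_num) (by decide)) (ha.zero (by norm_num) (by decide))
      (hb.pos (by norm_num) (by decide)) (hb.zero (by norm_num) (by decide))
      (hb.zero (by norm_num) (by decide)) (hb.zero (by norm_num) (by decide))

theorem esb_F2 {N D : ℕ} (hN : N = 12 ∨ N = 13) (hD : D = 4 ∨ D = 5) : ESB (caseOf 4 N D) := by
  rcases hN with rfl | rfl <;> rcases hD with rfl | rfl <;>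
  exact esb_of_noBack (by norm_num) (by norm_num) (by norm_num) (by norm_num) fun a b ha hb =>
    noBack_F2 (fun i hi => ha.nonneg hi) (fun i hi => hb.nonneg hi)
      (ha.zero (by norm_num) (by decide)) (ha.pos (by norm_num) (by decide))
      (ha.pos (by norm_num) (by decide)) (ha.zero (by norm_num) (by decide))
      (hb.zero (by norm_num) (by decide)) (hb.pos (by norm_num) (by decide))
      (hb.zero (by norm_num) (by decide)) (hb.zero (by norm_num) (by decide))

theorem esb_N3a {D : ℕ} (hD : D = 3 ∨ D = 19) : ESB (caseOf 4 9 D) := by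
  rcases hD with rfl | rfl <;>
  exact esb_of_noBack (by norm_num) (by norm_num) (by norm_num) (by norm_num) fun a b ha hb =>
    noBack_N3a (fun i hi => ha.nonneg hi) (fun i hi => hb.nonneg hi)
      (ha.pos (by norm_num) (by decide)) (ha.zero (by norm_num) (by decide))
      (ha.zero (by norm_num) (by decide))
      (ha.pos (by norm_num) (by decide)) (ha.zero (by norm_num) (by decide))
      (hb.pos (by norm_num) (by decide)) (hb.pos (by norm_num) (by decide))
      (hb.zero (by norm_num) (by decide)) (hb.zero (by norm_num) (by decide))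

theorem esb_9_5 : ESB (caseOf 4 9 5) :=
  esb_of_noBack (by norm_num) (by norm_num) (by norm_num) (by norm_num) fun a b ha hb =>
    noBack_N3b (fun i hi => ha.nonneg hi) (fun i hi => hb.nonneg hi)
      (ha.pos (by norm_num) (by decide)) (ha.zero (by norm_num) (by decide))
      (ha.zero (by norm_num) (by decide))
      (ha.pos (by norm_num) (by decide)) (ha.zero (by norm_num) (by decide))
      (hb.pos (by norm_num) (by decide)) (hb.zero (by norm_num) (by decide))
      (hb.pos (by norm_num) (by decide)) (hb.zero (by norm_num) (by decide))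
      (hb.zero (by norm_num) (by decide))

theorem esb_T4a {N : ℕ} (hN : N = 10 ∨ N = 11 ∨ N = 14 ∨ N = 15) : ESB (caseOf 4 N 5) := by
  rcases hN with rfl | rfl | rfl | rfl <;>
  exact esb_of_noBack (by norm_num) (by norm_num) (by norm_num) (by norm_num) fun a b ha hb =>
    noBack_T4 (fun i hi => ha.nonneg hi) (fun i hi => hb.nonneg hi)
      (ha.pos (by norm_num) (by decide)) (ha.pos (by norm_num) (by decide))
      (ha.zero (by norm_num) (by decide))
      (hb.zero (by norm_num) (by decide)) (hb.pos (by norm_num) (by decide))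
      (hb.zero (by norm_num) (by decide)) (hb.zero (by norm_num) (by decide))
      (Or.inl (hb.pos (by norm_num) (by decide)))

theorem esb_T4b {N : ℕ} (hN : N = 14 ∨ N = 15) : ESB (caseOf 4 N 4) := by
  rcases hN with rfl | rfl <;>
  exact esb_of_noBack (by norm_num) (by norm_num) (by norm_num) (by norm_num) fun a b ha hb =>
    noBack_T4 (fun i hi => ha.nonneg hi) (fun i hi => hb.nonneg hi)
      (ha.pos (by norm_num) (by decide)) (ha.pos (by norm_num) (by decide))
      (ha.zero (by norm_num) (by decide))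
      (hb.zero (by norm_num) (by decide)) (hb.pos (by norm_num) (by decide))
      (hb.zero (by norm_num) (by decide)) (hb.zero (by norm_num) (by decide))
      (Or.inr (ha.pos (by norm_num) (by decide)))

end Pool.Agent.H50.Rdb
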