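import Pool.Agent.H50.Rdb.Data3
import Pool.Agent.H50.Rdb.Misc
import Pool.Agent.H81.RDE.Count

/-! # The exact count for the order three -/

set_option maxRecDepth 20000

namespace Pool.Agent.H50.Rdb

open Pool.Agent.H81.RDE

/-- A special case of order three is ESB if the same special case is ESB as an equation of order four:
if `x` is a solution of the order three equation then `0, x 0, x 1, …` is a solution of the other one. -/
theorem esb_three {N D : ℕ} (hN : N < 16) (hD : D < 16) (h : ESB (caseOf 4 N D)) :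
    ESB (caseOf 3 N D) := by
  intro P hP x hx
  have hN4 : N.testBit 4 = false := Nat.testBit_lt_two_pow (by omega)
  have hD4 : D.testBit 4 = false := Nat.testBit_lt_two_pow (by omega)
  obtain ⟨ha, hb, hA, hB⟩ := hP
  set Q : Params 4 := ⟨P.alpha, Fin.snoc (α := fun _ => ℝ) P.beta 0, P.A,
    Fin.snoc (α := fun _ => ℝ) P.B 0⟩ with hQ
  have hbel : Belongs (caseOf 4 N D) Q := by
    refine ⟨ha, fun i => ?_, hA, fun i => ?_⟩
    · refine Fin.lastCases ?_ (fun i => ?_) i
      · show Sign (N.testBit ((Fin.last 3 : ℕ) + 1)) (Fin.snoc (α := fun _ => ℝ) P.beta 0 (Fin.last 3))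
        rw [Fin.snoc_last]
        have : N.testBit ((Fin.last 3 : ℕ) + 1) = false := hN4
        rw [this]
        simp [Sign]
      · show Sign (N.testBit ((i.castSucc : ℕ) + 1)) (Fin.snoc (α := fun _ => ℝ) P.beta 0 i.castSucc)
        rw [Fin.snoc_castSucc]
        exact hb i
    · refine Fin.lastCases ?_ (fun i => ?_) i
      · show Sign (D.testBit ((Fin.last 3 : ℕ) + 1)) (Fin.snoc (α := fun _ => ℝ) P.B 0 (Fin.last 3))
        rw [Fin.snoc_last]
        have : D.testBit ((Fin.last 3 : ℕ) + 1) = false := hD4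
        rw [this]
        simp [Sign]
      · show Sign (D.testBit ((i.castSucc : ℕ) + 1)) (Fin.snoc (α := fun _ => ℝ) P.B 0 i.castSucc)
        rw [Fin.snoc_castSucc]
        exact hB i
  set y : ℕ → ℝ := fun n => Nat.casesOn n 0 x with hy
  have hys : ∀ n, y (n + 1) = x n := fun n => rfl
  have hsum : ∀ (c : Fin 3 → ℝ) (n : ℕ),
      ∑ i : Fin 4, Fin.snoc (α := fun _ => ℝ) c 0 i * y (n + 4 - 1 - i) =
        ∑ i : Fin 3, c i * x (n + 3 - 1 - i) := by
    intro c n
    rw [Fin.sum_univ_castSucc, Fin.snoc_last, zero_mul, add_zero]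
    refine Finset.sum_congr rfl fun i _ => ?_
    rw [Fin.snoc_castSucc]
    have e : n + 4 - 1 - (i.castSucc : ℕ) = (n + 3 - 1 - i) + 1 := by
      have := i.2
      rw [Fin.val_castSucc]
      omega
    rw [e, hys]
  have hsol : IsSolution Q y := by
    refine ⟨fun n hn => ?_, fun n => ?_⟩
    · rcases n with _ | n
      · exact le_rfl
      · exact hx.1 n (by omega)
    · obtain ⟨h1, h2⟩ := hx.2 n
      have e1 := hsum P.B n
      have e2 := hsum P.beta n
      refine ⟨?_, ?_⟩
      · show 0 < P.A + ∑ i : Fin 4, Fin.snoc (α := fun _ => ℝ) P.B 0 i * y (n + 4 - 1 - i)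
        rw [e1]
        exact h1
      · show y (n + 4) = (P.alpha + ∑ i : Fin 4, Fin.snoc (α := fun _ => ℝ) P.beta 0 i *
          y (n + 4 - 1 - i)) / (P.A + ∑ i : Fin 4, Fin.snoc (α := fun _ => ℝ) P.B 0 i *
          y (n + 4 - 1 - i))
        rw [e1, e2]
        exact h2
  obtain ⟨M, hM⟩ := h Q hbel y hsol
  exact ⟨M, fun n => hM (n + 1)⟩

/-- the certified cases -/
def data3 : List (ℕ × ℕ × T) := Data3.d0 ++ (Data3.d1 ++ (Data3.d2 ++ (Data3.d3 ++ (Data3.d4 ++
  (Data3.d5 ++ (Data3.d6 ++ (Data3.d7 ++ (Data3.d8 ++ (Data3.d9 ++ Data3.d10)))))))))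

theorem data3_ok : ∀ c ∈ data3, ok c.1 c.2.1 c.2.2 = true := by
  intro c hc
  simp only [data3, List.mem_append] at hc
  rcases hc with hc | hc | hc | hc | hc | hc | hc | hc | hc | hc | hc
  · exact List.all_eq_true.1 Data3.d0_ok c hc
  · exact List.all_eq_true.1 Data3.d1_ok c hc
  · exact List.all_eq_true.1 Data3.d2_ok c hc
  · exact List.all_eq_true.1 Data3.d3_ok c hc
  · exact List.all_eq_true.1 Data3.d4_ok c hc
  · exact List.all_eq_true.1 Data3.d5_ok c hc
  · exact List.all_eq_true.1 Data3.d6_ok c hc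
  · exact List.all_eq_true.1 Data3.d7_ok c hc
  · exact List.all_eq_true.1 Data3.d8_ok c hc
  · exact List.all_eq_true.1 Data3.d9_ok c hc
  · exact List.all_eq_true.1 Data3.d10_ok c hc

/-- the cases proved by the other arguments -/
def special3 : List (ℕ × ℕ) := [(1, 2), (1, 4), (1, 6), (1, 8), (1, 10), (1, 12), (1, 14), (2, 4), (3, 4),
  (9, 3), (9, 5), (10, 2), (10, 3), (11, 2), (11, 3), (12, 4), (12, 5), (13, 4), (13, 5),
  (10, 5), (11, 5), (14, 5), (15, 5), (14, 4), (15, 4)]

theorem special3_esb : ∀ p ∈ special3, ESB (caseOf 4 p.1 p.2) := by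
  intro p hp
  simp only [special3, List.mem_cons, List.not_mem_nil, or_false] at hp
  rcases hp with rfl | rfl | rfl | rfl | rfl | rfl | rfl | rfl | rfl | rfl | rfl | rfl | rfl | rfl |
    rfl | rfl | rfl | rfl | rfl | rfl | rfl | rfl | rfl | rfl | rfl
  · exact esb_const (by norm_num) (by norm_num) (by decide)
  · exact esb_const (by norm_num) (by norm_num) (by decide)
  · exact esb_const (by norm_num) (by norm_num) (by decide)
  · exact esb_const (by norm_num) (by norm_num) (by decide)
  · exact esb_const (by norm_num) (by norm_num) (by decide)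
  · exact esb_const (by norm_num) (by norm_num) (by decide)
  · exact esb_const (by norm_num) (by norm_num) (by decide)
  · exact esb_2_4
  · exact esb_3_4
  · exact esb_N3a (Or.inl rfl)
  · exact esb_9_5
  · exact esb_F1 (Or.inl rfl) (Or.inl rfl)
  · exact esb_F1 (Or.inl rfl) (Or.inr rfl)
  · exact esb_F1 (Or.inr rfl) (Or.inl rfl)
  · exact esb_F1 (Or.inr rfl) (Or.inr rfl)
  · exact esb_F2 (Or.inl rfl) (Or.inl rfl)
  · exact esb_F2 (Or.inl rfl) (Or.inr rfl)
  · exact esb_F2 (Or.inr rfl) (Or.inl rfl)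
  · exact esb_F2 (Or.inr rfl) (Or.inr rfl)
  · exact esb_T4a (Or.inl rfl)
  · exact esb_T4a (Or.inr (Or.inl rfl))
  · exact esb_T4a (Or.inr (Or.inr (Or.inl rfl)))
  · exact esb_T4a (Or.inr (Or.inr (Or.inr rfl)))
  · exact esb_T4b (Or.inl rfl)
  · exact esb_T4b (Or.inr rfl)

/-- all bounded special cases of order three -/
def bounded3 : List (ℕ × ℕ) := (data3.map fun c => (c.1, c.2.1)) ++ special3

theorem bounded3_length : bounded3.length = 135 := by decide +kernel

theorem bounded3_nodup : bounded3.Nodup := by decide +kernel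

theorem bounded3_lt : ∀ p ∈ bounded3, 1 ≤ p.1 ∧ p.1 < 16 ∧ 1 ≤ p.2 ∧ p.2 < 16 := by decide +kernel

theorem bounded3_esb : ∀ p ∈ bounded3, ESB (caseOf 3 p.1 p.2) := by
  intro p hp
  obtain ⟨-, h1, -, h2⟩ := bounded3_lt p hp
  refine esb_three h1 h2 ?_
  rcases List.mem_append.1 hp with hp | hp
  · obtain ⟨c, hc, rfl⟩ := List.mem_map.1 hp
    exact esb_of_ok (data3_ok c hc)
  · exact special3_esb p hp

/-- a lower bound for the number of ESB cases from a list of masks -/
theorem card_ge_esb {k : ℕ} {l : List (ℕ × ℕ)} (hl : l.Nodup)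
    (hlt : ∀ p ∈ l, 1 ≤ p.1 ∧ p.1 < 2 ^ (k + 1) ∧ 1 ≤ p.2 ∧ p.2 < 2 ^ (k + 1))
    (h : ∀ p ∈ l, ESB (caseOf k p.1 p.2)) :
    l.length ≤ Nat.card {S : SpecialCase k // Admissible S ∧ ESB S} := by
  classical
  have hinj : Function.Injective (fun i : Fin l.length =>
      (⟨caseOf k (l.get i).1 (l.get i).2, by
        obtain ⟨a, b, c, d⟩ := hlt _ (l.get_mem i)
        exact ⟨admissible_caseOf b d a c, h _ (l.get_mem i)⟩⟩ :
        {S : SpecialCase k // Admissible S ∧ ESB S})) := by
    intro i j hij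
    have hij' := congrArg Subtype.val hij
    obtain ⟨a, b, c, d⟩ := hlt _ (l.get_mem i)
    obtain ⟨a', b', c', d'⟩ := hlt _ (l.get_mem j)
    have := caseOf_inj b d b' d' hij'
    exact (List.nodup_iff_injective_get.1 hl) (Prod.ext this.1 this.2)
  have := Nat.card_le_card_of_injective _ hinj
  simpa using this

/-- **The exact count for the order three.** -/
theorem count3 : Nat.card {S : SpecialCase 3 // Admissible S ∧ ESB S} = 135 ∧
    Nat.card {S : SpecialCase 3 // Admissible S ∧ ¬ ESB S} = 90 := by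
  have h1 := card_ge_esb (k := 3) bounded3_nodup (fun p hp => bounded3_lt p hp) bounded3_esb
  rw [bounded3_length] at h1
  have h2 := counts.2
  have s3 := card_split 3
  norm_num at s3
  omega

end Pool.Agent.H50.Rdb
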