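import Pool.Agent.H50.Rdb.Check

/-! # Certificates for the special cases of order three (110 cases) -/

set_option maxRecDepth 20000

namespace Pool.Agent.H50.Rdb.Data3

open Pool.Agent.H50.Rdb

def d0 : List (ℕ × ℕ × T) := [
  (1, 1, (.keep [] (.node (.cons (.leaf 1 []) .nil)))),
  (1, 3, (.keep [] (.node (.cons (.leaf 1 []) (.cons (.leaf 1 [(2,1)]) .nil))))),
  (1, 5, (.keep [] (.node (.cons (.leaf 1 []) (.cons (.leaf 1 [(2,1)]) .nil))))),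
  (1, 7, (.keep [] (.node (.cons (.leaf 1 []) (.cons (.leaf 1 [(2,1)]) (.cons (.leaf 1 [(2,1)]) .nil)))))),
  (1, 9, (.keep [] (.node (.cons (.leaf 1 []) (.cons (.leaf 1 [(2,1)]) .nil))))),
  (1, 11, (.keep [] (.node (.cons (.leaf 1 []) (.cons (.leaf 1 [(2,1)]) (.cons (.leaf 1 [(2,1)]) .nil)))))),
  (1, 13, (.keep [] (.node (.cons (.leaf 1 []) (.cons (.leaf 1 [(2,1)]) (.cons (.leaf 1 [(2,1)]) .nil)))))),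
  (1, 15, (.keep [] (.node (.cons (.leaf 1 []) (.cons (.leaf 1 [(2,1)]) (.cons (.leaf 1 [(2,1)]) (.cons (.leaf 1 [(2,1)]) .nil))))))),
  (2, 2, (.keep [] (.node (.cons (.leaf 1 []) .nil)))),
  (2, 3, (.keep [] (.node (.cons (.leaf 1 [(3,1)]) (.cons (.leaf 1 []) .nil)))))]

theorem d0_ok : (d0.all fun c => ok c.1 c.2.1 c.2.2) = true := by decide +kernel

def d1 : List (ℕ × ℕ × T) := [
  (2, 5, (.keep [] (.node (.cons (.keep [3] (.node (.cons (.leaf 1 [(4,1)]) (.cons (.leaf 1 [(4,1),(2,1)]) .nil)))) (.cons (.keep [] (.node (.cons (.leaf 1 []) (.cons (.leaf 1 [(2,1)]) .nil)))) .nil))))),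
  (2, 6, (.keep [] (.node (.cons (.leaf 1 []) (.cons (.leaf 1 [(2,1)]) .nil))))),
  (2, 7, (.keep [] (.node (.cons (.leaf 1 [(3,1)]) (.cons (.leaf 1 []) (.cons (.leaf 1 [(3,1)]) .nil)))))),
  (2, 9, (.keep [] (.node (.cons (.keep [3] (.node (.cons (.keep [4] (.node (.cons (.leaf 1 [(4,1)]) (.cons (.leaf 1 [(4,1),(2,1)]) .nil)))) (.cons (.keep [2,4] (.node (.cons (.leaf 1 [(5,1),(4,1)]) (.cons (.leaf 1 [(5,1),(4,1),(2,1)]) .nil)))) .nil)))) (.cons (.keep [] (.node (.cons (.keep [] (.node (.cons (.leaf 1 []) (.cons (.leaf 1 [(2,1)]) .nil)))) (.cons (.keep [2] (.node (.cons (.leaf 1 [(4,1)]) (.cons (.leaf 1 [(4,1),(2,1)]) .nil)))) .nil)))) .nil))))),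
  (2, 10, (.keep [] (.node (.cons (.leaf 1 []) (.cons (.leaf 1 [(2,1)]) .nil))))),
  (2, 11, (.keep [] (.node (.cons (.leaf 1 [(3,1)]) (.cons (.leaf 1 []) (.cons (.leaf 1 [(3,1)]) .nil)))))),
  (2, 13, (.keep [] (.node (.cons (.keep [3] (.node (.cons (.leaf 1 [(5,1)]) (.cons (.leaf 1 [(5,1),(2,1)]) (.cons (.leaf 1 [(5,1),(2,1)]) .nil))))) (.cons (.keep [] (.node (.cons (.leaf 1 []) (.cons (.leaf 1 [(2,1)]) (.cons (.leaf 1 [(2,1)]) .nil))))) (.cons (.keep [3] (.node (.cons (.leaf 1 [(5,1)]) (.cons (.leaf 1 [(5,1),(2,1)]) (.cons (.leaf 1 [(5,1),(2,1)]) .nil))))) .nil)))))),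
  (2, 14, (.keep [] (.node (.cons (.leaf 1 []) (.cons (.leaf 1 [(2,1)]) (.cons (.leaf 1 [(2,1)]) .nil)))))),
  (2, 15, (.keep [] (.node (.cons (.leaf 1 [(3,1)]) (.cons (.leaf 1 []) (.cons (.leaf 1 [(3,1)]) (.cons (.leaf 1 [(3,1)]) .nil))))))),
  (3, 2, (.keep [] (.node (.cons (.keep [] (.node (.cons (.leaf 1 [(2,1)]) (.cons (.leaf 1 []) .nil)))) (.cons (.leaf 1 []) .nil)))))]

theorem d1_ok : (d1.all fun c => ok c.1 c.2.1 c.2.2) = true := by decide +kernel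

def d2 : List (ℕ × ℕ × T) := [
  (3, 3, (.keep [] (.node (.cons (.leaf 1 []) (.cons (.leaf 1 [(3,1)]) (.cons (.leaf 1 [(4,1)]) (.cons (.leaf 1 []) .nil))))))),
  (3, 5, (.keep [] (.node (.cons (.leaf 1 []) (.cons (.leaf 1 [(3,1)]) (.cons (.keep [4] (.node (.cons (.leaf 1 []) (.cons (.leaf 1 [(3,1)]) (.cons (.leaf 1 [(5,1)]) (.cons (.leaf 1 [(5,1),(3,1)]) .nil)))))) (.cons (.keep [3] (.node (.cons (.leaf 1 [(5,1)]) (.cons (.leaf 1 [(5,1),(3,1)]) (.cons (.leaf 1 []) (.cons (.leaf 1 [(3,1)]) .nil)))))) .nil))))))),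
  (3, 6, (.keep [] (.node (.cons (.keep [0,4] (.node (.cons (.leaf 1 [(2,1)]) (.cons (.keep [5,6] (.node (.cons (.leaf 1 [(2,1)]) (.cons (.leaf 1 [(2,1)]) (.cons (.leaf 1 [(6,1)]) (.cons (.leaf 1 [(5,1),(6,1)]) .nil)))))) (.cons (.leaf 1 []) (.cons (.leaf 1 [(1,1),(6,1)]) .nil)))))) (.cons (.keep [0,2,3] (.node (.cons (.leaf 1 [(6,1)]) (.cons (.keep [5,7] (.node (.cons (.leaf 1 [(2,1)]) (.cons (.leaf 1 [(6,1),(2,1)]) (.cons (.leaf 1 []) (.cons (.leaf 1 [(6,1),(5,1)]) .nil)))))) (.cons (.leaf 1 [(1,1)]) (.cons (.leaf 1 [(1,1)]) .nil)))))) (.cons (.leaf 1 []) (.cons (.leaf 1 [(3,1)]) .nil))))))),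
  (3, 7, (.keep [] (.node (.cons (.leaf 1 []) (.cons (.leaf 1 [(3,1)]) (.cons (.leaf 1 [(3,1)]) (.cons (.leaf 1 [(4,1)]) (.cons (.leaf 1 []) (.cons (.leaf 1 [(4,1)]) .nil))))))))),
  (3, 9, (.keep [] (.node (.cons (.leaf 1 []) (.cons (.leaf 1 [(3,1)]) (.cons (.keep [4] (.node (.cons (.leaf 1 []) (.cons (.leaf 1 [(3,1)]) (.cons (.keep [5] (.node (.cons (.leaf 1 []) (.cons (.leaf 1 [(3,1)]) (.cons (.leaf 1 [(5,1)]) (.cons (.leaf 1 [(5,1),(3,1)]) .nil)))))) (.cons (.keep [3,5] (.node (.cons (.leaf 1 [(5,1)]) (.cons (.leaf 1 [(5,1),(3,1)]) (.cons (.leaf 1 [(6,1),(5,1)]) (.cons (.leaf 1 [(6,1),(5,1),(3,1)]) .nil)))))) .nil)))))) (.cons (.keep [3] (.node (.cons (.leaf 1 [(5,1)]) (.cons (.leaf 1 [(5,1),(3,1)]) (.cons (.keep [5] (.node (.cons (.leaf 1 [(5,1)]) (.cons (.leaf 1 [(5,1),(3,1)]) (.cons (.leaf 1 [])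 (.cons (.leaf 1 [(3,1)]) .nil)))))) (.cons (.keep [3,5] (.node (.cons (.leaf 1 [(6,1),(5,1)]) (.cons (.leaf 1 [(6,1),(5,1),(3,1)]) (.cons (.leaf 1 [(5,1)]) (.cons (.leaf 1 [(5,1),(3,1)]) .nil)))))) .nil)))))) .nil))))))),
  (3, 10, (.keep [] (.node (.cons (.keep [0,4] (.node (.cons (.leaf 1 [(2,1)]) (.cons (.keep [2,6] (.node (.cons (.leaf 1 [(5,1),(6,1)]) (.cons (.keep [0,6] (.node (.cons (.leaf 1 [(2,1)]) (.cons (.leaf 1 [(2,1)]) (.cons (.leaf 1 [(6,1)]) (.cons (.leaf 1 [(5,1),(6,1)]) .nil)))))) (.cons (.leaf 1 [(1,1),(6,1)]) (.cons (.leaf 1 [(1,1),(6,1)]) .nil)))))) (.cons (.leaf 1 []) (.cons (.keep [1,5,6] (.node (.cons (.leaf 1 [(7,1),(6,1)]) (.cons (.keep [0,5,7] (.node (.cons (.leaf 1 [(2,1),(6,1)]) (.cons (.leaf 1 [(2,1),(6,1)]) (.cons (.leaf 1 [(7,1)]) (.cons (.leaf 1 [(5,1),(6,1),(7,1)]) .nil))))))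 (.cons (.leaf 1 [(1,1),(7,1)]) (.cons (.leaf 1 [(1,1),(7,1)]) .nil)))))) .nil)))))) (.cons (.keep [0,3] (.node (.cons (.leaf 1 [(6,1),(2,1)]) (.cons (.keep [2,6] (.node (.cons (.leaf 1 [(5,1)]) (.cons (.keep [0,6] (.node (.cons (.leaf 1 [(2,1)]) (.cons (.leaf 1 [(2,1),(6,1)]) (.cons (.leaf 1 []) (.cons (.leaf 1 [(6,1),(5,1)]) .nil)))))) (.cons (.leaf 1 [(1,1)]) (.cons (.leaf 1 [(1,1)]) .nil)))))) (.cons (.leaf 1 [(6,1)]) (.cons (.keep [1,5,6] (.node (.cons (.leaf 1 [(6,1),(7,1)]) (.cons (.keep [0,5,7] (.node (.cons (.leaf 1 [(2,1)]) (.cons (.leaf 1 [(7,1),(2,1),(6,1)]) (.cons (.leaf 1 []) (.cons (.leaf 1 [(6,1),(7,1),(5,1)]) .nil)))))) (.cons (.leaf 1 [(1,1)]) (.cons (.leaf 1 [(1,1)]) .nil)))))) .nil)))))) (.cons (.leaf 1 []) (.cons (.leaf 1 [(3,1)]) .nil))))))),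
  (3, 11, (.keep [] (.node (.cons (.leaf 1 []) (.cons (.leaf 1 [(3,1)]) (.cons (.leaf 1 [(3,1)]) (.cons (.leaf 1 [(4,1)]) (.cons (.leaf 1 []) (.cons (.leaf 1 [(4,1)]) .nil))))))))),
  (3, 13, (.keep [] (.node (.cons (.leaf 1 []) (.cons (.leaf 1 [(3,1)]) (.cons (.leaf 1 [(3,1)]) (.cons (.keep [4] (.node (.cons (.leaf 1 []) (.cons (.leaf 1 [(3,1)]) (.cons (.leaf 1 [(3,1)]) (.cons (.leaf 1 [(6,1)]) (.cons (.leaf 1 [(6,1),(3,1)]) (.cons (.leaf 1 [(6,1),(3,1)]) .nil)))))))) (.cons (.keep [3] (.node (.cons (.leaf 1 [(6,1)]) (.cons (.leaf 1 [(6,1),(3,1)]) (.cons (.leaf 1 [(6,1),(3,1)]) (.cons (.leaf 1 []) (.cons (.leaf 1 [(3,1)]) (.cons (.leaf 1 [(3,1)]) .nil)))))))) (.cons (.keep [3,4] (.node (.cons (.leaf 1 [(6,1)]) (.cons (.leaf 1 [(3,2)]) (.cons (.leaf 1 [(6,1),(3,1)]) (.cons (.leaf 1 [(7,1)]) (.cons (.leaf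 1 [(7,2),(1,1)]) (.cons (.leaf 1 [(7,1),(3,1)]) .nil)))))))) .nil))))))))),
  (3, 14, (.keep [] (.node (.cons (.keep [4,5] (.node (.cons (.leaf 1 [(2,1)]) (.cons (.leaf 2 [(7,1)]) (.cons (.keep [0,7] (.node (.cons (.leaf 2 [(4,1),(7,1)]) (.cons (.keep [0,5,7] (.node (.cons (.leaf 1 [(2,1)]) (.cons (.leaf 1 [(2,1)]) (.cons (.leaf 1 [(2,1)]) (.cons (.leaf 1 [(8,1)]) (.cons (.leaf 1 [(7,1),(8,1)]) (.cons (.leaf 1 [(6,1),(8,1)]) .nil)))))))) (.cons (.keep [0,6,7] (.node (.cons (.leaf 1 [(2,1)]) (.cons (.leaf 1 [(2,1)]) (.cons (.leaf 1 [(2,1)]) (.cons (.leaf 1 [(8,1)]) (.cons (.leaf 1 [(7,1),(8,1)]) (.cons (.leaf 1 [(6,1),(8,1)]) .nil)))))))) (.cons (.leaf 2 [(4,1),(7,1)]) (.cons (.leaf 1 [(1,1),(7,1)]) (.cons (.leaf 1 [(1,1),(7,1)]) .nil)))))))) (.cons (.leaf 1 []) (.cons (.leaf 2 [(1,1),(7,1)]) (.cons (.leaf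 1 [(1,1),(6,1)]) .nil)))))))) (.cons (.keep [2,3,5] (.node (.cons (.leaf 1 [(6,1)]) (.cons (.leaf 2 [(8,1),(7,1)]) (.cons (.keep [7,8] (.node (.cons (.leaf 1 [(2,1)]) (.cons (.keep [0,5,7] (.node (.cons (.leaf 1 [(2,1)]) (.cons (.leaf 1 [(2,1)]) (.cons (.leaf 1 [(2,1)]) (.cons (.leaf 1 [(8,1)]) (.cons (.leaf 1 [(7,1),(8,1)]) (.cons (.leaf 1 [(6,1),(8,1)]) .nil)))))))) (.cons (.keep [0,6,7] (.node (.cons (.leaf 1 [(4,1),(2,1)]) (.cons (.leaf 1 [(7,1),(2,1)]) (.cons (.leaf 1 [(7,1),(2,1)]) (.cons (.leaf 1 [(8,1)]) (.cons (.leaf 1 [(7,1),(8,1)]) (.cons (.leaf 1 [(7,1),(6,1),(8,1)]) .nil)))))))) (.cons (.leaf 1 []) (.cons (.leaf 1 [(1,1),(7,1)]) (.cons (.leaf 1 [(1,1),(7,1)]) .nil)))))))) (.cons (.leaf 1 [(1,1)]) (.cons (.leaf 1 [(1,1)]) (.cons (.leaf 1 [(1,1)]) .nil)))))))) (.cons (.keep [2,3,4] (.node (.cons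 (.leaf 2 [(7,1),(8,1)]) (.cons (.leaf 1 [(6,1)]) (.cons (.keep [0,3,7] (.node (.cons (.leaf 2 [(4,1),(7,1)]) (.cons (.keep [0,5,8] (.node (.cons (.leaf 1 [(2,1)]) (.cons (.leaf 1 [(7,1),(2,1)]) (.cons (.leaf 1 [(8,1),(2,1)]) (.cons (.leaf 1 []) (.cons (.leaf 1 [(7,1)]) (.cons (.leaf 1 [(8,1),(6,1)]) .nil)))))))) (.cons (.keep [0,6,8] (.node (.cons (.leaf 1 [(2,1)]) (.cons (.leaf 1 [(8,1),(2,1)]) (.cons (.leaf 1 [(8,1),(2,1)]) (.cons (.leaf 1 []) (.cons (.leaf 1 [(8,1),(7,1)]) (.cons (.leaf 1 [(8,1),(6,1)]) .nil)))))))) (.cons (.leaf 2 [(4,1),(8,1)]) (.cons (.leaf 1 [(1,1)]) (.cons (.leaf 1 [(1,1)]) .nil)))))))) (.cons (.leaf 1 [(7,1)]) (.cons (.leaf 1 [(1,1),(3,1)]) (.cons (.leaf 1 [(1,1),(8,1)]) .nil)))))))) (.cons (.leaf 1 []) (.cons (.leaf 1 [(3,1)]) (.cons (.leaf 1 [(3,1)]) .nil))))))))),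
  (3, 15, (.keep [] (.node (.cons (.leaf 1 []) (.cons (.leaf 1 [(3,1)]) (.cons (.leaf 1 [(3,1)]) (.cons (.leaf 1 [(3,1)]) (.cons (.leaf 1 [(4,1)]) (.cons (.leaf 1 []) (.cons (.leaf 1 [(4,1)]) (.cons (.leaf 1 [(4,1)]) .nil)))))))))))]

theorem d2_ok : (d2.all fun c => ok c.1 c.2.1 c.2.2) = true := by decide +kernel

def d3 : List (ℕ × ℕ × T) := [
  (4, 4, (.keep [] (.node (.cons (.leaf 1 []) .nil)))),
  (4, 5, (.keep [] (.node (.cons (.leaf 1 [(3,1)]) (.cons (.leaf 1 []) .nil))))),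
  (4, 6, (.keep [] (.node (.cons (.leaf 1 [(3,1)]) (.cons (.leaf 1 []) .nil))))),
  (4, 7, (.keep [] (.node (.cons (.leaf 1 [(4,1)]) (.cons (.leaf 1 [(4,1)]) (.cons (.leaf 1 []) .nil)))))),
  (4, 12, (.keep [] (.node (.cons (.leaf 1 []) (.cons (.leaf 1 [(2,1)]) .nil))))),
  (4, 13, (.keep [] (.node (.cons (.leaf 1 [(3,1)]) (.cons (.leaf 1 []) (.cons (.leaf 1 [(3,1)]) .nil)))))),
  (4, 14, (.keep [] (.node (.cons (.leaf 1 [(3,1)]) (.cons (.leaf 1 []) (.cons (.leaf 1 [(3,1)]) .nil)))))),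
  (4, 15, (.keep [] (.node (.cons (.leaf 1 [(4,1)]) (.cons (.leaf 1 [(4,1)]) (.cons (.leaf 1 []) (.cons (.leaf 1 [(4,1)]) .nil))))))),
  (5, 4, (.keep [] (.node (.cons (.keep [] (.node (.cons (.keep [] (.node (.cons (.leaf 1 [(2,1)]) (.cons (.leaf 1 []) .nil)))) (.cons (.keep [] (.node (.cons (.leaf 1 [(2,1)]) (.cons (.leaf 1 []) .nil)))) .nil)))) (.cons (.leaf 1 []) .nil))))),
  (5, 5, (.keep [] (.node (.cons (.leaf 1 []) (.cons (.leaf 1 [(3,1)]) (.cons (.leaf 1 [(4,1)]) (.cons (.leaf 1 []) .nil)))))))]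

theorem d3_ok : (d3.all fun c => ok c.1 c.2.1 c.2.2) = true := by decide +kernel

def d4 : List (ℕ × ℕ × T) := [
  (5, 6, (.keep [] (.node (.cons (.keep [2,4] (.node (.cons (.leaf 1 [(5,1)]) (.cons (.leaf 1 [(2,1)]) (.cons (.leaf 2 [(6,1),(1,1)]) (.cons (.leaf 1 []) .nil)))))) (.cons (.keep [3] (.node (.cons (.leaf 2 [(5,1)]) (.cons (.leaf 1 [(2,1),(5,1)]) (.cons (.leaf 1 [(4,1),(1,1)]) (.cons (.leaf 1 [(5,1)]) .nil)))))) (.cons (.leaf 1 [(4,1)]) (.cons (.leaf 1 []) .nil))))))),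
  (5, 7, (.keep [] (.node (.cons (.leaf 1 []) (.cons (.leaf 1 [(3,1)]) (.cons (.leaf 1 [(3,1)]) (.cons (.leaf 1 [(5,1)]) (.cons (.leaf 1 [(5,1)]) (.cons (.leaf 1 []) .nil))))))))),
  (5, 12, (.keep [] (.node (.cons (.keep [4] (.node (.cons (.keep [4,5] (.node (.cons (.leaf 2 [(5,1),(6,1)]) (.cons (.keep [0,6] (.node (.cons (.leaf 1 [(2,1)]) (.cons (.leaf 1 [(2,1)]) (.cons (.leaf 1 [(6,1)]) (.cons (.leaf 1 [(5,1),(6,1)]) .nil)))))) (.cons (.leaf 1 []) (.cons (.leaf 1 [(5,1),(1,1),(6,1)]) .nil)))))) (.cons (.keep [5] (.node (.cons (.leaf 1 [(2,1)]) (.cons (.keep [0,5] (.node (.cons (.leaf 1 [(2,1)]) (.cons (.leaf 1 [(2,1)]) (.cons (.leaf 1 [(6,1)]) (.cons (.leaf 1 [(5,1),(6,1)]) .nil)))))) (.cons (.leaf 1 []) (.cons (.keep [0,1,5] (.node (.cons (.leaf 1 [(6,1),(2,1)]) (.cons (.leaf 1 [(6,1),(2,1)]) (.cons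 (.leaf 1 [(7,1)]) (.cons (.leaf 1 [(6,1),(5,1),(7,1)]) .nil)))))) .nil)))))) (.cons (.leaf 1 [(5,1),(1,1)]) (.cons (.leaf 1 [(5,1),(1,1)]) .nil)))))) (.cons (.keep [3] (.node (.cons (.keep [4,5] (.node (.cons (.leaf 2 [(5,1),(6,1)]) (.cons (.keep [0,6] (.node (.cons (.leaf 1 [(2,1)]) (.cons (.leaf 1 [(6,1),(2,1)]) (.cons (.leaf 1 []) (.cons (.leaf 1 [(6,1),(5,1)]) .nil)))))) (.cons (.leaf 1 [(5,1),(1,1)]) (.cons (.leaf 1 [(5,1),(1,1)]) .nil)))))) (.cons (.keep [5] (.node (.cons (.leaf 1 [(2,1),(5,1)]) (.cons (.keep [0,5] (.node (.cons (.leaf 1 [(2,1)]) (.cons (.leaf 1 [(6,1),(2,1)]) (.cons (.leaf 1 []) (.cons (.leaf 1 [(6,1),(5,1)]) .nil)))))) (.cons (.leaf 1 [(5,1)]) (.cons (.keep [0,1,5] (.node (.cons (.leaf 1 [(2,1)]) (.cons (.leaf 1 [(6,1),(7,1),(2,1)]) (.cons (.leaf 1 []) (.cons (.leaf 1 [(6,1),(7,1),(5,1)])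 .nil)))))) .nil)))))) (.cons (.leaf 1 [(1,1)]) (.cons (.leaf 1 [(1,1)]) .nil)))))) (.cons (.leaf 1 []) (.cons (.leaf 1 [(3,1)]) .nil))))))),
  (5, 13, (.keep [] (.node (.cons (.leaf 1 []) (.cons (.leaf 1 [(3,1)]) (.cons (.leaf 1 [(3,1)]) (.cons (.leaf 1 [(4,1)]) (.cons (.leaf 1 []) (.cons (.leaf 1 [(4,1)]) .nil))))))))),
  (5, 14, (.keep [] (.node (.cons (.keep [2,4,5] (.node (.cons (.leaf 1 [(6,1)]) (.cons (.leaf 1 [(2,1)]) (.cons (.keep [0,7,8] (.node (.cons (.leaf 2 [(4,1),(8,1)]) (.cons (.leaf 1 [(2,1)]) (.cons (.leaf 1 [(2,1)]) (.cons (.leaf 2 [(4,1),(8,1)]) (.cons (.leaf 1 [(7,1)]) (.cons (.leaf 1 [(6,1),(7,1)]) .nil)))))))) (.cons (.leaf 2 [(7,1),(1,1)]) (.cons (.leaf 1 []) (.cons (.leaf 1 [(1,1),(8,1)]) .nil)))))))) (.cons (.keep [3,5] (.node (.cons (.leaf 2 [(6,1)]) (.cons (.leaf 2 [(7,1),(6,1)])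 (.cons (.keep [0,4,6] (.node (.cons (.leaf 1 [(2,1),(7,1)]) (.cons (.leaf 1 [(2,1)]) (.cons (.leaf 1 [(8,1),(2,1)]) (.cons (.leaf 1 [(7,1)]) (.cons (.leaf 1 []) (.cons (.leaf 1 [(8,1),(6,1)]) .nil)))))))) (.cons (.leaf 1 [(4,1),(1,1)]) (.cons (.leaf 1 [(6,1)]) (.cons (.leaf 1 [(7,1),(1,1)]) .nil)))))))) (.cons (.keep [3,4] (.node (.cons (.leaf 2 [(6,1),(7,1)]) (.cons (.leaf 2 [(6,1)]) (.cons (.keep [0,3,6,7] (.node (.cons (.leaf 2 [(4,1),(7,1)]) (.cons (.leaf 1 [(2,1),(8,1)]) (.cons (.leaf 1 [(2,1),(8,1)]) (.cons (.leaf 2 [(4,1),(8,1)]) (.cons (.leaf 1 [(9,1)]) (.cons (.leaf 1 [(6,1),(8,1),(9,1)]) .nil)))))))) (.cons (.leaf 1 [(1,1)]) (.cons (.leaf 1 [(1,1)]) (.cons (.leaf 1 [(1,1)]) .nil)))))))) (.cons (.leaf 1 [(4,1)]) (.cons (.leaf 1 []) (.cons (.leaf 1 [(4,1)]) .nil))))))))),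
  (5, 15, (.keep [] (.node (.cons (.leaf 1 []) (.cons (.leaf 1 [(3,1)]) (.cons (.leaf 1 [(3,1)]) (.cons (.leaf 1 [(3,1)]) (.cons (.leaf 1 [(5,1)]) (.cons (.leaf 1 [(5,1)]) (.cons (.leaf 1 []) (.cons (.leaf 1 [(5,1)]) .nil))))))))))),
  (6, 4, (.keep [] (.node (.cons (.keep [] (.node (.cons (.keep [] (.node (.cons (.keep [] (.node (.cons (.leaf 1 [(2,1)]) (.cons (.leaf 1 []) .nil)))) (.cons (.keep [] (.node (.cons (.leaf 1 [(2,1)]) (.cons (.leaf 1 []) .nil)))) .nil)))) (.cons (.keep [] (.node (.cons (.leaf 1 [(2,1)]) (.cons (.leaf 1 []) .nil)))) .nil)))) (.cons (.leaf 1 []) .nil))))),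
  (6, 5, (.keep [] (.node (.cons (.keep [4] (.node (.cons (.leaf 1 [(5,1)]) (.cons (.leaf 1 [(5,1),(3,1)]) (.cons (.leaf 1 [(4,1)]) (.cons (.leaf 1 []) .nil)))))) (.cons (.keep [3] (.node (.cons (.leaf 1 []) (.cons (.leaf 1 [(3,1)]) (.cons (.leaf 1 [(5,1),(4,1)]) (.cons (.leaf 1 [(5,1)]) .nil)))))) (.cons (.leaf 1 [(4,1)]) (.cons (.leaf 1 []) .nil))))))),
  (6, 6, (.keep [] (.node (.cons (.leaf 1 []) (.cons (.leaf 1 [(3,1)]) (.cons (.leaf 1 [(4,1)]) (.cons (.leaf 1 []) .nil))))))),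
  (6, 7, (.keep [] (.node (.cons (.leaf 1 [(4,1)]) (.cons (.leaf 1 []) (.cons (.leaf 1 [(4,1)]) (.cons (.leaf 1 [(5,1)]) (.cons (.leaf 1 [(5,1)]) (.cons (.leaf 1 []) .nil)))))))))]

theorem d4_ok : (d4.all fun c => ok c.1 c.2.1 c.2.2) = true := by decide +kernel

def d5 : List (ℕ × ℕ × T) := [
  (6, 12, (.keep [] (.node (.cons (.keep [4] (.node (.cons (.keep [4] (.node (.cons (.keep [2] (.node (.cons (.leaf 1 [(2,1)]) (.cons (.keep [2,5] (.node (.cons (.leaf 1 [(2,1),(5,1)]) (.cons (.leaf 1 [(2,1),(5,1)]) (.cons (.leaf 1 [(6,1)]) (.cons (.keep [0,5,6] (.node (.cons (.leaf 1 [(2,1),(7,1)]) (.cons (.leaf 1 [(2,1),(7,1)]) (.cons (.leaf 1 [(6,1),(7,1)]) (.cons (.leaf 1 [(6,1),(5,1),(7,1)]) .nil)))))) .nil)))))) (.cons (.leaf 1 []) (.cons (.keep [0,5] (.node (.cons (.leaf 1 [(2,1)]) (.cons (.leaf 1 [(2,1)])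 (.cons (.leaf 1 [(6,1)]) (.cons (.keep [0,5,6] (.node (.cons (.leaf 1 [(2,1),(7,1)]) (.cons (.leaf 1 [(2,1),(7,1)]) (.cons (.leaf 1 [(6,1),(7,1)]) (.cons (.leaf 1 [(7,1),(5,1)]) .nil)))))) .nil)))))) .nil)))))) (.cons (.keep [2] (.node (.cons (.leaf 1 [(2,1)]) (.cons (.keep [2,5] (.node (.cons (.leaf 1 [(2,1),(5,1)]) (.cons (.leaf 1 [(2,1),(5,1)]) (.cons (.leaf 1 [(6,1)]) (.cons (.keep [0,5,6] (.node (.cons (.leaf 1 [(2,1),(7,1)]) (.cons (.leaf 1 [(2,1),(7,1)]) (.cons (.leaf 1 [(6,1),(7,1)]) (.cons (.leaf 1 [(6,1),(5,1),(7,1)]) .nil)))))) .nil)))))) (.cons (.leaf 1 []) (.cons (.keep [0,5] (.node (.cons (.leaf 1 [(2,1)]) (.cons (.leaf 1 [(2,1)]) (.cons (.leaf 1 [(6,1)]) (.cons (.keep [0,5,6] (.node (.cons (.leaf 1 [(2,1),(7,1)]) (.cons (.leaf 1 [(2,1),(7,1)]) (.cons (.leaf 1 [(6,1),(7,1)]) (.cons (.leaf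 1 [(7,1),(5,1)]) .nil)))))) .nil)))))) .nil)))))) (.cons (.keep [5] (.node (.cons (.leaf 1 [(2,1)]) (.cons (.keep [2,5] (.node (.cons (.leaf 1 [(2,1),(5,1)]) (.cons (.leaf 1 [(2,1),(5,1)]) (.cons (.leaf 1 [(6,1)]) (.cons (.keep [0,5,6] (.node (.cons (.leaf 1 [(2,1),(7,1)]) (.cons (.leaf 1 [(2,1),(7,1)]) (.cons (.leaf 1 [(6,1),(7,1)]) (.cons (.leaf 1 [(6,1),(5,1),(7,1)]) .nil)))))) .nil)))))) (.cons (.leaf 1 []) (.cons (.keep [0,5] (.node (.cons (.leaf 1 [(2,1)]) (.cons (.leaf 1 [(2,1)]) (.cons (.leaf 1 [(6,1)]) (.cons (.keep [0,5,6] (.node (.cons (.leaf 1 [(2,1),(7,1)]) (.cons (.leaf 1 [(2,1),(7,1)]) (.cons (.leaf 1 [(6,1),(7,1)]) (.cons (.leaf 1 [(7,1),(5,1)]) .nil)))))) .nil)))))) .nil)))))) (.cons (.keep [5] (.node (.cons (.leaf 1 [(2,1)]) (.cons (.keep [2,5] (.node (.cons (.leaf 1 [(2,1),(5,1)]) (.cons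 (.leaf 1 [(2,1),(5,1)]) (.cons (.leaf 1 [(6,1)]) (.cons (.keep [0,5,6] (.node (.cons (.leaf 1 [(2,1),(7,1)]) (.cons (.leaf 1 [(2,1),(7,1)]) (.cons (.leaf 1 [(6,1),(7,1)]) (.cons (.leaf 1 [(6,1),(5,1),(7,1)]) .nil)))))) .nil)))))) (.cons (.leaf 1 []) (.cons (.keep [0,5] (.node (.cons (.leaf 1 [(2,1)]) (.cons (.leaf 1 [(2,1)]) (.cons (.leaf 1 [(6,1)]) (.cons (.keep [0,5,6] (.node (.cons (.leaf 1 [(2,1),(7,1)]) (.cons (.leaf 1 [(2,1),(7,1)]) (.cons (.leaf 1 [(6,1),(7,1)]) (.cons (.leaf 1 [(7,1),(5,1)]) .nil)))))) .nil)))))) .nil)))))) .nil)))))) (.cons (.keep [3] (.node (.cons (.keep [4,5] (.node (.cons (.leaf 1 [(2,1),(6,1)]) (.cons (.keep [2,6] (.node (.cons (.leaf 1 [(2,1)]) (.cons (.leaf 1 [(2,1),(6,1),(5,1)]) (.cons (.leaf 1 []) (.cons (.keep [0,5,6] (.node (.cons (.leaf 1 [(2,1)]) (.cons (.leaf 1 [(2,1)])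 (.cons (.leaf 1 [(6,1)]) (.cons (.leaf 1 [(7,1),(5,1),(6,1)]) .nil)))))) .nil)))))) (.cons (.leaf 1 [(6,1)]) (.cons (.keep [5,6] (.node (.cons (.leaf 1 [(2,1)]) (.cons (.leaf 1 [(2,1),(6,1)]) (.cons (.leaf 1 []) (.cons (.keep [0,5,6] (.node (.cons (.leaf 1 [(2,1)]) (.cons (.leaf 1 [(2,1)]) (.cons (.leaf 1 [(6,1)]) (.cons (.leaf 1 [(5,1),(7,1)]) .nil)))))) .nil)))))) .nil)))))) (.cons (.keep [5] (.node (.cons (.leaf 1 [(2,1),(5,1)]) (.cons (.keep [2,5] (.node (.cons (.leaf 1 [(2,1)]) (.cons (.leaf 1 [(2,1),(6,1),(5,1)]) (.cons (.leaf 1 []) (.cons (.keep [0,5,6] (.node (.cons (.leaf 1 [(2,1)]) (.cons (.leaf 1 [(2,1)]) (.cons (.leaf 1 [(6,1)]) (.cons (.leaf 1 [(7,1),(5,1),(6,1)]) .nil)))))) .nil)))))) (.cons (.leaf 1 [(5,1)]) (.cons (.keep [0,5] (.node (.cons (.leaf 1 [(2,1)]) (.cons (.leaf 1 [(2,1),(6,1)])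 (.cons (.leaf 1 []) (.cons (.keep [0,5,6] (.node (.cons (.leaf 1 [(2,1)]) (.cons (.leaf 1 [(2,1)]) (.cons (.leaf 1 [(7,1),(6,1)]) (.cons (.leaf 1 [(5,1),(7,1)]) .nil)))))) .nil)))))) .nil)))))) (.cons (.keep [1,4] (.node (.cons (.leaf 1 [(2,1),(5,1)]) (.cons (.keep [2,5] (.node (.cons (.leaf 1 [(2,1)]) (.cons (.leaf 1 [(2,1),(6,1),(5,1)]) (.cons (.leaf 1 []) (.cons (.keep [0,5,6] (.node (.cons (.leaf 1 [(2,1)]) (.cons (.leaf 1 [(2,1)]) (.cons (.leaf 1 [(6,1)]) (.cons (.leaf 1 [(7,1),(5,1),(6,1)]) .nil)))))) .nil)))))) (.cons (.leaf 1 [(5,1)]) (.cons (.keep [5,6] (.node (.cons (.leaf 1 [(2,1)]) (.cons (.leaf 1 [(2,1),(5,1)]) (.cons (.leaf 1 []) (.cons (.keep [0,5,6] (.node (.cons (.leaf 1 [(2,1)]) (.cons (.leaf 1 [(2,1)]) (.cons (.leaf 1 [(7,1)]) (.cons (.leaf 1 [(5,1),(6,1)]) .nil)))))) .nil)))))) .nil))))))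 (.cons (.keep [1] (.node (.cons (.leaf 1 [(2,1),(5,1)]) (.cons (.keep [2,5] (.node (.cons (.leaf 1 [(2,1)]) (.cons (.leaf 1 [(2,1),(6,1),(5,1)]) (.cons (.leaf 1 []) (.cons (.keep [0,5,6] (.node (.cons (.leaf 1 [(2,1)]) (.cons (.leaf 1 [(2,1)]) (.cons (.leaf 1 [(6,1)]) (.cons (.leaf 1 [(7,1),(5,1),(6,1)]) .nil)))))) .nil)))))) (.cons (.leaf 1 [(5,1)]) (.cons (.keep [0,5] (.node (.cons (.leaf 1 [(2,1)]) (.cons (.leaf 1 [(2,1),(6,1)]) (.cons (.leaf 1 []) (.cons (.keep [0,5,6] (.node (.cons (.leaf 1 [(2,1)]) (.cons (.leaf 1 [(2,1)]) (.cons (.leaf 1 [(7,1),(6,1)]) (.cons (.leaf 1 [(5,1),(7,1)]) .nil)))))) .nil)))))) .nil)))))) .nil)))))) (.cons (.keep [5] (.node (.cons (.leaf 1 [(2,1)]) (.cons (.keep [2,5] (.node (.cons (.leaf 1 [(2,1),(5,1)]) (.cons (.leaf 1 [(2,1),(5,1)]) (.cons (.leaf 1 [(6,1)]) (.cons (.keep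 [0,5,6] (.node (.cons (.leaf 1 [(2,1),(7,1)]) (.cons (.leaf 1 [(2,1),(7,1)]) (.cons (.leaf 1 [(6,1),(7,1)]) (.cons (.leaf 1 [(6,1),(5,1),(7,1)]) .nil)))))) .nil)))))) (.cons (.leaf 1 []) (.cons (.keep [0,5] (.node (.cons (.leaf 1 [(2,1)]) (.cons (.leaf 1 [(2,1)]) (.cons (.leaf 1 [(6,1)]) (.cons (.keep [0,5,6] (.node (.cons (.leaf 1 [(2,1),(7,1)]) (.cons (.leaf 1 [(2,1),(7,1)]) (.cons (.leaf 1 [(6,1),(7,1)]) (.cons (.leaf 1 [(7,1),(5,1)]) .nil)))))) .nil)))))) .nil)))))) (.cons (.keep [3,5] (.node (.cons (.leaf 1 []) (.cons (.keep [5,6] (.node (.cons (.leaf 1 [(2,1)]) (.cons (.leaf 1 [(2,1)]) (.cons (.leaf 1 [(5,1),(6,1)]) (.cons (.keep [0,5,6] (.node (.cons (.leaf 1 [(2,1),(7,1)]) (.cons (.leaf 1 [(2,1),(6,1),(7,1)]) (.cons (.leaf 1 [(7,1)]) (.cons (.leaf 1 [(7,1),(6,1),(5,1)]) .nil)))))) .nil)))))) (.cons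 (.leaf 1 [(1,1)]) (.cons (.keep [1,6] (.node (.cons (.leaf 1 [(2,1),(5,1)]) (.cons (.leaf 1 [(2,1),(5,1)]) (.cons (.leaf 1 [(5,1),(6,1)]) (.cons (.keep [0,5,6] (.node (.cons (.leaf 1 [(2,1),(7,1)]) (.cons (.leaf 1 [(2,1),(6,1),(7,1)]) (.cons (.leaf 1 [(7,1)]) (.cons (.leaf 1 [(7,1),(6,2),(5,1)]) .nil)))))) .nil)))))) .nil)))))) .nil)))))) (.cons (.keep [3] (.node (.cons (.keep [4,5] (.node (.cons (.leaf 1 [(2,1),(6,2)]) (.cons (.keep [2,6] (.node (.cons (.leaf 1 [(2,1),(6,1)]) (.cons (.leaf 1 [(2,1),(6,2),(5,1)]) (.cons (.leaf 1 [(6,1)]) (.cons (.keep [0,1,5,6] (.node (.cons (.leaf 1 [(6,1),(2,2)]) (.cons (.leaf 1 [(8,1),(2,1)]) (.cons (.leaf 1 [(6,1),(7,1)]) (.cons (.leaf 1 [(8,3),(5,1),(7,1)]) .nil)))))) .nil)))))) (.cons (.leaf 1 [(6,2)]) (.cons (.keep [5,6] (.node (.cons (.leaf 1 [(2,1)]) (.cons (.leaf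 1 [(2,1),(6,2)]) (.cons (.leaf 1 [(1,1)]) (.cons (.keep [0,1,5,6] (.node (.cons (.leaf 1 [(6,1),(2,2)]) (.cons (.leaf 1 [(2,1),(8,1)]) (.cons (.leaf 1 [(6,1),(7,2)]) (.cons (.leaf 1 [(5,1),(8,3)]) .nil)))))) .nil)))))) .nil)))))) (.cons (.keep [3,5] (.node (.cons (.leaf 1 [(6,2)]) (.cons (.keep [5,6] (.node (.cons (.leaf 1 [(2,1),(5,2)]) (.cons (.leaf 1 [(2,1),(6,2)]) (.cons (.leaf 1 [(5,2),(1,1)]) (.cons (.keep [0,1,5,6] (.node (.cons (.leaf 1 [(6,1),(2,2)]) (.cons (.leaf 1 [(6,1),(7,2),(2,2)]) (.cons (.leaf 1 [(6,1)]) (.cons (.leaf 1 [(8,3),(7,1),(5,1)]) .nil)))))) .nil)))))) (.cons (.leaf 1 [(6,2),(1,1)]) (.cons (.keep [1,6] (.node (.cons (.leaf 1 [(2,1),(5,1)]) (.cons (.leaf 1 [(5,1),(6,2),(2,1)]) (.cons (.leaf 1 [(5,1),(1,1)]) (.cons (.keep [0,1,5,6] (.node (.cons (.leaf 1 [(6,1),(2,2)]) (.cons (.leaf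 1 [(7,1),(2,1),(8,1)]) (.cons (.leaf 1 [(8,1)]) (.cons (.leaf 1 [(7,2),(5,1),(8,3)]) .nil)))))) .nil)))))) .nil)))))) (.cons (.keep [1,4] (.node (.cons (.leaf 1 [(2,1),(5,1)]) (.cons (.keep [2,5] (.node (.cons (.leaf 1 [(2,1)]) (.cons (.leaf 1 [(2,1),(6,1),(5,1)]) (.cons (.leaf 1 []) (.cons (.keep [0,5,6] (.node (.cons (.leaf 1 [(2,1)]) (.cons (.leaf 1 [(2,1)]) (.cons (.leaf 1 [(6,1)]) (.cons (.leaf 1 [(7,1),(5,1),(6,1)]) .nil)))))) .nil)))))) (.cons (.leaf 1 [(5,1)]) (.cons (.keep [5,6] (.node (.cons (.leaf 1 [(2,1)]) (.cons (.leaf 1 [(2,1),(5,1)]) (.cons (.leaf 1 []) (.cons (.keep [0,5,6] (.node (.cons (.leaf 1 [(2,1)]) (.cons (.leaf 1 [(2,1)]) (.cons (.leaf 1 [(7,1)]) (.cons (.leaf 1 [(5,1),(6,1)]) .nil)))))) .nil)))))) .nil)))))) (.cons (.keep [1,3] (.node (.cons (.leaf 1 [(5,1)]) (.cons (.keep [5,6]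 (.node (.cons (.leaf 1 [(2,1),(5,1)]) (.cons (.leaf 1 [(2,1),(5,1)]) (.cons (.leaf 1 [(6,1)]) (.cons (.keep [0,5,6] (.node (.cons (.leaf 1 [(2,1)]) (.cons (.leaf 1 [(2,1),(7,1)]) (.cons (.leaf 1 []) (.cons (.leaf 1 [(6,1),(7,1),(5,1)]) .nil)))))) .nil)))))) (.cons (.leaf 1 [(5,1),(1,1)]) (.cons (.keep [1,5] (.node (.cons (.leaf 1 [(2,1),(5,1)]) (.cons (.leaf 1 [(2,1),(6,1),(5,1)]) (.cons (.leaf 1 [(5,1)]) (.cons (.keep [0,5,6] (.node (.cons (.leaf 1 [(2,1)]) (.cons (.leaf 1 [(2,1),(6,1)]) (.cons (.leaf 1 []) (.cons (.leaf 1 [(7,1),(6,2),(5,1)]) .nil)))))) .nil)))))) .nil)))))) .nil)))))) (.cons (.leaf 1 []) (.cons (.leaf 1 [(3,1)]) .nil))))))),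
  (6, 13, (.keep [] (.node (.cons (.keep [4] (.node (.cons (.leaf 1 [(6,1)]) (.cons (.leaf 1 [(6,1),(3,1)]) (.cons (.leaf 1 [(6,1),(3,1)]) (.cons (.leaf 1 [(4,1)]) (.cons (.leaf 1 []) (.cons (.leaf 1 [(4,1)]) .nil)))))))) (.cons (.keep [3,5] (.node (.cons (.leaf 1 []) (.cons (.leaf 1 [(3,1)]) (.cons (.leaf 1 [(3,1)]) (.cons (.leaf 1 [(7,1)]) (.cons (.leaf 1 [(6,1)]) (.cons (.leaf 1 [(6,1),(4,1)]) .nil)))))))) (.cons (.keep [4] (.node (.cons (.leaf 1 [(6,1)]) (.cons (.leaf 1 [(6,1),(3,1)]) (.cons (.leaf 1 [(6,1),(3,1)]) (.cons (.leaf 1 []) (.cons (.leaf 1 [(3,1)]) (.cons (.leaf 1 [(3,1)]) .nil)))))))) (.cons (.leaf 1 [(4,1)]) (.cons (.leaf 1 []) (.cons (.leaf 1 [(4,1)]) .nil))))))))),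
  (6, 14, (.keep [] (.node (.cons (.leaf 1 []) (.cons (.leaf 1 [(3,1)]) (.cons (.leaf 1 [(3,1)]) (.cons (.leaf 1 [(4,1)]) (.cons (.leaf 1 []) (.cons (.leaf 1 [(4,1)]) .nil))))))))),
  (6, 15, (.keep [] (.node (.cons (.leaf 1 [(4,1)]) (.cons (.leaf 1 []) (.cons (.leaf 1 [(4,1)]) (.cons (.leaf 1 [(4,1)]) (.cons (.leaf 1 [(5,1)]) (.cons (.leaf 1 [(5,1)]) (.cons (.leaf 1 []) (.cons (.leaf 1 [(5,1)]) .nil))))))))))),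
  (7, 4, (.keep [] (.node (.cons (.keep [] (.node (.cons (.keep [] (.node (.cons (.leaf 1 [(3,1)]) (.cons (.leaf 1 [(3,1)]) (.cons (.leaf 1 []) .nil))))) (.cons (.leaf 1 [(1,1)]) (.cons (.keep [] (.node (.cons (.leaf 1 [(3,1)]) (.cons (.leaf 1 [(3,1)]) (.cons (.leaf 1 []) .nil))))) .nil))))) (.cons (.keep [] (.node (.cons (.keep [] (.node (.cons (.keep [3] (.node (.cons (.leaf 1 [(2,1),(3,1)]) (.cons (.leaf 1 [(3,1),(5,1)]) (.cons (.leaf 1 [(5,1)]) .nil))))) (.cons (.leaf 1 [(1,1),(3,1)]) (.cons (.keep [] (.node (.cons (.leaf 1 [(3,1)]) (.cons (.leaf 1 [(3,1)]) (.cons (.leaf 1 []) .nil))))) .nil))))) (.cons (.keep [] (.node (.cons (.keep [] (.node (.cons (.leaf 1 [(3,1)]) (.cons (.leaf 1 [(3,1)]) (.cons (.leaf 1 []) .nil))))) (.cons (.leaf 1 [(1,1)]) (.cons (.keep [] (.node (.cons (.leaf 1 [(3,1)]) (.cons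 (.leaf 1 [(3,1)]) (.cons (.leaf 1 []) .nil))))) .nil))))) (.cons (.keep [] (.node (.cons (.leaf 1 [(3,1)]) (.cons (.leaf 1 [(3,1)]) (.cons (.leaf 1 []) .nil))))) .nil))))) (.cons (.leaf 1 []) .nil)))))),
  (7, 5, (.keep [] (.node (.cons (.leaf 1 []) (.cons (.leaf 1 [(4,1)]) (.cons (.keep [5] (.node (.cons (.leaf 1 []) (.cons (.leaf 1 [(4,1)]) (.cons (.leaf 1 [(6,1)]) (.cons (.leaf 1 [(6,1),(4,1)]) (.cons (.leaf 1 [(5,1)]) (.cons (.leaf 1 []) .nil)))))))) (.cons (.keep [4] (.node (.cons (.leaf 1 [(6,1)]) (.cons (.leaf 1 [(6,1),(4,1)]) (.cons (.leaf 1 []) (.cons (.leaf 1 [(4,1)]) (.cons (.leaf 1 [(6,1),(5,1)]) (.cons (.leaf 1 [(6,1)]) .nil)))))))) (.cons (.leaf 1 [(5,1)]) (.cons (.leaf 1 []) .nil))))))))),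
  (7, 6, (.keep [] (.node (.cons (.keep [] (.node (.cons (.leaf 1 [(2,1)]) (.cons (.leaf 1 [(3,1)]) (.cons (.leaf 1 []) (.cons (.leaf 1 [(3,1)]) (.cons (.leaf 1 [(2,1)]) (.cons (.leaf 1 []) .nil)))))))) (.cons (.keep [2,4] (.node (.cons (.leaf 1 [(6,1)]) (.cons (.leaf 1 [(3,1),(7,1)]) (.cons (.leaf 1 [(1,1)]) (.cons (.leaf 1 [(1,1)]) (.cons (.leaf 1 [(5,1),(1,1)]) (.cons (.leaf 1 [(7,1)]) .nil)))))))) (.cons (.leaf 1 []) (.cons (.leaf 1 [(4,1)]) (.cons (.leaf 1 [(5,1)]) (.cons (.leaf 1 []) .nil))))))))),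
  (7, 7, (.keep [] (.node (.cons (.leaf 1 []) (.cons (.leaf 1 [(4,1)]) (.cons (.leaf 1 [(4,1)]) (.cons (.leaf 1 [(5,1)]) (.cons (.leaf 1 []) (.cons (.leaf 1 [(5,1)]) (.cons (.leaf 1 [(6,1)]) (.cons (.leaf 1 [(6,1)]) (.cons (.leaf 1 []) .nil)))))))))))),
  (7, 12, (.keep [0] (.node (.cons (.keep [2,5] (.node (.cons (.leaf 1 [(7,1),(6,1)]) (.cons (.keep [7] (.node (.cons (.leaf 1 [(3,1)]) (.cons (.keep [0,3,6] (.node (.cons (.leaf 1 [(3,1)]) (.cons (.leaf 1 [(3,1)]) (.cons (.leaf 1 [(3,1),(7,1)]) (.cons (.leaf 1 [(3,1),(6,1),(8,1)]) (.cons (.leaf 1 [(8,1)]) (.cons (.leaf 1 [(6,1),(8,1)]) .nil)))))))) (.cons (.leaf 1 [(3,1)]) (.cons (.leaf 1 [(1,1),(6,1)]) (.cons (.leaf 1 []) (.cons (.keep [0,1,6] (.node (.cons (.leaf 1 [(7,1),(3,1)]) (.cons (.leaf 1 [(7,1),(3,1)]) (.cons (.leaf 1 [(3,1)]) (.cons (.leaf 1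 [(3,1)]) (.cons (.leaf 1 [(8,1)]) (.cons (.leaf 1 [(7,1),(6,1),(8,1)]) .nil)))))))) .nil)))))))) (.cons (.leaf 1 [(1,1)]) (.cons (.leaf 1 [(1,1)]) (.cons (.leaf 1 [(7,1),(1,1)]) (.cons (.leaf 1 [(7,1),(1,1)]) .nil)))))))) (.cons (.keep [2,4] (.node (.cons (.leaf 1 [(6,1)]) (.cons (.keep [7] (.node (.cons (.leaf 1 [(3,1),(6,1)]) (.cons (.keep [0,6] (.node (.cons (.leaf 1 [(3,1)]) (.cons (.leaf 1 [(7,1),(3,1)]) (.cons (.leaf 1 [(3,1)]) (.cons (.leaf 1 [(3,1),(7,1),(6,1)]) (.cons (.leaf 1 []) (.cons (.leaf 1 [(7,1),(6,1)]) .nil)))))))) (.cons (.leaf 1 [(1,1)]) (.cons (.leaf 1 [(1,1)]) (.cons (.leaf 1 [(6,1)]) (.cons (.keep [0,1,6] (.node (.cons (.leaf 1 [(3,1)]) (.cons (.leaf 1 [(7,1),(8,1),(3,1)]) (.cons (.leaf 1 [(3,1)]) (.cons (.leaf 1 [(3,1),(8,1)]) (.cons (.leaf 1 []) (.cons (.leaf 1 [(7,1),(8,1),(6,1)])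 .nil)))))))) .nil)))))))) (.cons (.leaf 1 [(1,1),(6,1)]) (.cons (.leaf 1 [(1,1),(7,1)]) (.cons (.leaf 1 [(1,1)]) (.cons (.leaf 1 [(1,1)]) .nil)))))))) (.cons (.keep [5,6] (.node (.cons (.keep [5,6] (.node (.cons (.leaf 1 [(6,1)]) (.cons (.keep [3,6,7] (.node (.cons (.leaf 1 [(3,2)]) (.cons (.keep [0,3,7] (.node (.cons (.leaf 1 [(2,1),(3,1)]) (.cons (.leaf 1 [(2,1),(3,1)]) (.cons (.leaf 1 [(7,2),(3,1)]) (.cons (.leaf 1 [(7,2),(3,1)]) (.cons (.leaf 1 [(7,1),(8,1)]) (.cons (.leaf 1 [(7,2),(6,1),(8,1)]) .nil)))))))) (.cons (.leaf 1 [(3,2),(6,1)]) (.cons (.leaf 1 [(3,1),(7,1)]) (.cons (.leaf 1 [(8,1)]) (.cons (.keep [0,7,8] (.node (.cons (.leaf 1 [(3,1)]) (.cons (.leaf 1 [(3,1)]) (.cons (.leaf 1 [(3,2),(8,1)]) (.cons (.leaf 1 [(3,2),(8,1)]) (.cons (.leaf 1 [(7,2),(8,1)]) (.cons (.leaf 1 [(7,2),(6,2),(8,1)])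 .nil)))))))) .nil)))))))) (.cons (.leaf 1 [(1,1),(3,1)]) (.cons (.leaf 1 [(1,2),(7,1)]) (.cons (.leaf 1 [(6,1),(1,1)]) (.cons (.leaf 1 [(6,2),(1,2),(7,1)]) .nil)))))))) (.cons (.keep [4,6] (.node (.cons (.leaf 1 []) (.cons (.keep [0,6,7] (.node (.cons (.leaf 1 [(7,1),(3,2)]) (.cons (.keep [0,3,7] (.node (.cons (.leaf 1 [(2,1),(3,1)]) (.cons (.leaf 1 [(2,1),(8,1),(3,1)]) (.cons (.leaf 1 [(3,1),(7,1)]) (.cons (.leaf 1 [(8,1),(7,2),(3,1)]) (.cons (.leaf 1 [(7,1)]) (.cons (.leaf 1 [(7,2),(8,1),(6,1)]) .nil)))))))) (.cons (.leaf 1 [(3,1)]) (.cons (.leaf 1 [(3,1)]) (.cons (.leaf 1 [(7,1),(8,1)]) (.cons (.keep [0,6,7,8] (.node (.cons (.leaf 1 [(2,1),(3,1)]) (.cons (.leaf 1 [(3,1),(8,1)]) (.cons (.leaf 1 [(3,2),(9,1)]) (.cons (.leaf 1 [(3,2),(8,1),(9,1)]) (.cons (.leaf 1 [(7,1),(9,1)]) (.cons (.leaf 1 [(9,1),(8,1),(6,2)])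 .nil)))))))) .nil)))))))) (.cons (.leaf 1 [(1,1)]) (.cons (.leaf 1 [(1,2),(6,1),(7,1)]) (.cons (.leaf 1 [(1,1)]) (.cons (.keep [0,1,7] (.node (.cons (.leaf 1 [(7,2),(3,1)]) (.cons (.leaf 1 [(7,2),(3,1)]) (.cons (.leaf 1 [(1,1),(3,1)]) (.cons (.leaf 1 [(1,1),(3,1)]) (.cons (.leaf 1 [(1,1),(8,2)]) (.cons (.leaf 1 [(7,3),(6,1),(8,1)]) .nil)))))))) .nil)))))))) (.cons (.keep [5,7] (.node (.cons (.leaf 1 [(6,1),(7,1)]) (.cons (.keep [6] (.node (.cons (.leaf 1 [(3,1)]) (.cons (.keep [0,3,6] (.node (.cons (.leaf 1 [(3,1)]) (.cons (.leaf 1 [(3,1)]) (.cons (.leaf 1 [(3,1),(7,1)]) (.cons (.leaf 1 [(3,1),(6,1),(8,1)]) (.cons (.leaf 1 [(8,1)]) (.cons (.leaf 1 [(6,1),(8,1)]) .nil)))))))) (.cons (.leaf 1 [(3,1)]) (.cons (.leaf 1 [(1,1),(6,1)]) (.cons (.leaf 1 []) (.cons (.keep [0,1,6] (.node (.cons (.leaf 1 [(7,1),(3,1)])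 (.cons (.leaf 1 [(7,1),(3,1)]) (.cons (.leaf 1 [(3,1)]) (.cons (.leaf 1 [(3,1)]) (.cons (.leaf 1 [(8,1)]) (.cons (.leaf 1 [(7,1),(6,1),(8,1)]) .nil)))))))) .nil)))))))) (.cons (.leaf 1 [(1,1)]) (.cons (.leaf 1 [(1,1)]) (.cons (.leaf 1 [(6,1),(1,1)]) (.cons (.leaf 1 [(6,1),(1,1)]) .nil)))))))) (.cons (.keep [4,7] (.node (.cons (.leaf 1 [(7,1)]) (.cons (.keep [6] (.node (.cons (.leaf 1 [(3,1),(6,1)]) (.cons (.keep [0,6] (.node (.cons (.leaf 1 [(3,1)]) (.cons (.leaf 1 [(7,1),(3,1)]) (.cons (.leaf 1 [(3,1)]) (.cons (.leaf 1 [(3,1),(7,1),(6,1)]) (.cons (.leaf 1 []) (.cons (.leaf 1 [(7,1),(6,1)]) .nil)))))))) (.cons (.leaf 1 [(1,1)]) (.cons (.leaf 1 [(1,1)]) (.cons (.leaf 1 [(6,1)]) (.cons (.keep [0,1,6] (.node (.cons (.leaf 1 [(3,1)]) (.cons (.leaf 1 [(7,1),(8,1),(3,1)]) (.cons (.leaf 1 [(3,1)]) (.cons (.leaf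 1 [(3,1),(8,1)]) (.cons (.leaf 1 []) (.cons (.leaf 1 [(7,1),(8,1),(6,1)]) .nil)))))))) .nil)))))))) (.cons (.leaf 1 [(1,1),(6,1)]) (.cons (.leaf 1 [(1,1),(6,1)]) (.cons (.leaf 1 [(1,1)]) (.cons (.leaf 1 [(1,1)]) .nil)))))))) (.cons (.leaf 1 [(6,1),(1,1)]) (.cons (.leaf 1 [(6,1),(4,1),(1,1)]) .nil)))))))) (.cons (.keep [4] (.node (.cons (.keep [5,6] (.node (.cons (.leaf 1 [(6,1),(7,1)]) (.cons (.keep [6,7] (.node (.cons (.leaf 1 [(3,2)]) (.cons (.leaf 1 [(7,2),(3,2)]) (.cons (.leaf 1 [(3,2)]) (.cons (.leaf 1 [(3,1),(7,1),(6,1)]) (.cons (.leaf 1 []) (.cons (.keep [0,6,7] (.node (.cons (.leaf 1 [(8,1),(3,1)]) (.cons (.leaf 1 [(8,1),(3,1)]) (.cons (.leaf 1 [(3,2)]) (.cons (.leaf 1 [(3,2)]) (.cons (.leaf 1 [(7,2)]) (.cons (.leaf 1 [(8,2),(6,2),(7,2)]) .nil)))))))) .nil)))))))) (.cons (.leaf 1 [(1,2)]) (.cons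 (.leaf 1 [(1,2)]) (.cons (.leaf 1 [(6,2),(1,2)]) (.cons (.leaf 1 [(6,2),(1,2)]) .nil)))))))) (.cons (.keep [2,4,6] (.node (.cons (.leaf 1 [(8,1)]) (.cons (.keep [0,7,8] (.node (.cons (.leaf 1 [(7,1),(3,2)]) (.cons (.leaf 1 [(7,1),(8,2),(3,2)]) (.cons (.leaf 1 [(1,1),(3,1)]) (.cons (.leaf 1 [(3,1),(8,1)]) (.cons (.leaf 1 [(7,1)]) (.cons (.keep [0,6,7,8] (.node (.cons (.leaf 2 [(9,1),(3,3)]) (.cons (.leaf 1 [(9,1),(3,1),(8,1)]) (.cons (.leaf 1 [(3,2)]) (.cons (.leaf 1 [(8,1),(3,2)]) (.cons (.leaf 1 [(9,1),(7,1)]) (.cons (.leaf 1 [(9,2),(8,1),(6,2)]) .nil)))))))) .nil)))))))) (.cons (.leaf 1 [(1,2),(6,1)]) (.cons (.leaf 1 [(1,2),(7,1)]) (.cons (.leaf 1 [(8,1),(1,1)]) (.cons (.keep [0,1,8] (.node (.cons (.leaf 1 [(7,1),(3,1)]) (.cons (.leaf 1 [(7,2),(8,1),(3,1)]) (.cons (.leaf 1 [(1,1),(3,1)]) (.cons (.leaf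 1 [(1,1),(8,1),(3,1)]) (.cons (.leaf 1 [(7,1)]) (.cons (.leaf 1 [(7,3),(8,1),(6,1)]) .nil)))))))) .nil)))))))) (.cons (.leaf 1 [(6,2),(1,1)]) (.cons (.leaf 1 [(6,2),(1,1),(4,1)]) (.cons (.leaf 1 [(1,1)]) (.cons (.leaf 1 [(1,1),(4,1)]) .nil)))))))) (.cons (.leaf 1 []) (.cons (.leaf 1 [(4,1)]) .nil))))))))),
  (7, 13, (.keep [] (.node (.cons (.leaf 1 []) (.cons (.leaf 1 [(4,1)]) (.cons (.leaf 1 [(4,1)]) (.cons (.keep [5] (.node (.cons (.leaf 1 []) (.cons (.leaf 1 [(4,1)]) (.cons (.leaf 1 [(4,1)]) (.cons (.leaf 1 [(7,1)]) (.cons (.leaf 1 [(7,1),(4,1)]) (.cons (.leaf 1 [(7,1),(4,1)]) (.cons (.leaf 1 [(5,1)]) (.cons (.leaf 1 []) (.cons (.leaf 1 [(5,1)]) .nil))))))))))) (.cons (.keep [4,6] (.node (.cons (.leaf 1 [(7,1)]) (.cons (.leaf 1 [(7,1),(4,1)]) (.cons (.leaf 1 [(7,1),(4,1)]) (.cons (.leaf 1 []) (.cons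 (.leaf 1 [(4,1)]) (.cons (.leaf 1 [(4,1)]) (.cons (.leaf 1 [(8,1)]) (.cons (.leaf 1 [(7,1)]) (.cons (.leaf 1 [(7,1),(5,1)]) .nil))))))))))) (.cons (.keep [4,5] (.node (.cons (.leaf 1 [(7,1)]) (.cons (.leaf 1 [(4,2)]) (.cons (.leaf 1 [(7,1),(4,1)]) (.cons (.leaf 1 [(8,1)]) (.cons (.leaf 1 [(8,2),(1,1)]) (.cons (.leaf 1 [(8,1),(4,1)]) (.cons (.leaf 1 []) (.cons (.leaf 1 [(1,1)]) (.cons (.leaf 1 [(4,1)]) .nil))))))))))) (.cons (.leaf 1 [(5,1)]) (.cons (.leaf 1 []) (.cons (.leaf 1 [(5,1)]) .nil))))))))))))]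

theorem d5_ok : (d5.all fun c => ok c.1 c.2.1 c.2.2) = true := by decide +kernel

def d6 : List (ℕ × ℕ × T) := [
  (7, 14, (.keep [] (.node (.cons (.keep [5,6] (.node (.cons (.leaf 1 [(2,1)]) (.cons (.leaf 1 [(3,1)]) (.cons (.keep [0,7,8] (.node (.cons (.leaf 2 [(5,1),(9,1)]) (.cons (.leaf 1 [(3,1)]) (.cons (.leaf 1 [(3,1)]) (.cons (.leaf 2 [(3,1),(9,1)]) (.cons (.leaf 2 [(3,1),(9,1)]) (.cons (.leaf 2 [(3,1),(9,1)]) (.cons (.leaf 2 [(5,1),(9,1)]) (.cons (.leaf 1 [(8,1)]) (.cons (.leaf 1 [(7,1),(8,1)]) .nil))))))))))) (.cons (.leaf 1 []) (.cons (.leaf 1 [(3,1)]) (.cons (.leaf 1 [(1,1),(7,1)]) (.cons (.leaf 1 [(2,1)]) (.cons (.leaf 1 []) (.cons (.leaf 1 [(1,1),(8,1)]) .nil))))))))))) (.cons (.keep [2,4,6] (.node (.cons (.leaf 1 [(7,1)]) (.cons (.leaf 2 [(9,1),(8,1)]) (.cons (.keep [0,8,9] (.node (.cons (.leaf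 1 [(2,1)]) (.cons (.leaf 1 [(3,1)]) (.cons (.leaf 1 [(8,1),(3,1)]) (.cons (.leaf 1 []) (.cons (.leaf 1 [(3,1)]) (.cons (.leaf 2 [(3,1),(8,1),(9,1)]) (.cons (.leaf 1 [(2,1)]) (.cons (.leaf 1 []) (.cons (.leaf 1 [(8,1),(7,1)]) .nil))))))))))) (.cons (.leaf 1 [(1,1)]) (.cons (.leaf 1 [(1,1)]) (.cons (.leaf 1 [(1,1)]) (.cons (.leaf 1 [(5,1),(1,1)]) (.cons (.leaf 1 [(8,1)]) (.cons (.leaf 1 [(9,1),(1,1)]) .nil))))))))))) (.cons (.keep [2,4,5] (.node (.cons (.leaf 2 [(8,1),(9,1)]) (.cons (.leaf 1 [(7,1)]) (.cons (.keep [0,4,8,9] (.node (.cons (.leaf 2 [(5,1),(8,1)]) (.cons (.leaf 1 [(3,1),(9,1)]) (.cons (.leaf 1 [(3,1),(9,1)]) (.cons (.leaf 2 [(3,1),(9,1)]) (.cons (.leaf 2 [(3,1),(9,1)]) (.cons (.leaf 2 [(3,1),(9,1)]) (.cons (.leaf 2 [(5,1),(9,1)]) (.cons (.leaf 1 [(10,1)]) (.cons (.leaf 1 [(7,1),(9,1),(10,1)])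 .nil))))))))))) (.cons (.leaf 1 [(8,1)]) (.cons (.leaf 1 [(1,1),(4,1)]) (.cons (.leaf 1 [(1,1),(9,1)]) (.cons (.leaf 1 [(1,1)]) (.cons (.leaf 1 [(1,1)]) (.cons (.leaf 1 [(1,1)]) .nil))))))))))) (.cons (.leaf 1 []) (.cons (.leaf 1 [(4,1)]) (.cons (.leaf 1 [(4,1)]) (.cons (.leaf 1 [(5,1)]) (.cons (.leaf 1 []) (.cons (.leaf 1 [(5,1)]) .nil)))))))))))),
  (7, 15, (.keep [] (.node (.cons (.leaf 1 []) (.cons (.leaf 1 [(4,1)]) (.cons (.leaf 1 [(4,1)]) (.cons (.leaf 1 [(4,1)]) (.cons (.leaf 1 [(5,1)]) (.cons (.leaf 1 []) (.cons (.leaf 1 [(5,1)]) (.cons (.leaf 1 [(5,1)]) (.cons (.leaf 1 [(6,1)]) (.cons (.leaf 1 [(6,1)]) (.cons (.leaf 1 []) (.cons (.leaf 1 [(6,1)]) .nil))))))))))))))),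
  (8, 8, (.keep [] (.node (.cons (.leaf 1 []) .nil)))),
  (8, 9, (.keep [] (.node (.cons (.leaf 1 [(3,1)]) (.cons (.leaf 1 []) .nil))))),
  (8, 10, (.keep [] (.node (.cons (.leaf 1 [(3,1)]) (.cons (.leaf 1 []) .nil))))),
  (8, 11, (.keep [] (.node (.cons (.leaf 1 [(4,1)]) (.cons (.leaf 1 [(4,1)]) (.cons (.leaf 1 []) .nil)))))),
  (8, 12, (.keep [] (.node (.cons (.leaf 1 [(3,1)]) (.cons (.leaf 1 []) .nil))))),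
  (8, 13, (.keep [] (.node (.cons (.leaf 1 [(4,1)]) (.cons (.leaf 1 [(4,1)]) (.cons (.leaf 1 []) .nil)))))),
  (8, 14, (.keep [] (.node (.cons (.leaf 1 [(4,1)]) (.cons (.leaf 1 [(4,1)]) (.cons (.leaf 1 []) .nil)))))),
  (8, 15, (.keep [] (.node (.cons (.leaf 1 [(5,1)]) (.cons (.leaf 1 [(5,1)]) (.cons (.leaf 1 [(5,1)]) (.cons (.leaf 1 []) .nil)))))))]

theorem d6_ok : (d6.all fun c => ok c.1 c.2.1 c.2.2) = true := by decide +kernel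

def d7 : List (ℕ × ℕ × T) := [
  (9, 8, (.keep [] (.node (.cons (.keep [] (.node (.cons (.keep [] (.node (.cons (.keep [] (.node (.cons (.leaf 1 [(2,1)]) (.cons (.leaf 1 []) .nil)))) (.cons (.keep [] (.node (.cons (.leaf 1 [(2,1)]) (.cons (.leaf 1 []) .nil)))) .nil)))) (.cons (.keep [] (.node (.cons (.keep [] (.node (.cons (.leaf 1 [(2,1)]) (.cons (.leaf 1 []) .nil)))) (.cons (.keep [] (.node (.cons (.leaf 1 [(2,1)]) (.cons (.leaf 1 []) .nil)))) .nil)))) .nil)))) (.cons (.leaf 1 []) .nil))))),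
  (9, 9, (.keep [] (.node (.cons (.leaf 1 []) (.cons (.leaf 1 [(3,1)]) (.cons (.leaf 1 [(4,1)]) (.cons (.leaf 1 []) .nil))))))),
  (9, 10, (.keep [] (.node (.cons (.keep [4] (.node (.cons (.keep [2] (.node (.cons (.keep [5] (.node (.cons (.leaf 1 [(5,1)]) (.cons (.leaf 1 [(2,1)]) (.cons (.leaf 1 [(5,1),(1,1)]) (.cons (.leaf 1 []) .nil)))))) (.cons (.keep [3,5] (.node (.cons (.leaf 1 [(5,1),(6,1)]) (.cons (.leaf 1 [(2,1),(5,1)]) (.cons (.leaf 1 [(5,1),(6,1),(1,1)]) (.cons (.leaf 1 [(5,1)]) .nil)))))) (.cons (.leaf 1 [(4,1)]) (.cons (.leaf 1 []) .nil)))))) (.cons (.leaf 1 [(2,1)]) (.cons (.keep [1,5] (.node (.cons (.keep [5] (.node (.cons (.leaf 1 []) (.cons (.leaf 1 [(5,1),(2,1)]) (.cons (.leaf 1 [(1,1)]) (.cons (.leaf 1 [(5,1)]) .nil)))))) (.cons (.keep [3,6] (.node (.cons (.leaf 1 [(5,1)]) (.cons (.leaf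 1 [(2,1),(6,1)]) (.cons (.leaf 1 [(5,1),(1,1)]) (.cons (.leaf 1 [(6,1)]) .nil)))))) (.cons (.leaf 1 [(4,1),(1,1),(6,1)]) (.cons (.leaf 1 [(5,1)]) .nil)))))) (.cons (.leaf 1 []) .nil)))))) (.cons (.keep [3] (.node (.cons (.keep [2,5] (.node (.cons (.keep [5] (.node (.cons (.leaf 1 [(5,1)]) (.cons (.leaf 1 [(2,1)]) (.cons (.leaf 1 [(5,1),(1,1)]) (.cons (.leaf 1 []) .nil)))))) (.cons (.keep [5] (.node (.cons (.leaf 1 [(5,1)]) (.cons (.leaf 1 [(2,1)]) (.cons (.leaf 1 [(5,1),(1,1)]) (.cons (.leaf 1 []) .nil)))))) (.cons (.leaf 1 [(4,1),(1,1)]) (.cons (.leaf 1 [(6,1)]) .nil)))))) (.cons (.leaf 1 [(2,1),(5,1)]) (.cons (.keep [1,5] (.node (.cons (.keep [6] (.node (.cons (.leaf 1 [(5,1)]) (.cons (.leaf 1 [(2,1)]) (.cons (.leaf 1 [(5,1),(1,1)]) (.cons (.leaf 1 []) .nil)))))) (.cons (.keep [3,6] (.node (.cons (.leaf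 1 [(6,1),(5,1)]) (.cons (.leaf 1 [(2,1)]) (.cons (.leaf 1 [(6,1),(5,1),(1,1)]) (.cons (.leaf 1 []) .nil)))))) (.cons (.leaf 1 [(4,1),(1,1)]) (.cons (.leaf 1 [(6,1),(5,1)]) .nil)))))) (.cons (.leaf 1 [(5,1)]) .nil)))))) (.cons (.leaf 1 [(4,1)]) (.cons (.leaf 1 []) .nil))))))),
  (9, 11, (.keep [] (.node (.cons (.leaf 1 []) (.cons (.leaf 1 [(3,1)]) (.cons (.leaf 1 [(3,1)]) (.cons (.leaf 1 [(5,1)]) (.cons (.leaf 1 [(5,1)]) (.cons (.leaf 1 []) .nil))))))))),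
  (9, 12, (.keep [] (.node (.cons (.keep [0,4] (.node (.cons (.keep [4,6] (.node (.cons (.leaf 2 [(5,1),(6,1)]) (.cons (.leaf 1 [(2,1)]) (.cons (.leaf 2 [(5,1),(6,1),(1,1)]) (.cons (.leaf 1 []) .nil)))))) (.cons (.keep [2] (.node (.cons (.leaf 1 [(5,1)]) (.cons (.leaf 1 [(2,1)]) (.cons (.leaf 1 [(5,1),(1,1)]) (.cons (.leaf 1 []) .nil)))))) (.cons (.leaf 1 [(6,1),(4,1),(1,1)]) (.cons (.keep [5,6] (.node (.cons (.keep [2,6] (.node (.cons (.leaf 1 [(5,1),(6,1)]) (.cons (.leaf 1 [(2,1),(6,1)]) (.cons (.leaf 1 [(5,1),(6,1),(1,1)]) (.cons (.leaf 1 [(6,1)]) .nil)))))) (.cons (.leaf 1 [(2,1)]) (.cons (.keep [5,6] (.node (.cons (.leaf 1 [(5,1),(6,1)]) (.cons (.leaf 1 [(2,1),(6,1)]) (.cons (.leaf 1 [(5,1),(6,1),(1,1)]) (.cons (.leaf 1 [(6,1)]) .nil)))))) (.cons (.leaf 1 []) .nil)))))) .nil)))))) (.cons (.keep [0,3]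 (.node (.cons (.keep [4,6] (.node (.cons (.leaf 2 [(5,1),(6,1)]) (.cons (.leaf 1 [(2,1),(6,1)]) (.cons (.leaf 2 [(5,1),(6,1),(1,1)]) (.cons (.leaf 1 [(6,1)]) .nil)))))) (.cons (.keep [2,6] (.node (.cons (.leaf 1 [(5,1),(6,1)]) (.cons (.leaf 1 [(2,1),(6,1)]) (.cons (.leaf 1 [(5,1),(6,1),(1,1)]) (.cons (.leaf 1 [(6,1)]) .nil)))))) (.cons (.leaf 1 [(4,1),(1,1)]) (.cons (.keep [5,6] (.node (.cons (.keep [2] (.node (.cons (.leaf 1 [(5,1)]) (.cons (.leaf 1 [(2,1)]) (.cons (.leaf 1 [(5,1),(1,1)]) (.cons (.leaf 1 []) .nil)))))) (.cons (.leaf 1 [(2,1),(6,1)]) (.cons (.keep [5,6] (.node (.cons (.leaf 1 [(6,1),(5,1)]) (.cons (.leaf 1 [(2,1)]) (.cons (.leaf 1 [(6,1),(5,1),(1,1)]) (.cons (.leaf 1 []) .nil)))))) (.cons (.leaf 1 [(6,1)]) .nil)))))) .nil)))))) (.cons (.leaf 1 [(4,1)]) (.cons (.leaf 1 []) .nil))))))),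
  (9, 13, (.keep [] (.node (.cons (.leaf 1 []) (.cons (.leaf 1 [(3,1)]) (.cons (.leaf 1 [(3,1)]) (.cons (.leaf 1 [(5,1)]) (.cons (.leaf 1 [(5,1)]) (.cons (.leaf 1 []) .nil))))))))),
  (9, 14, (.keep [] (.node (.cons (.keep [2,4,5] (.node (.cons (.leaf 2 [(7,1)]) (.cons (.leaf 1 [(6,1)]) (.cons (.leaf 1 [(2,1)]) (.cons (.leaf 2 [(7,1),(1,1)]) (.cons (.leaf 2 [(8,1),(1,1)]) (.cons (.leaf 1 []) .nil)))))))) (.cons (.keep [3,5] (.node (.cons (.leaf 2 [(6,1)]) (.cons (.leaf 2 [(7,1),(6,1)]) (.cons (.leaf 1 [(2,1),(6,1)]) (.cons (.leaf 1 [(5,1),(1,1)]) (.cons (.leaf 2 [(7,1),(6,1),(1,1)]) (.cons (.leaf 1 [(6,1)]) .nil)))))))) (.cons (.keep [3,4] (.node (.cons (.leaf 2 [(6,1),(7,1)]) (.cons (.leaf 2 [(6,1)]) (.cons (.leaf 1 [(2,1),(6,1)]) (.cons (.leaf 2 [(6,1),(7,1),(1,1)]) (.cons (.leaf 1 [(5,1),(1,1)]) (.cons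 (.leaf 1 [(6,1)]) .nil)))))))) (.cons (.leaf 1 [(5,1)]) (.cons (.leaf 1 [(5,1)]) (.cons (.leaf 1 []) .nil))))))))),
  (9, 15, (.keep [] (.node (.cons (.leaf 1 []) (.cons (.leaf 1 [(3,1)]) (.cons (.leaf 1 [(3,1)]) (.cons (.leaf 1 [(3,1)]) (.cons (.leaf 1 [(6,1)]) (.cons (.leaf 1 [(6,1)]) (.cons (.leaf 1 [(6,1)]) (.cons (.leaf 1 []) .nil))))))))))),
  (10, 8, (.keep [] (.node (.cons (.keep [] (.node (.cons (.keep [] (.node (.cons (.keep [] (.node (.cons (.keep [] (.node (.cons (.keep [2] (.node (.cons (.leaf 1 [(2,1),(4,1)]) (.cons (.leaf 1 [(4,1)]) .nil)))) (.cons (.keep [] (.node (.cons (.leaf 1 [(2,1)]) (.cons (.leaf 1 []) .nil)))) .nil)))) (.cons (.keep [] (.node (.cons (.keep [2] (.node (.cons (.leaf 1 [(2,1),(4,1)]) (.cons (.leaf 1 [(4,1)]) .nil)))) (.cons (.keep [] (.node (.cons (.leaf 1 [(2,1)]) (.cons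 (.leaf 1 []) .nil)))) .nil)))) .nil)))) (.cons (.keep [] (.node (.cons (.keep [2] (.node (.cons (.leaf 1 [(2,1),(4,1)]) (.cons (.leaf 1 [(4,1)]) .nil)))) (.cons (.keep [] (.node (.cons (.leaf 1 [(2,1)]) (.cons (.leaf 1 []) .nil)))) .nil)))) .nil)))) (.cons (.keep [] (.node (.cons (.keep [] (.node (.cons (.leaf 1 [(2,1)]) (.cons (.leaf 1 []) .nil)))) (.cons (.keep [] (.node (.cons (.leaf 1 [(2,1)]) (.cons (.leaf 1 []) .nil)))) .nil)))) .nil)))) (.cons (.leaf 1 []) .nil))))),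
  (10, 9, (.keep [] (.node (.cons (.keep [4] (.node (.cons (.keep [5] (.node (.cons (.leaf 1 [(5,1)]) (.cons (.leaf 1 [(5,1),(3,1)]) (.cons (.leaf 1 [(4,1)]) (.cons (.leaf 1 []) .nil)))))) (.cons (.keep [3,5] (.node (.cons (.leaf 1 [(6,1),(5,1)]) (.cons (.leaf 1 [(6,1),(5,1),(3,1)]) (.cons (.leaf 1 [(5,1),(4,1)]) (.cons (.leaf 1 [(5,1)]) .nil)))))) (.cons (.leaf 1 [(4,1)]) (.cons (.leaf 1 []) .nil)))))) (.cons (.keep [3] (.node (.cons (.keep [5] (.node (.cons (.leaf 1 []) (.cons (.leaf 1 [(3,1)]) (.cons (.leaf 1 [(5,1),(4,1)]) (.cons (.leaf 1 [(5,1)]) .nil)))))) (.cons (.keep [3,5] (.node (.cons (.leaf 1 [(5,1)]) (.cons (.leaf 1 [(5,1),(3,1)]) (.cons (.leaf 1 [(6,1),(5,1),(4,1)]) (.cons (.leaf 1 [(6,1),(5,1)]) .nil)))))) (.cons (.leaf 1 [(5,1),(4,1)]) (.cons (.leaf 1 [(5,1)]) .nil)))))) (.cons (.leaf 1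 [(4,1)]) (.cons (.leaf 1 []) .nil)))))))]

theorem d7_ok : (d7.all fun c => ok c.1 c.2.1 c.2.2) = true := by decide +kernel

def d8 : List (ℕ × ℕ × T) := [
  (10, 10, (.keep [] (.node (.cons (.leaf 1 []) (.cons (.leaf 1 [(3,1)]) (.cons (.leaf 1 [(4,1)]) (.cons (.leaf 1 []) .nil))))))),
  (10, 11, (.keep [] (.node (.cons (.leaf 1 [(4,1)]) (.cons (.leaf 1 []) (.cons (.leaf 1 [(4,1)]) (.cons (.leaf 1 [(5,1)]) (.cons (.leaf 1 [(5,1)]) (.cons (.leaf 1 []) .nil))))))))),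
  (10, 12, (.keep [] (.node (.cons (.keep [2,4] (.node (.cons (.keep [2,4] (.node (.cons (.keep [4] (.node (.cons (.leaf 1 [(5,1)]) (.cons (.leaf 1 [(2,1)]) (.cons (.leaf 1 [(5,1),(1,1)]) (.cons (.leaf 1 []) .nil)))))) (.cons (.keep [2,3,5,6] (.node (.cons (.keep [4,5] (.node (.cons (.leaf 2 [(5,1),(6,1)]) (.cons (.leaf 2 [(2,1),(6,1)]) (.cons (.leaf 2 [(1,1),(6,1),(5,1)]) (.cons (.leaf 2 [(6,1)]) .nil)))))) (.cons (.leaf 1 [(2,1)]) (.cons (.keep [1,5,6,7,8] (.node (.cons (.leaf 2 [(9,1)]) (.cons (.leaf 2 [(6,1),(2,1),(5,1)]) (.cons (.leaf 3 [(8,1),(7,1),(1,2)]) (.cons (.leaf 1 [(9,1)]) .nil)))))) (.cons (.leaf 1 []) .nil)))))) (.cons (.keep [4] (.node (.cons (.leaf 1 [(5,1)]) (.cons (.leaf 1 [(2,1)]) (.cons (.leaf 1 [(5,1),(1,1)]) (.cons (.leaf 1 []) .nil)))))) (.cons (.keep [5,6] (.node (.cons (.keep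 [4,6] (.node (.cons (.leaf 1 [(5,1),(6,1)]) (.cons (.leaf 1 [(2,1),(6,1)]) (.cons (.leaf 1 [(1,1),(6,1),(5,1)]) (.cons (.leaf 1 [(6,1)]) .nil)))))) (.cons (.leaf 1 [(2,1)]) (.cons (.keep [5,6] (.node (.cons (.leaf 1 [(5,1)]) (.cons (.leaf 1 [(2,1),(6,1)]) (.cons (.leaf 1 [(4,1),(1,1)]) (.cons (.leaf 1 [(6,1)]) .nil)))))) (.cons (.leaf 1 []) .nil)))))) .nil)))))) (.cons (.keep [3] (.node (.cons (.keep [4,5] (.node (.cons (.leaf 1 [(5,1),(6,1)]) (.cons (.leaf 1 [(2,1),(6,1)]) (.cons (.leaf 1 [(5,1),(6,1),(1,1)]) (.cons (.leaf 1 [(6,1)]) .nil)))))) (.cons (.keep [2,5] (.node (.cons (.leaf 1 [(5,1),(6,2)]) (.cons (.leaf 1 [(2,1),(6,1)]) (.cons (.leaf 1 [(5,1),(6,2),(1,1)]) (.cons (.leaf 1 [(6,1)]) .nil)))))) (.cons (.keep [1,4,5] (.node (.cons (.leaf 1 [(6,1),(7,1)]) (.cons (.leaf 1 [(2,2),(5,1),(3,1)]) (.cons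 (.leaf 1 [(6,1),(7,1),(1,1)]) (.cons (.leaf 1 [(6,1),(5,1)]) .nil)))))) (.cons (.keep [1,5] (.node (.cons (.keep [4] (.node (.cons (.leaf 1 [(5,1)]) (.cons (.leaf 1 [(2,1)]) (.cons (.leaf 1 [(5,1),(1,1)]) (.cons (.leaf 1 []) .nil)))))) (.cons (.leaf 1 [(2,2),(5,1),(3,1)]) (.cons (.keep [4] (.node (.cons (.leaf 1 [(5,1)]) (.cons (.leaf 1 [(2,1)]) (.cons (.leaf 1 [(5,1),(1,1)]) (.cons (.leaf 1 []) .nil)))))) (.cons (.leaf 1 [(6,1)]) .nil)))))) .nil)))))) (.cons (.keep [4] (.node (.cons (.leaf 1 [(5,2)]) (.cons (.leaf 1 [(3,1),(2,2)]) (.cons (.leaf 1 [(5,2),(1,1)]) (.cons (.leaf 1 [(5,1)]) .nil)))))) (.cons (.keep [5,6] (.node (.cons (.keep [4,6] (.node (.cons (.leaf 1 [(5,1),(6,1)]) (.cons (.leaf 1 [(2,1),(6,1)]) (.cons (.leaf 1 [(1,1),(6,1),(5,1)]) (.cons (.leaf 1 [(6,1)]) .nil)))))) (.cons (.leaf 1 [(2,1)])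 (.cons (.keep [5,6] (.node (.cons (.leaf 1 [(5,1)]) (.cons (.leaf 1 [(2,1),(6,1)]) (.cons (.leaf 1 [(4,1),(1,1)]) (.cons (.leaf 1 [(6,1)]) .nil)))))) (.cons (.leaf 1 []) .nil)))))) .nil)))))) (.cons (.keep [3] (.node (.cons (.keep [4,5] (.node (.cons (.leaf 1 [(5,1),(6,2)]) (.cons (.leaf 1 [(2,1),(6,2)]) (.cons (.leaf 1 [(1,1),(6,2),(5,1)]) (.cons (.leaf 1 [(6,2)]) .nil)))))) (.cons (.keep [3,5] (.node (.cons (.leaf 1 [(6,2)]) (.cons (.leaf 1 [(2,1),(5,1),(6,2)]) (.cons (.leaf 1 [(6,2),(1,1)]) (.cons (.leaf 1 [(6,2),(5,1)]) .nil)))))) (.cons (.keep [1,4,5] (.node (.cons (.leaf 1 [(7,1),(6,2)]) (.cons (.leaf 1 [(5,1),(2,3),(3,2)]) (.cons (.leaf 1 [(7,1),(6,2),(1,1)]) (.cons (.leaf 1 [(5,1),(6,2)]) .nil)))))) (.cons (.keep [1,5] (.node (.cons (.keep [4] (.node (.cons (.leaf 1 [(5,1)]) (.cons (.leaf 1 [(2,1)])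 (.cons (.leaf 1 [(5,1),(1,1)]) (.cons (.leaf 1 []) .nil)))))) (.cons (.leaf 1 [(2,2),(5,1),(3,1)]) (.cons (.keep [4] (.node (.cons (.leaf 1 [(5,1)]) (.cons (.leaf 1 [(2,1)]) (.cons (.leaf 1 [(5,1),(1,1)]) (.cons (.leaf 1 []) .nil)))))) (.cons (.leaf 1 [(6,1)]) .nil)))))) .nil)))))) (.cons (.leaf 1 [(4,1)]) (.cons (.leaf 1 []) .nil))))))),
  (10, 13, (.keep [] (.node (.cons (.keep [4] (.node (.cons (.leaf 1 [(6,1)]) (.cons (.leaf 1 [(6,1),(3,1)]) (.cons (.leaf 1 [(6,1),(3,1)]) (.cons (.leaf 1 [(5,1)]) (.cons (.leaf 1 [(5,1)]) (.cons (.leaf 1 []) .nil)))))))) (.cons (.keep [3,5] (.node (.cons (.leaf 1 []) (.cons (.leaf 1 [(3,1)]) (.cons (.leaf 1 [(3,1)]) (.cons (.leaf 1 [(6,1),(5,1)]) (.cons (.leaf 1 [(3,1),(5,1),(7,1)]) (.cons (.leaf 1 [(6,1)]) .nil)))))))) (.cons (.keep [3,4] (.node (.cons (.leaf 1 [(7,1)])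 (.cons (.leaf 1 [(7,1),(3,1)]) (.cons (.leaf 1 [(7,1),(3,1)]) (.cons (.leaf 1 [(6,1),(5,1)]) (.cons (.leaf 1 [(3,1),(5,1)]) (.cons (.leaf 1 [(6,1)]) .nil)))))))) (.cons (.leaf 1 [(5,1)]) (.cons (.leaf 1 [(5,1)]) (.cons (.leaf 1 []) .nil))))))))),
  (10, 14, (.keep [] (.node (.cons (.leaf 1 []) (.cons (.leaf 1 [(3,1)]) (.cons (.leaf 1 [(3,1)]) (.cons (.leaf 1 [(5,1)]) (.cons (.leaf 1 [(5,1)]) (.cons (.leaf 1 []) .nil))))))))),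
  (10, 15, (.keep [] (.node (.cons (.leaf 1 [(4,1)]) (.cons (.leaf 1 []) (.cons (.leaf 1 [(4,1)]) (.cons (.leaf 1 [(4,1)]) (.cons (.leaf 1 [(6,1)]) (.cons (.leaf 1 [(6,1)]) (.cons (.leaf 1 [(6,1)]) (.cons (.leaf 1 []) .nil))))))))))),
  (11, 8, (.keep [] (.node (.cons (.keep [] (.node (.cons (.keep [] (.node (.cons (.keep [] (.node (.cons (.leaf 1 [(3,1)]) (.cons (.leaf 1 [(3,1)]) (.cons (.leaf 1 []) .nil))))) (.cons (.leaf 1 [(1,1)]) (.cons (.keep [] (.node (.cons (.leaf 1 [(3,1)]) (.cons (.leaf 1 [(3,1)]) (.cons (.leaf 1 []) .nil))))) .nil))))) (.cons (.keep [] (.node (.cons (.keep [] (.node (.cons (.leaf 1 [(3,1)]) (.cons (.leaf 1 [(3,1)]) (.cons (.leaf 1 []) .nil))))) (.cons (.leaf 1 [(1,1)]) (.cons (.keep [] (.node (.cons (.leaf 1 [(3,1)]) (.cons (.leaf 1 [(3,1)]) (.cons (.leaf 1 []) .nil))))) .nil)))))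 (.cons (.keep [] (.node (.cons (.keep [] (.node (.cons (.leaf 1 [(3,1)]) (.cons (.leaf 1 [(3,1)]) (.cons (.leaf 1 []) .nil))))) (.cons (.leaf 1 [(1,1)]) (.cons (.keep [] (.node (.cons (.leaf 1 [(3,1)]) (.cons (.leaf 1 [(3,1)]) (.cons (.leaf 1 []) .nil))))) .nil))))) .nil))))) (.cons (.keep [] (.node (.cons (.keep [] (.node (.cons (.keep [] (.node (.cons (.keep [3] (.node (.cons (.leaf 1 [(5,1),(3,1)]) (.cons (.leaf 1 [(3,1),(5,1)]) (.cons (.leaf 1 [(5,1)]) .nil))))) (.cons (.leaf 1 [(1,1),(3,1)]) (.cons (.keep [] (.node (.cons (.leaf 1 [(3,1)]) (.cons (.leaf 1 [(3,1)]) (.cons (.leaf 1 []) .nil))))) .nil))))) (.cons (.keep [3] (.node (.cons (.keep [3,5] (.node (.cons (.leaf 1 [(5,1),(3,1)]) (.cons (.leaf 1 [(3,1),(1,1),(6,1)]) (.cons (.leaf 1 [(5,1)]) .nil))))) (.cons (.leaf 1 [(1,1),(3,1)]) (.cons (.keep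 [] (.node (.cons (.leaf 1 [(3,1)]) (.cons (.leaf 1 [(3,1)]) (.cons (.leaf 1 []) .nil))))) .nil))))) (.cons (.keep [] (.node (.cons (.keep [3] (.node (.cons (.leaf 1 [(5,1),(3,1)]) (.cons (.leaf 1 [(3,1),(5,1)]) (.cons (.leaf 1 [(5,1)]) .nil))))) (.cons (.leaf 1 [(1,1),(3,1)]) (.cons (.keep [] (.node (.cons (.leaf 1 [(3,1)]) (.cons (.leaf 1 [(3,1)]) (.cons (.leaf 1 []) .nil))))) .nil))))) .nil))))) (.cons (.keep [] (.node (.cons (.keep [] (.node (.cons (.keep [3] (.node (.cons (.keep [3,5] (.node (.cons (.leaf 1 [(2,1),(5,1),(3,1)]) (.cons (.leaf 1 [(3,1),(5,1),(6,1)]) (.cons (.leaf 1 [(6,1),(5,1)]) .nil))))) (.cons (.leaf 1 [(1,1),(5,1),(3,1)]) (.cons (.keep [5] (.node (.cons (.leaf 1 [(2,1),(3,1)]) (.cons (.leaf 1 [(3,1),(5,1)]) (.cons (.leaf 1 [(5,1)]) .nil))))) .nil))))) (.cons (.keep [3] (.node (.cons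 (.keep [3,5] (.node (.cons (.leaf 1 [(6,1),(5,1),(3,1)]) (.cons (.leaf 1 [(3,1),(1,1),(6,2)]) (.cons (.leaf 1 [(6,1),(5,1)]) .nil))))) (.cons (.leaf 1 [(1,1),(5,1),(3,1)]) (.cons (.keep [5] (.node (.cons (.leaf 1 [(2,1),(3,1)]) (.cons (.leaf 1 [(3,1),(5,1)]) (.cons (.leaf 1 [(5,1)]) .nil))))) .nil))))) (.cons (.keep [] (.node (.cons (.keep [3] (.node (.cons (.leaf 1 [(5,1),(3,1)]) (.cons (.leaf 1 [(3,1),(5,1)]) (.cons (.leaf 1 [(5,1)]) .nil))))) (.cons (.leaf 1 [(1,1),(3,1)]) (.cons (.keep [] (.node (.cons (.leaf 1 [(3,1)]) (.cons (.leaf 1 [(3,1)]) (.cons (.leaf 1 []) .nil))))) .nil))))) .nil))))) (.cons (.keep [] (.node (.cons (.keep [] (.node (.cons (.keep [3] (.node (.cons (.leaf 1 [(5,1),(3,1)]) (.cons (.leaf 1 [(3,1),(5,1)]) (.cons (.leaf 1 [(5,1)]) .nil))))) (.cons (.leaf 1 [(1,1),(3,1)]) (.cons (.keep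 [] (.node (.cons (.leaf 1 [(3,1)]) (.cons (.leaf 1 [(3,1)]) (.cons (.leaf 1 []) .nil))))) .nil))))) (.cons (.keep [3] (.node (.cons (.keep [3,5] (.node (.cons (.leaf 1 [(5,1),(3,1)]) (.cons (.leaf 1 [(3,1),(1,1),(6,1)]) (.cons (.leaf 1 [(5,1)]) .nil))))) (.cons (.leaf 1 [(1,1),(3,1)]) (.cons (.keep [] (.node (.cons (.leaf 1 [(3,1)]) (.cons (.leaf 1 [(3,1)]) (.cons (.leaf 1 []) .nil))))) .nil))))) (.cons (.keep [] (.node (.cons (.keep [3] (.node (.cons (.leaf 1 [(5,1),(3,1)]) (.cons (.leaf 1 [(3,1),(5,1)]) (.cons (.leaf 1 [(5,1)]) .nil))))) (.cons (.leaf 1 [(1,1),(3,1)]) (.cons (.keep [] (.node (.cons (.leaf 1 [(3,1)]) (.cons (.leaf 1 [(3,1)]) (.cons (.leaf 1 []) .nil))))) .nil))))) .nil))))) (.cons (.keep [] (.node (.cons (.keep [3] (.node (.cons (.leaf 1 [(5,1),(3,1)]) (.cons (.leaf 1 [(3,1),(5,1)]) (.cons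 (.leaf 1 [(5,1)]) .nil))))) (.cons (.leaf 1 [(1,1),(3,1)]) (.cons (.keep [] (.node (.cons (.leaf 1 [(3,1)]) (.cons (.leaf 1 [(3,1)]) (.cons (.leaf 1 []) .nil))))) .nil))))) .nil))))) (.cons (.keep [] (.node (.cons (.keep [] (.node (.cons (.leaf 1 [(3,1)]) (.cons (.leaf 1 [(3,1)]) (.cons (.leaf 1 []) .nil))))) (.cons (.leaf 1 [(1,1)]) (.cons (.keep [] (.node (.cons (.leaf 1 [(3,1)]) (.cons (.leaf 1 [(3,1)]) (.cons (.leaf 1 []) .nil))))) .nil))))) .nil))))) (.cons (.leaf 1 []) .nil)))))),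
  (11, 9, (.keep [] (.node (.cons (.leaf 1 []) (.cons (.leaf 1 [(4,1)]) (.cons (.keep [5] (.node (.cons (.leaf 1 []) (.cons (.leaf 1 [(4,1)]) (.cons (.keep [6] (.node (.cons (.leaf 1 []) (.cons (.leaf 1 [(4,1)]) (.cons (.leaf 1 [(6,1)]) (.cons (.leaf 1 [(6,1),(4,1)]) (.cons (.leaf 1 [(5,1)]) (.cons (.leaf 1 []) .nil)))))))) (.cons (.keep [4,6] (.node (.cons (.leaf 1 [(6,1)]) (.cons (.leaf 1 [(6,1),(4,1)]) (.cons (.leaf 1 [(7,1),(6,1)]) (.cons (.leaf 1 [(7,1),(6,1),(4,1)]) (.cons (.leaf 1 [(6,1),(5,1)]) (.cons (.leaf 1 [(6,1)]) .nil)))))))) (.cons (.leaf 1 [(5,1)]) (.cons (.leaf 1 []) .nil)))))))) (.cons (.keep [4] (.node (.cons (.leaf 1 [(6,1)]) (.cons (.leaf 1 [(6,1),(4,1)]) (.cons (.keep [6] (.node (.cons (.leaf 1 [(6,1)]) (.cons (.leaf 1 [(6,1),(4,1)]) (.cons (.leaf 1 []) (.cons (.leaf 1 [(4,1)]) (.cons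 (.leaf 1 [(6,1),(5,1)]) (.cons (.leaf 1 [(6,1)]) .nil)))))))) (.cons (.keep [4,6] (.node (.cons (.leaf 1 [(7,1),(6,1)]) (.cons (.leaf 1 [(7,1),(6,1),(4,1)]) (.cons (.leaf 1 [(6,1)]) (.cons (.leaf 1 [(6,1),(4,1)]) (.cons (.leaf 1 [(7,1),(6,1),(5,1)]) (.cons (.leaf 1 [(7,1),(6,1)]) .nil)))))))) (.cons (.leaf 1 [(6,1),(5,1)]) (.cons (.leaf 1 [(6,1)]) .nil)))))))) (.cons (.leaf 1 [(5,1)]) (.cons (.leaf 1 []) .nil))))))))),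
  (11, 10, (.keep [] (.node (.cons (.keep [] (.node (.cons (.leaf 1 [(2,1)]) (.cons (.leaf 1 [(3,1)]) (.cons (.leaf 1 []) (.cons (.leaf 1 [(3,1)]) (.cons (.leaf 1 [(2,1)]) (.cons (.leaf 1 []) .nil)))))))) (.cons (.keep [4] (.node (.cons (.leaf 1 [(6,1),(2,1)]) (.cons (.leaf 1 [(3,1),(6,1)]) (.cons (.leaf 1 [(6,1)]) (.cons (.leaf 1 [(3,1),(6,1)]) (.cons (.leaf 1 [(6,1),(2,1)]) (.cons (.leaf 1 [(6,1)]) .nil)))))))) (.cons (.leaf 1 []) (.cons (.leaf 1 [(4,1)]) (.cons (.leaf 1 [(5,1)]) (.cons (.leaf 1 []) .nil))))))))),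
  (11, 11, (.keep [] (.node (.cons (.leaf 1 []) (.cons (.leaf 1 [(4,1)]) (.cons (.leaf 1 [(4,1)]) (.cons (.leaf 1 [(5,1)]) (.cons (.leaf 1 []) (.cons (.leaf 1 [(5,1)]) (.cons (.leaf 1 [(6,1)]) (.cons (.leaf 1 [(6,1)]) (.cons (.leaf 1 []) .nil))))))))))))]

theorem d8_ok : (d8.all fun c => ok c.1 c.2.1 c.2.2) = true := by decide +kernel

def d9 : List (ℕ × ℕ × T) := [
  (11, 12, (.keep [0] (.node (.cons (.keep [2,3,5] (.node (.cons (.leaf 1 [(8,1),(6,1)]) (.cons (.keep [3] (.node (.cons (.leaf 1 [(6,1)]) (.cons (.leaf 1 [(3,1)]) (.cons (.leaf 1 [(1,1),(6,1)]) (.cons (.leaf 1 [(3,1)]) (.cons (.leaf 1 [(6,1),(1,1)]) (.cons (.leaf 1 []) .nil)))))))) (.cons (.leaf 1 [(1,1)]) (.cons (.leaf 1 [(1,1)]) (.cons (.leaf 1 [(8,1),(5,1),(1,1)]) (.cons (.keep [7,8] (.node (.cons (.keep [2,3,7] (.node (.cons (.leaf 1 [(2,1)])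 (.cons (.leaf 1 [(2,1)]) (.cons (.leaf 1 [(7,1),(6,1)]) (.cons (.leaf 1 [(3,1),(8,1)]) (.cons (.leaf 2 [(7,1),(8,1),(2,1)]) (.cons (.leaf 1 [(8,1)]) .nil)))))))) (.cons (.leaf 1 [(3,1)]) (.cons (.leaf 1 [(1,1),(7,1)]) (.cons (.leaf 1 [(3,1)]) (.cons (.keep [6,7] (.node (.cons (.leaf 2 [(2,1),(7,1)]) (.cons (.leaf 1 [(3,1),(7,1)]) (.cons (.leaf 1 [(6,1)]) (.cons (.leaf 1 [(3,1),(7,1)]) (.cons (.leaf 1 [(5,1),(2,1)]) (.cons (.leaf 1 [(7,1)]) .nil)))))))) (.cons (.leaf 1 []) .nil)))))))) .nil)))))))) (.cons (.keep [2,4] (.node (.cons (.leaf 1 [(6,1)]) (.cons (.keep [3,7] (.node (.cons (.leaf 1 [(6,1),(7,1)]) (.cons (.leaf 1 [(3,1),(7,1)]) (.cons (.leaf 1 [(1,1)]) (.cons (.leaf 1 [(1,1)]) (.cons (.leaf 1 [(6,1),(7,1),(1,1)]) (.cons (.leaf 1 [(7,1)]) .nil)))))))) (.cons (.leaf 1 [(1,1),(6,1)]) (.cons (.leaf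 1 [(1,1),(7,1)]) (.cons (.leaf 1 [(5,1),(1,1)]) (.cons (.keep [7] (.node (.cons (.keep [3,5,6] (.node (.cons (.leaf 1 [(7,1),(2,1)]) (.cons (.leaf 1 [(8,1),(2,1)]) (.cons (.leaf 1 [(7,1)]) (.cons (.leaf 1 [(3,1)]) (.cons (.leaf 2 [(8,1),(6,1),(2,1)]) (.cons (.leaf 1 []) .nil)))))))) (.cons (.leaf 1 [(3,1),(6,1)]) (.cons (.leaf 1 [(1,1)]) (.cons (.leaf 1 [(1,1)]) (.cons (.keep [5] (.node (.cons (.leaf 1 [(6,1),(2,1)]) (.cons (.leaf 1 [(3,1)]) (.cons (.leaf 1 [(6,1)]) (.cons (.leaf 1 [(3,1)]) (.cons (.leaf 1 [(6,1),(2,1)]) (.cons (.leaf 1 []) .nil)))))))) (.cons (.leaf 1 [(6,1)]) .nil)))))))) .nil)))))))) (.cons (.keep [3,5,6] (.node (.cons (.keep [3,5] (.node (.cons (.leaf 1 [(7,1)]) (.cons (.keep [3] (.node (.cons (.leaf 1 [(6,2)]) (.cons (.leaf 1 [(4,1),(3,2)]) (.cons (.leaf 1 [(1,1),(6,2)]) (.cons (.leaf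 1 [(3,1),(6,1)]) (.cons (.leaf 1 [(6,2),(1,1)]) (.cons (.leaf 1 [(6,1)]) .nil)))))))) (.cons (.leaf 1 [(1,1),(7,1)]) (.cons (.leaf 1 [(1,1),(3,1)]) (.cons (.leaf 1 [(7,1),(1,1)]) (.cons (.keep [6,7] (.node (.cons (.keep [2,3,7] (.node (.cons (.leaf 1 [(2,1)]) (.cons (.leaf 1 [(2,1)]) (.cons (.leaf 1 [(7,1),(6,1)]) (.cons (.leaf 1 [(3,1),(8,1)]) (.cons (.leaf 2 [(7,1),(8,1),(2,1)]) (.cons (.leaf 1 [(8,1)]) .nil)))))))) (.cons (.leaf 1 [(3,1)]) (.cons (.leaf 1 [(1,1),(7,1)]) (.cons (.leaf 1 [(3,1)]) (.cons (.keep [6,7] (.node (.cons (.leaf 2 [(2,1),(7,1)]) (.cons (.leaf 1 [(3,1),(7,1)]) (.cons (.leaf 1 [(6,1)]) (.cons (.leaf 1 [(3,1),(7,1)]) (.cons (.leaf 1 [(5,1),(2,1)]) (.cons (.leaf 1 [(7,1)]) .nil)))))))) (.cons (.leaf 1 []) .nil)))))))) .nil)))))))) (.cons (.keep [4] (.node (.cons (.leaf 1 []) (.cons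 (.keep [3,6] (.node (.cons (.leaf 1 [(7,1),(6,2)]) (.cons (.leaf 1 [(7,1),(3,2),(4,1)]) (.cons (.leaf 1 [(1,1),(6,1)]) (.cons (.leaf 1 [(3,1),(4,1)]) (.cons (.leaf 1 [(7,1),(6,2),(1,1)]) (.cons (.leaf 1 [(7,1),(6,1)]) .nil)))))))) (.cons (.leaf 1 [(1,1)]) (.cons (.leaf 1 [(3,1),(1,1),(6,1)]) (.cons (.leaf 1 [(1,1)]) (.cons (.keep [6] (.node (.cons (.keep [3,5,6] (.node (.cons (.leaf 1 [(7,1),(2,1)]) (.cons (.leaf 1 [(8,1),(2,1)]) (.cons (.leaf 1 [(7,1)]) (.cons (.leaf 1 [(3,1)]) (.cons (.leaf 2 [(8,1),(6,1),(2,1)]) (.cons (.leaf 1 []) .nil)))))))) (.cons (.leaf 1 [(3,1),(6,1)]) (.cons (.leaf 1 [(1,1)]) (.cons (.leaf 1 [(1,1)]) (.cons (.keep [5] (.node (.cons (.leaf 1 [(6,1),(2,1)]) (.cons (.leaf 1 [(3,1)]) (.cons (.leaf 1 [(6,1)]) (.cons (.leaf 1 [(3,1)]) (.cons (.leaf 1 [(6,1),(2,1)]) (.cons (.leaf 1 [])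 .nil)))))))) (.cons (.leaf 1 [(6,1)]) .nil)))))))) .nil)))))))) (.cons (.keep [3,5,8] (.node (.cons (.leaf 1 [(7,1),(8,1)]) (.cons (.keep [3] (.node (.cons (.leaf 1 [(6,1)]) (.cons (.leaf 1 [(3,1)]) (.cons (.leaf 1 [(1,1),(6,1)]) (.cons (.leaf 1 [(3,1)]) (.cons (.leaf 1 [(6,1),(1,1)]) (.cons (.leaf 1 []) .nil)))))))) (.cons (.leaf 1 [(1,1)]) (.cons (.leaf 1 [(1,1)]) (.cons (.leaf 1 [(7,1),(5,1),(1,1)]) (.cons (.keep [6,7] (.node (.cons (.keep [2,3,7] (.node (.cons (.leaf 1 [(2,1)]) (.cons (.leaf 1 [(2,1)]) (.cons (.leaf 1 [(7,1),(6,1)]) (.cons (.leaf 1 [(3,1),(8,1)]) (.cons (.leaf 2 [(7,1),(8,1),(2,1)]) (.cons (.leaf 1 [(8,1)]) .nil)))))))) (.cons (.leaf 1 [(3,1)]) (.cons (.leaf 1 [(1,1),(7,1)]) (.cons (.leaf 1 [(3,1)]) (.cons (.keep [6,7] (.node (.cons (.leaf 2 [(2,1),(7,1)]) (.cons (.leaf 1 [(3,1),(7,1)])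 (.cons (.leaf 1 [(6,1)]) (.cons (.leaf 1 [(3,1),(7,1)]) (.cons (.leaf 1 [(5,1),(2,1)]) (.cons (.leaf 1 [(7,1)]) .nil)))))))) (.cons (.leaf 1 []) .nil)))))))) .nil)))))))) (.cons (.keep [4,8] (.node (.cons (.leaf 1 [(7,1)]) (.cons (.keep [3,6] (.node (.cons (.leaf 1 [(6,1),(7,1)]) (.cons (.leaf 1 [(3,1),(7,1)]) (.cons (.leaf 1 [(1,1)]) (.cons (.leaf 1 [(1,1)]) (.cons (.leaf 1 [(6,1),(7,1),(1,1)]) (.cons (.leaf 1 [(7,1)]) .nil)))))))) (.cons (.leaf 1 [(1,1),(6,1)]) (.cons (.leaf 1 [(1,1),(6,1)]) (.cons (.leaf 1 [(5,1),(1,1)]) (.cons (.keep [6] (.node (.cons (.keep [3,5,6] (.node (.cons (.leaf 1 [(7,1),(2,1)]) (.cons (.leaf 1 [(8,1),(2,1)]) (.cons (.leaf 1 [(7,1)]) (.cons (.leaf 1 [(3,1)]) (.cons (.leaf 2 [(8,1),(6,1),(2,1)]) (.cons (.leaf 1 []) .nil)))))))) (.cons (.leaf 1 [(3,1),(6,1)]) (.cons (.leaf 1 [(1,1)])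 (.cons (.leaf 1 [(1,1)]) (.cons (.keep [5] (.node (.cons (.leaf 1 [(6,1),(2,1)]) (.cons (.leaf 1 [(3,1)]) (.cons (.leaf 1 [(6,1)]) (.cons (.leaf 1 [(3,1)]) (.cons (.leaf 1 [(6,1),(2,1)]) (.cons (.leaf 1 []) .nil)))))))) (.cons (.leaf 1 [(6,1)]) .nil)))))))) .nil)))))))) (.cons (.leaf 1 [(1,1),(5,2),(7,1)]) (.cons (.keep [6,7] (.node (.cons (.keep [2,3,7] (.node (.cons (.leaf 1 [(2,1)]) (.cons (.leaf 1 [(2,1)]) (.cons (.leaf 1 [(7,1),(6,1)]) (.cons (.leaf 1 [(3,1),(8,1)]) (.cons (.leaf 2 [(7,1),(8,1),(2,1)]) (.cons (.leaf 1 [(8,1)]) .nil)))))))) (.cons (.leaf 1 [(3,1)]) (.cons (.leaf 1 [(1,1),(7,1)]) (.cons (.leaf 1 [(3,1)]) (.cons (.keep [6,7] (.node (.cons (.leaf 2 [(2,1),(7,1)]) (.cons (.leaf 1 [(3,1),(7,1)]) (.cons (.leaf 1 [(6,1)]) (.cons (.leaf 1 [(3,1),(7,1)]) (.cons (.leaf 1 [(5,1),(2,1)]) (.cons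 (.leaf 1 [(7,1)]) .nil)))))))) (.cons (.leaf 1 []) .nil)))))))) .nil)))))))) (.cons (.keep [4] (.node (.cons (.keep [5,6] (.node (.cons (.leaf 1 [(6,1),(7,1)]) (.cons (.leaf 1 [(3,2),(7,2)]) (.cons (.leaf 1 [(1,2)]) (.cons (.leaf 1 [(1,2)]) (.cons (.leaf 1 [(6,1),(7,1),(1,1)]) (.cons (.leaf 1 [(7,2)]) .nil)))))))) (.cons (.keep [2,4,6] (.node (.cons (.leaf 1 [(8,1)]) (.cons (.leaf 1 [(3,2),(7,1),(8,2)]) (.cons (.leaf 1 [(1,2),(6,1)]) (.cons (.leaf 1 [(1,2),(7,1)]) (.cons (.leaf 1 [(8,1),(1,1)]) (.cons (.leaf 1 [(8,2),(7,1)]) .nil)))))))) (.cons (.leaf 1 [(6,2),(1,1)]) (.cons (.leaf 1 [(6,2),(1,1),(4,1)]) (.cons (.leaf 1 [(1,1),(5,2)]) (.cons (.keep [6] (.node (.cons (.keep [3,5,6] (.node (.cons (.leaf 1 [(7,1),(2,1)]) (.cons (.leaf 1 [(8,1),(2,1)]) (.cons (.leaf 1 [(7,1)]) (.cons (.leaf 1 [(3,1)]) (.cons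 (.leaf 2 [(8,1),(6,1),(2,1)]) (.cons (.leaf 1 []) .nil)))))))) (.cons (.leaf 1 [(3,1),(6,1)]) (.cons (.leaf 1 [(1,1)]) (.cons (.leaf 1 [(1,1)]) (.cons (.keep [5] (.node (.cons (.leaf 1 [(6,1),(2,1)]) (.cons (.leaf 1 [(3,1)]) (.cons (.leaf 1 [(6,1)]) (.cons (.leaf 1 [(3,1)]) (.cons (.leaf 1 [(6,1),(2,1)]) (.cons (.leaf 1 []) .nil)))))))) (.cons (.leaf 1 [(6,1)]) .nil)))))))) .nil)))))))) (.cons (.leaf 1 [(5,1)]) (.cons (.leaf 1 []) .nil))))))))),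
  (11, 13, (.keep [] (.node (.cons (.leaf 1 []) (.cons (.leaf 1 [(4,1)]) (.cons (.leaf 1 [(4,1)]) (.cons (.keep [5] (.node (.cons (.leaf 1 []) (.cons (.leaf 1 [(4,1)]) (.cons (.leaf 1 [(4,1)]) (.cons (.leaf 1 [(7,1)]) (.cons (.leaf 1 [(7,1),(4,1)]) (.cons (.leaf 1 [(7,1),(4,1)]) (.cons (.leaf 1 [(6,1)]) (.cons (.leaf 1 [(6,1)]) (.cons (.leaf 1 []) .nil))))))))))) (.cons (.keep [4,6] (.node (.cons (.leaf 1 [(7,1)]) (.cons (.leaf 1 [(7,1),(4,1)]) (.cons (.leaf 1 [(7,1),(4,1)]) (.cons (.leaf 1 []) (.cons (.leaf 1 [(4,1)]) (.cons (.leaf 1 [(4,1)]) (.cons (.leaf 1 [(7,1),(6,1)]) (.cons (.leaf 1 [(1,1),(6,2),(8,1)]) (.cons (.leaf 1 [(7,1)]) .nil))))))))))) (.cons (.keep [4,5] (.node (.cons (.leaf 1 [(7,1)]) (.cons (.leaf 1 [(4,2)]) (.cons (.leaf 1 [(7,1),(4,1)]) (.cons (.leaf 1 [(8,1)]) (.cons (.leaf 1 [(8,2),(1,1)])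 (.cons (.leaf 1 [(8,1),(4,1)]) (.cons (.leaf 1 [(7,1),(6,1)]) (.cons (.leaf 1 [(1,1),(6,2)]) (.cons (.leaf 1 [(7,1)]) .nil))))))))))) (.cons (.leaf 1 [(6,1)]) (.cons (.leaf 1 [(6,1)]) (.cons (.leaf 1 []) .nil)))))))))))),
  (11, 14, (.keep [] (.node (.cons (.keep [3,6] (.node (.cons (.leaf 1 [(2,1)]) (.cons (.leaf 1 [(7,1)]) (.cons (.leaf 1 [(3,1)]) (.cons (.leaf 1 []) (.cons (.leaf 2 [(1,1),(8,1)]) (.cons (.leaf 1 [(3,1)]) (.cons (.leaf 1 [(2,1)]) (.cons (.leaf 2 [(8,1),(1,1)]) (.cons (.leaf 1 []) .nil))))))))))) (.cons (.keep [2,4,6] (.node (.cons (.leaf 1 [(7,1)]) (.cons (.leaf 2 [(9,1),(8,1)]) (.cons (.leaf 1 [(3,1),(8,1)]) (.cons (.leaf 1 [(1,1)]) (.cons (.leaf 1 [(1,1)]) (.cons (.leaf 1 [(1,1)]) (.cons (.leaf 1 [(6,1),(1,1)]) (.cons (.leaf 2 [(9,1),(8,1),(1,1)]) (.cons (.leaf 1 [(8,1)]) .nil)))))))))))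 (.cons (.keep [2,4,5] (.node (.cons (.leaf 2 [(8,1),(9,1)]) (.cons (.leaf 1 [(7,1)]) (.cons (.leaf 1 [(3,1),(8,1)]) (.cons (.leaf 1 [(8,1)]) (.cons (.leaf 1 [(1,1),(4,1)]) (.cons (.leaf 1 [(3,1),(8,1)]) (.cons (.leaf 2 [(8,1),(9,1),(1,1)]) (.cons (.leaf 1 [(6,1),(1,1)]) (.cons (.leaf 1 [(8,1)]) .nil))))))))))) (.cons (.leaf 1 []) (.cons (.leaf 1 [(4,1)]) (.cons (.leaf 1 [(4,1)]) (.cons (.leaf 1 [(6,1)]) (.cons (.leaf 1 [(6,1)]) (.cons (.leaf 1 []) .nil)))))))))))),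
  (11, 15, (.keep [] (.node (.cons (.leaf 1 []) (.cons (.leaf 1 [(4,1)]) (.cons (.leaf 1 [(4,1)]) (.cons (.leaf 1 [(4,1)]) (.cons (.leaf 1 [(5,1)]) (.cons (.leaf 1 []) (.cons (.leaf 1 [(5,1)]) (.cons (.leaf 1 [(5,1)]) (.cons (.leaf 1 [(7,1)]) (.cons (.leaf 1 [(7,1)]) (.cons (.leaf 1 [(7,1)]) (.cons (.leaf 1 []) .nil))))))))))))))),
  (12, 12, (.keep [] (.node (.cons (.leaf 1 []) (.cons (.leaf 1 [(3,1)]) (.cons (.leaf 1 [(4,1)]) (.cons (.leaf 1 []) .nil))))))),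
  (12, 13, (.keep [] (.node (.cons (.leaf 1 [(4,1)]) (.cons (.leaf 1 []) (.cons (.leaf 1 [(4,1)]) (.cons (.leaf 1 [(5,1)]) (.cons (.leaf 1 [(5,1)]) (.cons (.leaf 1 []) .nil))))))))),
  (12, 14, (.keep [] (.node (.cons (.leaf 1 [(4,1)]) (.cons (.leaf 1 []) (.cons (.leaf 1 [(4,1)]) (.cons (.leaf 1 [(5,1)]) (.cons (.leaf 1 [(5,1)]) (.cons (.leaf 1 []) .nil))))))))),
  (12, 15, (.keep [] (.node (.cons (.leaf 1 [(5,1)]) (.cons (.leaf 1 [(5,1)]) (.cons (.leaf 1 []) (.cons (.leaf 1 [(5,1)]) (.cons (.leaf 1 [(6,1)]) (.cons (.leaf 1 [(6,1)]) (.cons (.leaf 1 [(6,1)]) (.cons (.leaf 1 []) .nil))))))))))),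
  (13, 12, (.keep [] (.node (.cons (.keep [5] (.node (.cons (.keep [5,6] (.node (.cons (.leaf 2 [(6,1),(7,1)]) (.cons (.leaf 1 [(3,1)]) (.cons (.leaf 1 []) (.cons (.leaf 1 [(3,1)]) (.cons (.leaf 1 [(2,1)]) (.cons (.leaf 1 []) .nil)))))))) (.cons (.keep [] (.node (.cons (.leaf 1 [(2,1)]) (.cons (.leaf 1 [(3,1)]) (.cons (.leaf 1 []) (.cons (.leaf 1 [(3,1)]) (.cons (.leaf 1 [(2,1)]) (.cons (.leaf 1 []) .nil)))))))) (.cons (.leaf 1 [(6,1),(1,1)]) (.cons (.leaf 1 [(6,1),(1,1)]) (.cons (.leaf 1 [(6,1),(5,1),(1,1)]) (.cons (.keep [] (.node (.cons (.leaf 1 [(2,1)]) (.cons (.leaf 1 [(3,1)]) (.cons (.leaf 1 []) (.cons (.leaf 1 [(3,1)]) (.cons (.leaf 1 [(2,1)]) (.cons (.leaf 1 []) .nil)))))))) .nil)))))))) (.cons (.keep [4] (.node (.cons (.keep [5,6] (.node (.cons (.leaf 2 [(6,1),(7,1)]) (.cons (.leaf 1 [(3,1),(7,1)])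 (.cons (.leaf 1 [(6,1),(1,1)]) (.cons (.leaf 1 [(3,1),(7,1)]) (.cons (.leaf 2 [(6,1),(7,1),(1,1)]) (.cons (.leaf 1 [(7,1)]) .nil)))))))) (.cons (.keep [6] (.node (.cons (.leaf 1 [(2,1),(6,1)]) (.cons (.leaf 1 [(3,1),(6,1)]) (.cons (.leaf 1 [(6,1)]) (.cons (.leaf 1 [(3,1),(6,1)]) (.cons (.leaf 1 [(2,1),(6,1)]) (.cons (.leaf 1 [(6,1)]) .nil)))))))) (.cons (.leaf 1 [(1,1)]) (.cons (.leaf 1 [(1,1)]) (.cons (.leaf 1 [(5,1),(1,1)]) (.cons (.keep [6] (.node (.cons (.leaf 1 [(2,1),(6,1)]) (.cons (.leaf 1 [(3,1),(6,1)]) (.cons (.leaf 1 [(6,1)]) (.cons (.leaf 1 [(3,1),(6,1)]) (.cons (.leaf 1 [(2,1),(6,1)]) (.cons (.leaf 1 [(6,1)]) .nil)))))))) .nil)))))))) (.cons (.leaf 1 []) (.cons (.leaf 1 [(4,1)]) (.cons (.leaf 1 [(5,1)]) (.cons (.leaf 1 []) .nil))))))))),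
  (13, 13, (.keep [] (.node (.cons (.leaf 1 []) (.cons (.leaf 1 [(4,1)]) (.cons (.leaf 1 [(4,1)]) (.cons (.leaf 1 [(5,1)]) (.cons (.leaf 1 []) (.cons (.leaf 1 [(5,1)]) (.cons (.leaf 1 [(6,1)]) (.cons (.leaf 1 [(6,1)]) (.cons (.leaf 1 []) .nil))))))))))))]

theorem d9_ok : (d9.all fun c => ok c.1 c.2.1 c.2.2) = true := by decide +kernel

def d10 : List (ℕ × ℕ × T) := [
  (13, 14, (.keep [] (.node (.cons (.keep [2,5] (.node (.cons (.leaf 1 [(7,1)]) (.cons (.leaf 1 [(2,1)]) (.cons (.leaf 1 [(3,1)]) (.cons (.leaf 2 [(8,1),(1,1)]) (.cons (.leaf 1 []) (.cons (.leaf 1 [(3,1)]) (.cons (.leaf 2 [(8,1),(1,1)]) (.cons (.leaf 1 [(2,1)]) (.cons (.leaf 1 []) .nil))))))))))) (.cons (.keep [4,6] (.node (.cons (.leaf 2 [(7,1)]) (.cons (.leaf 2 [(8,1),(7,1)]) (.cons (.leaf 1 [(3,1),(7,1)]) (.cons (.leaf 1 [(5,1),(1,1)])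 (.cons (.leaf 1 [(7,1)]) (.cons (.leaf 1 [(3,1),(7,1)]) (.cons (.leaf 1 [(6,1),(1,1)]) (.cons (.leaf 2 [(8,1),(7,1),(1,1)]) (.cons (.leaf 1 [(7,1)]) .nil))))))))))) (.cons (.keep [4,5] (.node (.cons (.leaf 2 [(7,1),(8,1)]) (.cons (.leaf 2 [(7,1)]) (.cons (.leaf 1 [(3,1),(7,1)]) (.cons (.leaf 1 [(1,1)]) (.cons (.leaf 1 [(1,1)]) (.cons (.leaf 1 [(1,1)]) (.cons (.leaf 2 [(7,1),(8,1),(1,1)]) (.cons (.leaf 1 [(6,1),(1,1)]) (.cons (.leaf 1 [(7,1)]) .nil))))))))))) (.cons (.leaf 1 [(5,1)]) (.cons (.leaf 1 []) (.cons (.leaf 1 [(5,1)]) (.cons (.leaf 1 [(6,1)]) (.cons (.leaf 1 [(6,1)]) (.cons (.leaf 1 []) .nil)))))))))))),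
  (13, 15, (.keep [] (.node (.cons (.leaf 1 []) (.cons (.leaf 1 [(4,1)]) (.cons (.leaf 1 [(4,1)]) (.cons (.leaf 1 [(4,1)]) (.cons (.leaf 1 [(6,1)]) (.cons (.leaf 1 [(6,1)]) (.cons (.leaf 1 []) (.cons (.leaf 1 [(6,1)]) (.cons (.leaf 1 [(7,1)]) (.cons (.leaf 1 [(7,1)]) (.cons (.leaf 1 [(7,1)]) (.cons (.leaf 1 []) .nil))))))))))))))),
  (14, 12, (.keep [] (.node (.cons (.keep [] (.node (.cons (.keep [] (.node (.cons (.keep [] (.node (.cons (.leaf 1 [(2,1)]) (.cons (.leaf 1 [(3,1)]) (.cons (.leaf 1 []) (.cons (.leaf 1 [(3,1)]) (.cons (.leaf 1 [(2,1)]) (.cons (.leaf 1 []) .nil)))))))) (.cons (.keep [] (.node (.cons (.leaf 1 [(2,1)]) (.cons (.leaf 1 [(3,1)]) (.cons (.leaf 1 []) (.cons (.leaf 1 [(3,1)]) (.cons (.leaf 1 [(2,1)]) (.cons (.leaf 1 []) .nil)))))))) (.cons (.keep [] (.node (.cons (.leaf 1 [(2,1)]) (.cons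 (.leaf 1 [(3,1)]) (.cons (.leaf 1 []) (.cons (.leaf 1 [(3,1)]) (.cons (.leaf 1 [(2,1)]) (.cons (.leaf 1 []) .nil)))))))) (.cons (.keep [] (.node (.cons (.leaf 1 [(2,1)]) (.cons (.leaf 1 [(3,1)]) (.cons (.leaf 1 []) (.cons (.leaf 1 [(3,1)]) (.cons (.leaf 1 [(2,1)]) (.cons (.leaf 1 []) .nil)))))))) (.cons (.keep [] (.node (.cons (.leaf 1 [(2,1)]) (.cons (.leaf 1 [(3,1)]) (.cons (.leaf 1 []) (.cons (.leaf 1 [(3,1)]) (.cons (.leaf 1 [(2,1)]) (.cons (.leaf 1 []) .nil)))))))) (.cons (.keep [] (.node (.cons (.leaf 1 [(2,1)]) (.cons (.leaf 1 [(3,1)]) (.cons (.leaf 1 []) (.cons (.leaf 1 [(3,1)]) (.cons (.leaf 1 [(2,1)]) (.cons (.leaf 1 []) .nil)))))))) .nil)))))))) (.cons (.keep [4] (.node (.cons (.keep [6] (.node (.cons (.leaf 1 [(2,1),(6,1)]) (.cons (.leaf 1 [(3,1),(6,1)]) (.cons (.leaf 1 [(6,1)]) (.cons (.leaf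 1 [(3,1),(6,1)]) (.cons (.leaf 1 [(2,1),(6,1)]) (.cons (.leaf 1 [(6,1)]) .nil)))))))) (.cons (.keep [6] (.node (.cons (.leaf 1 [(2,1),(6,1)]) (.cons (.leaf 1 [(3,1),(6,1)]) (.cons (.leaf 1 [(6,1)]) (.cons (.leaf 1 [(3,1),(6,1)]) (.cons (.leaf 1 [(2,1),(6,1)]) (.cons (.leaf 1 [(6,1)]) .nil)))))))) (.cons (.keep [1] (.node (.cons (.leaf 1 [(2,1),(6,1)]) (.cons (.leaf 1 [(3,1),(6,1)]) (.cons (.leaf 1 [(6,1)]) (.cons (.leaf 1 [(3,1),(6,1)]) (.cons (.leaf 1 [(2,1),(6,1)]) (.cons (.leaf 1 [(6,1)]) .nil)))))))) (.cons (.keep [1] (.node (.cons (.leaf 1 [(2,1),(6,1)]) (.cons (.leaf 1 [(3,1),(6,1)]) (.cons (.leaf 1 [(6,1)]) (.cons (.leaf 1 [(3,1),(6,1)]) (.cons (.leaf 1 [(2,1),(6,1)]) (.cons (.leaf 1 [(6,1)]) .nil)))))))) (.cons (.keep [1,5,6] (.node (.cons (.leaf 1 [(2,1),(8,1)]) (.cons (.leaf 1 [(3,1),(6,1),(2,1)])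 (.cons (.leaf 1 [(7,1),(6,1)]) (.cons (.leaf 1 [(7,1),(3,1),(6,1)]) (.cons (.leaf 1 [(2,1),(8,1)]) (.cons (.leaf 1 [(7,1),(6,1)]) .nil)))))))) (.cons (.keep [1,6] (.node (.cons (.leaf 1 [(2,1),(7,1)]) (.cons (.leaf 1 [(3,1),(6,1),(2,1)]) (.cons (.leaf 1 [(7,1)]) (.cons (.leaf 1 [(7,1),(3,1)]) (.cons (.leaf 1 [(2,1),(7,1)]) (.cons (.leaf 1 [(7,1)]) .nil)))))))) .nil)))))))) (.cons (.keep [] (.node (.cons (.leaf 1 [(2,1)]) (.cons (.leaf 1 [(3,1)]) (.cons (.leaf 1 []) (.cons (.leaf 1 [(3,1)]) (.cons (.leaf 1 [(2,1)]) (.cons (.leaf 1 []) .nil)))))))) (.cons (.keep [4] (.node (.cons (.leaf 1 []) (.cons (.leaf 1 [(3,1),(6,1)]) (.cons (.leaf 1 [(1,1)]) (.cons (.leaf 1 [(1,1),(3,1)]) (.cons (.leaf 1 [(1,1)]) (.cons (.leaf 1 [(6,1)]) .nil)))))))) (.cons (.keep [5] (.node (.cons (.leaf 1 [(2,2)]) (.cons (.leaf 1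 [(3,1),(2,1)]) (.cons (.leaf 1 [(6,1)]) (.cons (.leaf 1 [(6,1),(3,1)]) (.cons (.leaf 1 [(6,1),(2,1)]) (.cons (.leaf 1 [(6,1)]) .nil)))))))) (.cons (.keep [] (.node (.cons (.leaf 1 [(2,1)]) (.cons (.leaf 1 [(3,1)]) (.cons (.leaf 1 []) (.cons (.leaf 1 [(3,1)]) (.cons (.leaf 1 [(2,1)]) (.cons (.leaf 1 []) .nil)))))))) .nil)))))))) (.cons (.keep [4] (.node (.cons (.keep [5,6] (.node (.cons (.leaf 1 [(2,1),(7,2)]) (.cons (.leaf 1 [(3,1),(7,2)]) (.cons (.leaf 1 [(7,2)]) (.cons (.leaf 1 [(3,1),(7,2)]) (.cons (.leaf 1 [(1,1),(7,2),(6,1)]) (.cons (.leaf 1 [(7,2)]) .nil)))))))) (.cons (.keep [4,6] (.node (.cons (.leaf 1 [(7,2)]) (.cons (.leaf 1 [(3,1),(6,1),(7,2)]) (.cons (.leaf 1 [(7,2),(1,1)]) (.cons (.leaf 1 [(7,2),(3,1),(1,1)]) (.cons (.leaf 1 [(7,2),(1,1)]) (.cons (.leaf 1 [(7,2),(6,1)]) .nil)))))))) (.cons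 (.keep [1] (.node (.cons (.leaf 1 [(2,1),(6,1)]) (.cons (.leaf 1 [(3,1),(6,1)]) (.cons (.leaf 1 [(6,1)]) (.cons (.leaf 1 [(3,1),(6,1)]) (.cons (.leaf 1 [(2,1),(6,1)]) (.cons (.leaf 1 [(6,1)]) .nil)))))))) (.cons (.keep [1,4] (.node (.cons (.leaf 1 [(6,1)]) (.cons (.leaf 1 [(3,1),(7,1),(6,1)]) (.cons (.leaf 1 [(6,1),(1,1)]) (.cons (.leaf 1 [(6,1),(3,1),(1,1)]) (.cons (.leaf 1 [(6,1),(1,1)]) (.cons (.leaf 1 [(6,1),(7,1)]) .nil)))))))) (.cons (.keep [1,5,6] (.node (.cons (.leaf 1 [(8,1),(2,2)]) (.cons (.leaf 1 [(3,1),(2,2),(6,1)]) (.cons (.leaf 1 [(6,1),(7,2)]) (.cons (.leaf 1 [(3,1),(7,1),(8,1)]) (.cons (.leaf 1 [(8,1),(7,1),(2,1)]) (.cons (.leaf 1 [(6,1),(7,2)]) .nil)))))))) (.cons (.keep [1,6] (.node (.cons (.leaf 1 [(2,1),(7,1)]) (.cons (.leaf 1 [(3,1),(6,1),(2,1)]) (.cons (.leaf 1 [(7,1)]) (.cons (.leaf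 1 [(7,1),(3,1)]) (.cons (.leaf 1 [(2,1),(7,1)]) (.cons (.leaf 1 [(7,1)]) .nil)))))))) .nil)))))))) (.cons (.leaf 1 []) (.cons (.leaf 1 [(4,1)]) (.cons (.leaf 1 [(5,1)]) (.cons (.leaf 1 []) .nil))))))))),
  (14, 13, (.keep [] (.node (.cons (.keep [5] (.node (.cons (.leaf 1 [(7,1)]) (.cons (.leaf 1 [(7,1),(4,1)]) (.cons (.leaf 1 [(7,1),(4,1)]) (.cons (.leaf 1 [(5,1)]) (.cons (.leaf 1 []) (.cons (.leaf 1 [(5,1)]) (.cons (.leaf 1 [(6,1)]) (.cons (.leaf 1 [(6,1)]) (.cons (.leaf 1 []) .nil))))))))))) (.cons (.keep [4,6] (.node (.cons (.leaf 1 []) (.cons (.leaf 1 [(4,1)]) (.cons (.leaf 1 [(4,1)]) (.cons (.leaf 1 [(8,1)]) (.cons (.leaf 1 [(7,1)]) (.cons (.leaf 1 [(7,1),(5,1)]) (.cons (.leaf 1 [(7,1),(6,1)]) (.cons (.leaf 1 [(4,1),(6,1),(8,1)]) (.cons (.leaf 1 [(7,1)]) .nil))))))))))) (.cons (.keep [4,5] (.node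 (.cons (.leaf 1 [(8,1)]) (.cons (.leaf 1 [(8,1),(4,1)]) (.cons (.leaf 1 [(8,1),(4,1)]) (.cons (.leaf 1 []) (.cons (.leaf 1 [(4,1)]) (.cons (.leaf 1 [(4,1)]) (.cons (.leaf 1 [(7,1),(6,1)]) (.cons (.leaf 1 [(4,1),(6,1)]) (.cons (.leaf 1 [(7,1)]) .nil))))))))))) (.cons (.leaf 1 [(5,1)]) (.cons (.leaf 1 []) (.cons (.leaf 1 [(5,1)]) (.cons (.leaf 1 [(6,1)]) (.cons (.leaf 1 [(6,1)]) (.cons (.leaf 1 []) .nil)))))))))))),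
  (14, 14, (.keep [] (.node (.cons (.leaf 1 []) (.cons (.leaf 1 [(4,1)]) (.cons (.leaf 1 [(4,1)]) (.cons (.leaf 1 [(5,1)]) (.cons (.leaf 1 []) (.cons (.leaf 1 [(5,1)]) (.cons (.leaf 1 [(6,1)]) (.cons (.leaf 1 [(6,1)]) (.cons (.leaf 1 []) .nil)))))))))))),
  (14, 15, (.keep [] (.node (.cons (.leaf 1 [(5,1)]) (.cons (.leaf 1 []) (.cons (.leaf 1 [(5,1)]) (.cons (.leaf 1 [(5,1)]) (.cons (.leaf 1 [(6,1)]) (.cons (.leaf 1 [(6,1)]) (.cons (.leaf 1 []) (.cons (.leaf 1 [(6,1)]) (.cons (.leaf 1 [(7,1)]) (.cons (.leaf 1 [(7,1)]) (.cons (.leaf 1 [(7,1)]) (.cons (.leaf 1 []) .nil))))))))))))))),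
  (15, 12, (.keep [0] (.node (.cons (.keep [2,6] (.node (.cons (.leaf 1 [(8,1),(7,1)]) (.cons (.keep [] (.node (.cons (.leaf 1 [(3,1)]) (.cons (.leaf 1 [(4,1)]) (.cons (.leaf 1 [(3,1)]) (.cons (.leaf 1 [(4,1)]) (.cons (.leaf 1 []) (.cons (.leaf 1 [(4,1)]) (.cons (.leaf 1 [(3,1)]) (.cons (.leaf 1 []) .nil)))))))))) (.cons (.leaf 1 [(1,1)]) (.cons (.leaf 1 [(1,1)]) (.cons (.leaf 1 [(8,1),(1,1)]) (.cons (.leaf 1 [(8,1),(1,1)]) (.cons (.leaf 1 [(8,1),(6,1),(1,1)]) (.cons (.keep [] (.node (.cons (.leaf 1 [(3,1)]) (.cons (.leaf 1 [(4,1)]) (.cons (.leaf 1 [(3,1)]) (.cons (.leaf 1 [(4,1)]) (.cons (.leaf 1 []) (.cons (.leaf 1 [(4,1)]) (.cons (.leaf 1 [(3,1)]) (.cons (.leaf 1 []) .nil)))))))))) .nil)))))))))) (.cons (.keep [2,5] (.node (.cons (.leaf 1 [(7,1)]) (.cons (.keep [8] (.node (.cons (.leaf 1 [(3,1),(7,1)])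 (.cons (.leaf 1 [(4,1),(7,1)]) (.cons (.leaf 1 [(1,1)]) (.cons (.leaf 1 [(1,1)]) (.cons (.leaf 1 [(7,1)]) (.cons (.leaf 1 [(4,1),(7,1)]) (.cons (.leaf 1 [(3,1),(7,1)]) (.cons (.leaf 1 [(7,1)]) .nil)))))))))) (.cons (.leaf 1 [(1,1),(7,1)]) (.cons (.leaf 1 [(1,1),(8,1)]) (.cons (.leaf 1 [(1,1)]) (.cons (.leaf 1 [(1,1)]) (.cons (.leaf 1 [(6,1),(1,1)]) (.cons (.keep [8] (.node (.cons (.leaf 1 [(3,1),(7,1)]) (.cons (.leaf 1 [(4,1),(7,1)]) (.cons (.leaf 1 [(1,1)]) (.cons (.leaf 1 [(1,1)]) (.cons (.leaf 1 [(7,1)]) (.cons (.leaf 1 [(4,1),(7,1)]) (.cons (.leaf 1 [(3,1),(7,1)]) (.cons (.leaf 1 [(7,1)]) .nil)))))))))) .nil)))))))))) (.cons (.keep [6,7] (.node (.cons (.keep [6] (.node (.cons (.leaf 1 [(7,1)]) (.cons (.keep [3,4] (.node (.cons (.leaf 1 [(3,2)]) (.cons (.leaf 1 [(3,1),(4,1)]) (.cons (.leaf 1 [(3,2),(7,1)])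 (.cons (.leaf 1 [(3,1),(7,1),(4,1)]) (.cons (.leaf 1 [(8,1)]) (.cons (.leaf 1 [(4,1),(8,1)]) (.cons (.leaf 1 [(8,1),(3,1)]) (.cons (.leaf 1 [(8,1)]) .nil)))))))))) (.cons (.leaf 1 [(1,1),(3,1)]) (.cons (.leaf 1 [(1,1),(4,1)]) (.cons (.leaf 1 [(7,1),(1,1)]) (.cons (.leaf 1 [(1,1),(4,1),(7,1)]) (.cons (.leaf 1 [(7,1),(1,1)]) (.cons (.keep [] (.node (.cons (.leaf 1 [(3,1)]) (.cons (.leaf 1 [(4,1)]) (.cons (.leaf 1 [(3,1)]) (.cons (.leaf 1 [(4,1)]) (.cons (.leaf 1 []) (.cons (.leaf 1 [(4,1)]) (.cons (.leaf 1 [(3,1)]) (.cons (.leaf 1 []) .nil)))))))))) .nil)))))))))) (.cons (.keep [5] (.node (.cons (.leaf 1 []) (.cons (.keep [4,7] (.node (.cons (.leaf 1 [(8,1),(3,2)]) (.cons (.leaf 1 [(4,1),(3,1),(8,1)]) (.cons (.leaf 1 [(3,1)]) (.cons (.leaf 1 [(3,1)]) (.cons (.leaf 1 [(8,1),(7,1)]) (.cons (.leaf 1 [(4,1),(7,1),(8,1)])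 (.cons (.leaf 1 [(8,1),(7,1),(3,1)]) (.cons (.leaf 1 [(8,1),(7,1)]) .nil)))))))))) (.cons (.leaf 1 [(1,1)]) (.cons (.leaf 1 [(4,1),(1,1),(7,1)]) (.cons (.leaf 1 [(1,1)]) (.cons (.leaf 1 [(1,1),(4,1)]) (.cons (.leaf 1 [(1,1)]) (.cons (.keep [7] (.node (.cons (.leaf 1 [(3,1),(7,1)]) (.cons (.leaf 1 [(4,1),(7,1)]) (.cons (.leaf 1 [(1,1)]) (.cons (.leaf 1 [(1,1)]) (.cons (.leaf 1 [(7,1)]) (.cons (.leaf 1 [(4,1),(7,1)]) (.cons (.leaf 1 [(3,1),(7,1)]) (.cons (.leaf 1 [(7,1)]) .nil)))))))))) .nil)))))))))) (.cons (.keep [6,8] (.node (.cons (.leaf 1 [(7,1),(8,1)]) (.cons (.keep [] (.node (.cons (.leaf 1 [(3,1)]) (.cons (.leaf 1 [(4,1)]) (.cons (.leaf 1 [(3,1)]) (.cons (.leaf 1 [(4,1)]) (.cons (.leaf 1 []) (.cons (.leaf 1 [(4,1)]) (.cons (.leaf 1 [(3,1)]) (.cons (.leaf 1 []) .nil)))))))))) (.cons (.leaf 1 [(1,1)])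 (.cons (.leaf 1 [(1,1)]) (.cons (.leaf 1 [(7,1),(1,1)]) (.cons (.leaf 1 [(7,1),(1,1)]) (.cons (.leaf 1 [(7,1),(6,1),(1,1)]) (.cons (.keep [] (.node (.cons (.leaf 1 [(3,1)]) (.cons (.leaf 1 [(4,1)]) (.cons (.leaf 1 [(3,1)]) (.cons (.leaf 1 [(4,1)]) (.cons (.leaf 1 []) (.cons (.leaf 1 [(4,1)]) (.cons (.leaf 1 [(3,1)]) (.cons (.leaf 1 []) .nil)))))))))) .nil)))))))))) (.cons (.keep [5,8] (.node (.cons (.leaf 1 [(8,1)]) (.cons (.keep [7] (.node (.cons (.leaf 1 [(3,1),(7,1)]) (.cons (.leaf 1 [(4,1),(7,1)]) (.cons (.leaf 1 [(1,1)]) (.cons (.leaf 1 [(1,1)]) (.cons (.leaf 1 [(7,1)]) (.cons (.leaf 1 [(4,1),(7,1)]) (.cons (.leaf 1 [(3,1),(7,1)]) (.cons (.leaf 1 [(7,1)]) .nil)))))))))) (.cons (.leaf 1 [(1,1),(7,1)]) (.cons (.leaf 1 [(1,1),(7,1)]) (.cons (.leaf 1 [(1,1)]) (.cons (.leaf 1 [(1,1)]) (.cons (.leaf 1 [(6,1),(1,1)])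 (.cons (.keep [7] (.node (.cons (.leaf 1 [(3,1),(7,1)]) (.cons (.leaf 1 [(4,1),(7,1)]) (.cons (.leaf 1 [(1,1)]) (.cons (.leaf 1 [(1,1)]) (.cons (.leaf 1 [(7,1)]) (.cons (.leaf 1 [(4,1),(7,1)]) (.cons (.leaf 1 [(3,1),(7,1)]) (.cons (.leaf 1 [(7,1)]) .nil)))))))))) .nil)))))))))) (.cons (.leaf 1 [(7,1),(1,1)]) (.cons (.leaf 1 [(7,1),(5,1),(1,1)]) (.cons (.leaf 1 [(1,1),(6,2),(7,1)]) (.cons (.keep [] (.node (.cons (.leaf 1 [(3,1)]) (.cons (.leaf 1 [(4,1)]) (.cons (.leaf 1 [(3,1)]) (.cons (.leaf 1 [(4,1)]) (.cons (.leaf 1 []) (.cons (.leaf 1 [(4,1)]) (.cons (.leaf 1 [(3,1)]) (.cons (.leaf 1 []) .nil)))))))))) .nil)))))))))) (.cons (.keep [5] (.node (.cons (.keep [6,7] (.node (.cons (.leaf 1 [(7,1),(8,1)]) (.cons (.leaf 1 [(4,2),(8,2)]) (.cons (.leaf 1 [(1,2)]) (.cons (.leaf 1 [(1,2)]) (.cons (.leaf 1 [(7,2),(1,2)])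 (.cons (.leaf 1 [(4,2),(8,2)]) (.cons (.leaf 1 [(7,1),(8,1),(1,1)]) (.cons (.leaf 1 [(8,2)]) .nil)))))))))) (.cons (.keep [2,5,7] (.node (.cons (.leaf 1 [(9,1)]) (.cons (.leaf 1 [(4,2),(8,1),(9,2)]) (.cons (.leaf 1 [(1,2),(7,1)]) (.cons (.leaf 1 [(1,2),(8,1)]) (.cons (.leaf 1 [(9,1),(1,1)]) (.cons (.leaf 1 [(4,1),(1,1),(9,1)]) (.cons (.leaf 1 [(9,1),(1,1)]) (.cons (.leaf 1 [(9,2),(8,1)]) .nil)))))))))) (.cons (.leaf 1 [(7,2),(1,1)]) (.cons (.leaf 1 [(7,2),(1,1),(5,1)]) (.cons (.leaf 1 [(1,1)]) (.cons (.leaf 1 [(1,1),(5,1)]) (.cons (.leaf 1 [(1,1),(6,2)]) (.cons (.keep [7] (.node (.cons (.leaf 1 [(3,1),(7,1)]) (.cons (.leaf 1 [(4,1),(7,1)]) (.cons (.leaf 1 [(1,1)]) (.cons (.leaf 1 [(1,1)]) (.cons (.leaf 1 [(7,1)]) (.cons (.leaf 1 [(4,1),(7,1)]) (.cons (.leaf 1 [(3,1),(7,1)]) (.cons (.leaf 1 [(7,1)]) .nil))))))))))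 .nil)))))))))) (.cons (.leaf 1 []) (.cons (.leaf 1 [(5,1)]) (.cons (.leaf 1 [(6,1)]) (.cons (.leaf 1 []) .nil))))))))))),
  (15, 13, (.keep [] (.node (.cons (.leaf 1 []) (.cons (.leaf 1 [(5,1)]) (.cons (.leaf 1 [(5,1)]) (.cons (.keep [6] (.node (.cons (.leaf 1 []) (.cons (.leaf 1 [(5,1)]) (.cons (.leaf 1 [(5,1)]) (.cons (.leaf 1 [(8,1)]) (.cons (.leaf 1 [(8,1),(5,1)]) (.cons (.leaf 1 [(8,1),(5,1)]) (.cons (.leaf 1 [(6,1)]) (.cons (.leaf 1 []) (.cons (.leaf 1 [(6,1)]) (.cons (.leaf 1 [(7,1)]) (.cons (.leaf 1 [(7,1)]) (.cons (.leaf 1 []) .nil)))))))))))))) (.cons (.keep [5,7] (.node (.cons (.leaf 1 [(8,1)]) (.cons (.leaf 1 [(8,1),(5,1)]) (.cons (.leaf 1 [(8,1),(5,1)]) (.cons (.leaf 1 []) (.cons (.leaf 1 [(5,1)]) (.cons (.leaf 1 [(5,1)]) (.cons (.leaf 1 [(9,1)]) (.cons (.leaf 1 [(8,1)]) (.cons (.leaf 1 [(8,1),(6,1)])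 (.cons (.leaf 1 [(8,1),(7,1)]) (.cons (.leaf 1 [(1,1),(7,2),(9,1)]) (.cons (.leaf 1 [(8,1)]) .nil)))))))))))))) (.cons (.keep [5,6] (.node (.cons (.leaf 1 [(8,1)]) (.cons (.leaf 1 [(5,2)]) (.cons (.leaf 1 [(8,1),(5,1)]) (.cons (.leaf 1 [(9,1)]) (.cons (.leaf 1 [(9,2),(1,1)]) (.cons (.leaf 1 [(9,1),(5,1)]) (.cons (.leaf 1 []) (.cons (.leaf 1 [(1,1)]) (.cons (.leaf 1 [(5,1)]) (.cons (.leaf 1 [(8,1),(7,1)]) (.cons (.leaf 1 [(1,1),(7,2)]) (.cons (.leaf 1 [(8,1)]) .nil)))))))))))))) (.cons (.leaf 1 [(6,1)]) (.cons (.leaf 1 []) (.cons (.leaf 1 [(6,1)]) (.cons (.leaf 1 [(7,1)]) (.cons (.leaf 1 [(7,1)]) (.cons (.leaf 1 []) .nil))))))))))))))),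
  (15, 14, (.keep [] (.node (.cons (.keep [] (.node (.cons (.leaf 1 [(2,1)]) (.cons (.leaf 1 [(3,1)]) (.cons (.leaf 1 [(4,1)]) (.cons (.leaf 1 []) (.cons (.leaf 1 [(3,1)]) (.cons (.leaf 1 [(4,1)]) (.cons (.leaf 1 [(2,1)]) (.cons (.leaf 1 []) (.cons (.leaf 1 [(4,1)]) (.cons (.leaf 1 [(2,1)]) (.cons (.leaf 1 [(3,1)]) (.cons (.leaf 1 []) .nil)))))))))))))) (.cons (.keep [2,5,7] (.node (.cons (.leaf 1 [(8,1)]) (.cons (.leaf 2 [(10,1),(9,1)]) (.cons (.leaf 1 [(4,1),(9,1)]) (.cons (.leaf 1 [(1,1)]) (.cons (.leaf 1 [(1,1)]) (.cons (.leaf 1 [(1,1)]) (.cons (.leaf 1 [(6,1),(1,1)]) (.cons (.leaf 1 [(9,1)]) (.cons (.leaf 1 [(4,1),(9,1)]) (.cons (.leaf 1 [(7,1),(1,1)]) (.cons (.leaf 2 [(10,1),(9,1),(1,1)]) (.cons (.leaf 1 [(9,1)]) .nil)))))))))))))) (.cons (.keep [2,5,6] (.node (.cons (.leaf 2 [(9,1),(10,1)]) (.cons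 (.leaf 1 [(8,1)]) (.cons (.leaf 1 [(4,1),(9,1)]) (.cons (.leaf 1 [(9,1)]) (.cons (.leaf 1 [(1,1),(5,1)]) (.cons (.leaf 1 [(4,1),(9,1)]) (.cons (.leaf 1 [(1,1)]) (.cons (.leaf 1 [(1,1)]) (.cons (.leaf 1 [(1,1)]) (.cons (.leaf 2 [(9,1),(10,1),(1,1)]) (.cons (.leaf 1 [(7,1),(1,1)]) (.cons (.leaf 1 [(9,1)]) .nil)))))))))))))) (.cons (.leaf 1 []) (.cons (.leaf 1 [(5,1)]) (.cons (.leaf 1 [(5,1)]) (.cons (.leaf 1 [(6,1)]) (.cons (.leaf 1 []) (.cons (.leaf 1 [(6,1)]) (.cons (.leaf 1 [(7,1)]) (.cons (.leaf 1 [(7,1)]) (.cons (.leaf 1 []) .nil))))))))))))))),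
  (15, 15, (.keep [] (.node (.cons (.leaf 1 []) (.cons (.leaf 1 [(5,1)]) (.cons (.leaf 1 [(5,1)]) (.cons (.leaf 1 [(5,1)]) (.cons (.leaf 1 [(6,1)]) (.cons (.leaf 1 []) (.cons (.leaf 1 [(6,1)]) (.cons (.leaf 1 [(6,1)]) (.cons (.leaf 1 [(7,1)]) (.cons (.leaf 1 [(7,1)]) (.cons (.leaf 1 []) (.cons (.leaf 1 [(7,1)]) (.cons (.leaf 1 [(8,1)]) (.cons (.leaf 1 [(8,1)]) (.cons (.leaf 1 [(8,1)]) (.cons (.leaf 1 []) .nil)))))))))))))))))))]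

theorem d10_ok : (d10.all fun c => ok c.1 c.2.1 c.2.2) = true := by decide +kernel

end Pool.Agent.H50.Rdb.Data3
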