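import Pool.Agent.H50.Rdb.Zero

/-! # Logarithms: the largest term of the numerator and of the denominator -/

namespace Pool.Agent.H50.Rdb

open Filter Topology Real
open Pool.Agent.H81.RDE (bitsL)

/-- the term number `s` of a numerator or denominator, `w j, w (j+1), …` being the (logarithms of
the) terms going backwards -/
def ent (w : ℕ → ℝ) (j s : ℕ) : ℝ := if s = 0 then 0 else w (j + s)

/-- the step at the position `j`, up to the error `C` -/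
def StepAt (N D : ℕ) (C : ℝ) (w : ℕ → ℝ) (j : ℕ) : Prop :=
  ∃ s ∈ bitsL N, ∃ t ∈ bitsL D, (∀ s' ∈ bitsL N, ent w j s' ≤ ent w j s) ∧
    (∀ t' ∈ bitsL D, ent w j t' ≤ ent w j t) ∧ |w j - (ent w j s - ent w j t)| ≤ C

theorem mem_bitsL {N i : ℕ} : i ∈ bitsL N ↔ i < 5 ∧ N.testBit i = true := by
  unfold bitsL
  rw [List.mem_filter, List.mem_range]

/-- `1, u₁, u₂, u₃, u₄` -/
def uf (u1 u2 u3 u4 : ℝ) : ℕ → ℝ
  | 0 => 1
  | 1 => u1
  | 2 => u2
  | 3 => u3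
  | 4 => u4
  | _ => 1

theorem lin_eq (c : ℕ → ℝ) (u1 u2 u3 u4 : ℝ) :
    lin c u1 u2 u3 u4 = ∑ i ∈ Finset.range 5, c i * uf u1 u2 u3 u4 i := by
  simp only [Finset.sum_range_succ, Finset.sum_range_zero, lin, uf]
  ring

/-- the size of a positive linear form is the size of its largest term -/
theorem log_lin {N : ℕ} (hN : N < 32) (hN1 : N ≠ 0) {c : ℕ → ℝ} (hc : Pat N c) :
    ∃ C : ℝ, 0 ≤ C ∧ ∀ u1 u2 u3 u4 : ℝ, 0 < u1 → 0 < u2 → 0 < u3 → 0 < u4 →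
      ∃ s ∈ bitsL N, (∀ s' ∈ bitsL N, log (uf u1 u2 u3 u4 s') ≤ log (uf u1 u2 u3 u4 s)) ∧
        |log (lin c u1 u2 u3 u4) - log (uf u1 u2 u3 u4 s)| ≤ C := by
  set S := ∑ i ∈ Finset.range 5, c i with hS
  refine ⟨∑ i ∈ Finset.range 5, |log (c i)| + |log S|, by positivity, ?_⟩
  intro u1 u2 u3 u4 p1 p2 p3 p4
  have hu : ∀ i, 0 < uf u1 u2 u3 u4 i := by
    intro i
    unfold uf
    split <;> first | assumption | norm_num
  obtain ⟨i0, hi0, hb0⟩ := exists_bit5 hN hN1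
  have hne : (bitsL N).toFinset.Nonempty := ⟨i0, List.mem_toFinset.2 (mem_bitsL.2 ⟨hi0, hb0⟩)⟩
  obtain ⟨s, hs, hmax⟩ := Finset.exists_max_image (bitsL N).toFinset (uf u1 u2 u3 u4) hne
  rw [List.mem_toFinset] at hs
  obtain ⟨hs5, hsb⟩ := mem_bitsL.1 hs
  have hcs := hc.pos hs5 hsb
  have hmax' : ∀ s' ∈ bitsL N, uf u1 u2 u3 u4 s' ≤ uf u1 u2 u3 u4 s := fun s' hs' =>
    hmax s' (List.mem_toFinset.2 hs')
  refine ⟨s, hs, fun s' hs' => log_le_log (hu s') (hmax' s' hs'), ?_⟩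
  have hlow : c s * uf u1 u2 u3 u4 s ≤ lin c u1 u2 u3 u4 := by
    rw [lin_eq]
    exact Finset.single_le_sum (f := fun i => c i * uf u1 u2 u3 u4 i)
      (fun i hi => mul_nonneg (hc.nonneg (Finset.mem_range.1 hi)) (hu i).le) (Finset.mem_range.2 hs5)
  have hup : lin c u1 u2 u3 u4 ≤ S * uf u1 u2 u3 u4 s := by
    rw [lin_eq, hS, Finset.sum_mul]
    refine Finset.sum_le_sum fun i hi => ?_
    rw [Finset.mem_range] at hi
    rcases Bool.eq_false_or_eq_true (N.testBit i) with h | h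
    · exact mul_le_mul_of_nonneg_left (hmax' i (mem_bitsL.2 ⟨hi, h⟩)) (hc.nonneg hi)
    · rw [hc.zero hi h]; simp
  have hSpos : 0 < S := by
    have : c s ≤ S := Finset.single_le_sum (f := c)
      (fun i hi => hc.nonneg (Finset.mem_range.1 hi)) (Finset.mem_range.2 hs5)
    linarith
  have hlp : 0 < lin c u1 u2 u3 u4 := lt_of_lt_of_le (mul_pos hcs (hu s)) hlow
  have h1 : log (c s) + log (uf u1 u2 u3 u4 s) ≤ log (lin c u1 u2 u3 u4) := by
    rw [← log_mul hcs.ne' (hu s).ne']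
    exact log_le_log (mul_pos hcs (hu s)) hlow
  have h2 : log (lin c u1 u2 u3 u4) ≤ log S + log (uf u1 u2 u3 u4 s) := by
    rw [← log_mul hSpos.ne' (hu s).ne']
    exact log_le_log hlp hup
  have h3 : |log (c s)| ≤ ∑ i ∈ Finset.range 5, |log (c i)| :=
    Finset.single_le_sum (f := fun i => |log (c i)|) (fun i _ => abs_nonneg _) (Finset.mem_range.2 hs5)
  have h4 := abs_nonneg (log S)
  have h5 := neg_abs_le (log (c s))
  have h6 := le_abs_self (log S)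
  have h7 : 0 ≤ ∑ i ∈ Finset.range 5, |log (c i)| := Finset.sum_nonneg fun _ _ => abs_nonneg _
  rw [abs_le]
  constructor <;> linarith

theorem ent_log (x : ℕ → ℝ) (j s : ℕ) (hs : s < 5) :
    ent (fun n => log (x n)) j s = log (uf (x (j + 1)) (x (j + 2)) (x (j + 3)) (x (j + 4)) s) := by
  have : s = 0 ∨ s = 1 ∨ s = 2 ∨ s = 3 ∨ s = 4 := by omega
  rcases this with rfl | rfl | rfl | rfl | rfl <;> simp [ent, uf]

/-- the error constant of the logarithmic recursion -/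
theorem exists_stepAt {N D : ℕ} (hN : N < 32) (hN1 : N ≠ 0) (hD : D < 32) (hD1 : D ≠ 0) {a b : ℕ → ℝ}
    (ha : Pat N a) (hb : Pat D b) : ∃ C : ℝ, 0 ≤ C ∧ ∀ (x : ℕ → ℝ) (j : ℕ), (∀ n, 0 < x n) →
      x j * lin b (x (j + 1)) (x (j + 2)) (x (j + 3)) (x (j + 4)) =
        lin a (x (j + 1)) (x (j + 2)) (x (j + 3)) (x (j + 4)) →
      StepAt N D C (fun n => log (x n)) j := by
  obtain ⟨C1, hC1, h1⟩ := log_lin hN hN1 ha
  obtain ⟨C2, hC2, h2⟩ := log_lin hD hD1 hb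
  refine ⟨C1 + C2, by linarith, fun x j hx he => ?_⟩
  obtain ⟨s, hs, hs1, hs2⟩ := h1 _ _ _ _ (hx (j + 1)) (hx (j + 2)) (hx (j + 3)) (hx (j + 4))
  obtain ⟨t, ht, ht1, ht2⟩ := h2 _ _ _ _ (hx (j + 1)) (hx (j + 2)) (hx (j + 3)) (hx (j + 4))
  have hlb := lin_pos hD hD1 hb (hx (j + 1)) (hx (j + 2)) (hx (j + 3)) (hx (j + 4))
  have hlog : log (x j) = log (lin a (x (j + 1)) (x (j + 2)) (x (j + 3)) (x (j + 4))) -
      log (lin b (x (j + 1)) (x (j + 2)) (x (j + 3)) (x (j + 4))) := by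
    rw [← he, log_mul (hx j).ne' hlb.ne']
    ring
  refine ⟨s, hs, t, ht, fun s' hs' => ?_, fun t' ht' => ?_, ?_⟩
  · rw [ent_log x j _ (mem_bitsL.1 hs').1, ent_log x j _ (mem_bitsL.1 hs).1]
    exact hs1 s' hs'
  · rw [ent_log x j _ (mem_bitsL.1 ht').1, ent_log x j _ (mem_bitsL.1 ht).1]
    exact ht1 t' ht'
  · rw [ent_log x j _ (mem_bitsL.1 ht).1, ent_log x j _ (mem_bitsL.1 hs).1]
    show |log (x j) - _| ≤ _
    rw [hlog]
    rw [abs_le] at hs2 ht2 ⊢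
    constructor <;> linarith [hs2.1, hs2.2, ht2.1, ht2.2]

end Pool.Agent.H50.Rdb
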