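import Pool.Agent.H50.Rdb.Basic

/-! # No backward orbit implies a uniform bound -/

namespace Pool.Agent.H50.Rdb

open Filter Topology

theorem uniform_of_noBack {a b : ℕ → ℝ} (h : NoBack a b) : Uniform a b := by
  by_contra hU
  unfold Uniform at hU
  push Not at hU
  have key : ∀ i : ℕ, ∃ (x : ℕ → ℝ) (N : ℕ), PosSol a b x ∧ i ≤ N ∧ (i : ℝ) < x N ∧
      ∀ t ≤ N, x t ≤ x N := by
    intro i
    obtain ⟨x, hx, n, hn, ht⟩ := hU i i
    obtain ⟨N, hN, hmax⟩ := Finset.exists_max_image (Finset.range (n + 1)) x ⟨0, by simp⟩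
    rw [Finset.mem_range] at hN
    have hnN : x n ≤ x N := hmax n (by simp)
    refine ⟨x, N, hx, ?_, lt_of_lt_of_le hn hnN, fun t ht' => hmax t (by
      rw [Finset.mem_range]; omega)⟩
    by_contra hlt
    push Not at hlt
    exact absurd (ht N hlt) (not_lt.2 hnN)
  choose x N hx hN hi hmax using key
  have hl : ((hyperfilter ℕ : Ultrafilter ℕ) : Filter ℕ) ≤ atTop := Nat.hyperfilter_le_atTop
  refine h (hyperfilter ℕ) (fun i j => x i (N i - j)) ⟨?_, ?_, ?_, ?_⟩
  · intro j
    filter_upwards [(eventually_ge_atTop (j + 4)).filter_mono hl] with i hij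
    have hNi := hN i
    have e0 : N i - j = (N i - j - 4) + 4 := by omega
    have e1 : N i - (j + 1) = (N i - j - 4) + 3 := by omega
    have e2 : N i - (j + 2) = (N i - j - 4) + 2 := by omega
    have e3 : N i - (j + 3) = (N i - j - 4) + 1 := by omega
    have e4 : N i - (j + 4) = (N i - j - 4) := by omega
    have := (hx i).2 (N i - j - 4)
    rw [e0, e1, e2, e3, e4]
    exact this
  · exact fun i j => (hx i).1 _
  · exact fun i j => hmax i _ (Nat.sub_le _ _)
  · refine tendsto_atTop_mono (fun i => (hi i).le) ?_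
    exact (tendsto_natCast_atTop_atTop).mono_left hl

end Pool.Agent.H50.Rdb
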