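import Pool.Agent.H50.Rdb.Rec

/-! # From a uniform bound for positive solutions to ESB -/

namespace Pool.Agent.H50.Rdb

open Filter Topology
open Pool.Agent.H81.RDE (Params IsSolution SpecialCase Belongs ESB Admissible caseOf Sign)

theorem Pat.nonneg {N : ℕ} {c : ℕ → ℝ} (hc : Pat N c) {i : ℕ} (hi : i < 5) : 0 ≤ c i := by
  have := hc i hi
  split_ifs at this with h
  · exact this.le
  · exact this.ge

theorem Pat.pos {N : ℕ} {c : ℕ → ℝ} (hc : Pat N c) {i : ℕ} (hi : i < 5) (h : N.testBit i = true) :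
    0 < c i := by
  have := hc i hi
  rwa [if_pos h] at this

theorem Pat.zero {N : ℕ} {c : ℕ → ℝ} (hc : Pat N c) {i : ℕ} (hi : i < 5) (h : N.testBit i = false) :
    c i = 0 := by
  have := hc i hi
  rwa [if_neg (by rw [h]; simp)] at this

theorem exists_bit5 {N : ℕ} (hN : N < 32) (h1 : N ≠ 0) : ∃ i < 5, N.testBit i = true := by
  by_contra hc
  push Not at hc
  apply h1
  apply Nat.eq_of_testBit_eq
  intro i
  rw [Nat.zero_testBit]
  by_cases hi : i < 5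
  · simpa using hc i hi
  · exact Nat.testBit_lt_two_pow (lt_of_lt_of_le hN (by
      calc 32 = 2 ^ 5 := by norm_num
        _ ≤ 2 ^ i := Nat.pow_le_pow_right (by norm_num) (by omega)))

theorem lin_pos {N : ℕ} (hN : N < 32) (h1 : N ≠ 0) {c : ℕ → ℝ} (hc : Pat N c) {u1 u2 u3 u4 : ℝ}
    (p1 : 0 < u1) (p2 : 0 < u2) (p3 : 0 < u3) (p4 : 0 < u4) : 0 < lin c u1 u2 u3 u4 := by
  have q0 := hc.nonneg (i := 0) (by norm_num)
  have q1 := mul_nonneg (hc.nonneg (i := 1) (by norm_num)) p1.le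
  have q2 := mul_nonneg (hc.nonneg (i := 2) (by norm_num)) p2.le
  have q3 := mul_nonneg (hc.nonneg (i := 3) (by norm_num)) p3.le
  have q4 := mul_nonneg (hc.nonneg (i := 4) (by norm_num)) p4.le
  obtain ⟨i, hi, hb⟩ := exists_bit5 hN h1
  have hp := hc.pos hi hb
  unfold lin
  have : i = 0 ∨ i = 1 ∨ i = 2 ∨ i = 3 ∨ i = 4 := by omega
  rcases this with rfl | rfl | rfl | rfl | rfl
  · linarith
  · have := mul_pos hp p1; linarith
  · have := mul_pos hp p2; linarith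
  · have := mul_pos hp p3; linarith
  · have := mul_pos hp p4; linarith

theorem lin_nonneg {N : ℕ} {c : ℕ → ℝ} (hc : Pat N c) {u1 u2 u3 u4 : ℝ}
    (p1 : 0 ≤ u1) (p2 : 0 ≤ u2) (p3 : 0 ≤ u3) (p4 : 0 ≤ u4) : 0 ≤ lin c u1 u2 u3 u4 := by
  have q0 := hc.nonneg (i := 0) (by norm_num)
  have q1 := mul_nonneg (hc.nonneg (i := 1) (by norm_num)) p1
  have q2 := mul_nonneg (hc.nonneg (i := 2) (by norm_num)) p2
  have q3 := mul_nonneg (hc.nonneg (i := 3) (by norm_num)) p3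
  have q4 := mul_nonneg (hc.nonneg (i := 4) (by norm_num)) p4
  unfold lin
  linarith

/-- one step of the recursion on the window `(x n, x (n+1), x (n+2), x (n+3))` -/
noncomputable def stepMap (a b : ℕ → ℝ) (v : ℝ × ℝ × ℝ × ℝ) : ℝ × ℝ × ℝ × ℝ :=
  (v.2.1, v.2.2.1, v.2.2.2,
    lin a v.2.2.2 v.2.2.1 v.2.1 v.1 / lin b v.2.2.2 v.2.2.1 v.2.1 v.1)

theorem stepMap_continuousAt (a b : ℕ → ℝ) (v : ℝ × ℝ × ℝ × ℝ)
    (hv : lin b v.2.2.2 v.2.2.1 v.2.1 v.1 ≠ 0) : ContinuousAt (stepMap a b) v := by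
  unfold stepMap
  have hA : Continuous fun v : ℝ × ℝ × ℝ × ℝ => lin a v.2.2.2 v.2.2.1 v.2.1 v.1 := by
    unfold lin; fun_prop
  have hB : Continuous fun v : ℝ × ℝ × ℝ × ℝ => lin b v.2.2.2 v.2.2.1 v.2.1 v.1 := by
    unfold lin; fun_prop
  refine ContinuousAt.prodMk (by fun_prop) (ContinuousAt.prodMk (by fun_prop)
    (ContinuousAt.prodMk (by fun_prop) ?_))
  exact hA.continuousAt.div hB.continuousAt hv

/-- the data of a nonnegative solution of the equation with the coefficients `a`, `b` -/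
def NonnegSol (a b : ℕ → ℝ) (x : ℕ → ℝ) : Prop :=
  (∀ n, 0 ≤ x n) ∧ ∀ n, 0 < lin b (x (n + 3)) (x (n + 2)) (x (n + 1)) (x n) ∧
    x (n + 4) = lin a (x (n + 3)) (x (n + 2)) (x (n + 1)) (x n) /
      lin b (x (n + 3)) (x (n + 2)) (x (n + 1)) (x n)

theorem iterate_eq {a b x : ℕ → ℝ} (hx : ∀ n, x (n + 4) = lin a (x (n + 3)) (x (n + 2)) (x (n + 1)) (x n) /
      lin b (x (n + 3)) (x (n + 2)) (x (n + 1)) (x n)) (n : ℕ) :
    (stepMap a b)^[n] (x 0, x 1, x 2, x 3) = (x n, x (n + 1), x (n + 2), x (n + 3)) := by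
  induction n with
  | zero => rfl
  | succ n ih =>
    rw [Function.iterate_succ_apply', ih]
    unfold stepMap
    rw [← hx n]

theorem iterate_tendsto {a b x : ℕ → ℝ} (hx : NonnegSol a b x) (n : ℕ) :
    Tendsto (fun ε : ℝ => (stepMap a b)^[n] (x 0 + ε, x 1 + ε, x 2 + ε, x 3 + ε)) (𝓝[>] 0)
      (𝓝 (x n, x (n + 1), x (n + 2), x (n + 3))) := by
  induction n with
  | zero =>
    have h : Continuous fun ε : ℝ => (x 0 + ε, x 1 + ε, x 2 + ε, x 3 + ε) := by fun_prop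
    have := (h.tendsto 0).mono_left (nhdsWithin_le_nhds (s := Set.Ioi (0 : ℝ)))
    simpa using this
  | succ n ih =>
    have hc := stepMap_continuousAt a b (x n, x (n + 1), x (n + 2), x (n + 3)) (hx.2 n).1.ne'
    have := hc.tendsto.comp ih
    have e : stepMap a b (x n, x (n + 1), x (n + 2), x (n + 3)) =
        (x (n + 1), x (n + 1 + 1), x (n + 1 + 2), x (n + 1 + 3)) := by
      unfold stepMap
      rw [← (hx.2 n).2]
    rw [e] at this
    simpa only [Function.comp_def, Function.iterate_succ_apply'] using this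

/-- positive windows stay positive -/
theorem iterate_pos {N D : ℕ} (hN : N < 32) (hN1 : N ≠ 0) (hD : D < 32) (hD1 : D ≠ 0) {a b : ℕ → ℝ}
    (ha : Pat N a) (hb : Pat D b) (v : ℝ × ℝ × ℝ × ℝ)
    (hv : 0 < v.1 ∧ 0 < v.2.1 ∧ 0 < v.2.2.1 ∧ 0 < v.2.2.2) (n : ℕ) :
    0 < ((stepMap a b)^[n] v).1 ∧ 0 < ((stepMap a b)^[n] v).2.1 ∧ 0 < ((stepMap a b)^[n] v).2.2.1 ∧
      0 < ((stepMap a b)^[n] v).2.2.2 := by
  induction n with
  | zero => exact hv
  | succ n ih =>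
    obtain ⟨h1, h2, h3, h4⟩ := ih
    rw [Function.iterate_succ_apply']
    refine ⟨h2, h3, h4, ?_⟩
    exact div_pos (lin_pos hN hN1 ha h4 h3 h2 h1) (lin_pos hD hD1 hb h4 h3 h2 h1)

theorem orbit_posSol {N D : ℕ} (hN : N < 32) (hN1 : N ≠ 0) (hD : D < 32) (hD1 : D ≠ 0) {a b : ℕ → ℝ}
    (ha : Pat N a) (hb : Pat D b) (v : ℝ × ℝ × ℝ × ℝ)
    (hv : 0 < v.1 ∧ 0 < v.2.1 ∧ 0 < v.2.2.1 ∧ 0 < v.2.2.2) :
    PosSol a b (fun n => ((stepMap a b)^[n] v).1) := by
  have e1 : ∀ n, ((stepMap a b)^[n + 1] v).1 = ((stepMap a b)^[n] v).2.1 := fun n => by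
    rw [Function.iterate_succ_apply']; rfl
  have e2 : ∀ n, ((stepMap a b)^[n + 2] v).1 = ((stepMap a b)^[n] v).2.2.1 := fun n => by
    rw [Function.iterate_succ_apply', Function.iterate_succ_apply']; rfl
  have e3 : ∀ n, ((stepMap a b)^[n + 3] v).1 = ((stepMap a b)^[n] v).2.2.2 := fun n => by
    rw [Function.iterate_succ_apply', Function.iterate_succ_apply', Function.iterate_succ_apply']; rfl
  refine ⟨fun n => (iterate_pos hN hN1 hD hD1 ha hb v hv n).1, fun n => ?_⟩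
  have e4 : ((stepMap a b)^[n + 4] v).1 = lin a ((stepMap a b)^[n] v).2.2.2
      ((stepMap a b)^[n] v).2.2.1 ((stepMap a b)^[n] v).2.1 ((stepMap a b)^[n] v).1 /
      lin b ((stepMap a b)^[n] v).2.2.2
      ((stepMap a b)^[n] v).2.2.1 ((stepMap a b)^[n] v).2.1 ((stepMap a b)^[n] v).1 := by
    rw [Function.iterate_succ_apply', Function.iterate_succ_apply', Function.iterate_succ_apply',
      Function.iterate_succ_apply']; rfl
  show ((stepMap a b)^[n + 4] v).1 * lin b ((stepMap a b)^[n + 3] v).1 ((stepMap a b)^[n + 2] v).1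
    ((stepMap a b)^[n + 1] v).1 ((stepMap a b)^[n] v).1 = lin a ((stepMap a b)^[n + 3] v).1
    ((stepMap a b)^[n + 2] v).1 ((stepMap a b)^[n + 1] v).1 ((stepMap a b)^[n] v).1
  rw [e4, e3 n, e2 n, e1 n]
  obtain ⟨h1, h2, h3, h4⟩ := iterate_pos hN hN1 hD hD1 ha hb v hv n
  exact div_mul_cancel₀ _ (lin_pos hD hD1 hb h4 h3 h2 h1).ne'

/-- a uniform bound passes to nonnegative solutions -/
theorem bounded_of_uniform {N D : ℕ} (hN : N < 32) (hN1 : N ≠ 0) (hD : D < 32) (hD1 : D ≠ 0)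
    {a b : ℕ → ℝ} (ha : Pat N a) (hb : Pat D b) (hU : Uniform a b) {x : ℕ → ℝ}
    (hx : NonnegSol a b x) : ∃ M, ∀ n, x n ≤ M := by
  obtain ⟨K, R, hK⟩ := hU
  have key : ∀ n, x n ≤ K ∨ ∃ t < R, x n ≤ x t := by
    intro n
    by_contra hc
    push Not at hc
    obtain ⟨h1, h2⟩ := hc
    have ht : ∀ m, Tendsto (fun ε : ℝ =>
        ((stepMap a b)^[m] (x 0 + ε, x 1 + ε, x 2 + ε, x 3 + ε)).1) (𝓝[>] 0) (𝓝 (x m)) := fun m =>
      (continuous_fst.tendsto _).comp (iterate_tendsto hx m)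
    have e1 := (ht n).eventually (lt_mem_nhds h1)
    have e2 : ∀ᶠ ε in 𝓝[>] (0 : ℝ), ∀ t < R,
        ((stepMap a b)^[t] (x 0 + ε, x 1 + ε, x 2 + ε, x 3 + ε)).1 <
        ((stepMap a b)^[n] (x 0 + ε, x 1 + ε, x 2 + ε, x 3 + ε)).1 := by
      have := (Finset.eventually_all (Finset.range R) (l := 𝓝[>] (0 : ℝ)) (p := fun t ε =>
        ((stepMap a b)^[t] (x 0 + ε, x 1 + ε, x 2 + ε, x 3 + ε)).1 <
        ((stepMap a b)^[n] (x 0 + ε, x 1 + ε, x 2 + ε, x 3 + ε)).1)).2 (fun t ht' =>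
          (ht t).eventually_lt (ht n) (h2 t (Finset.mem_range.1 ht')))
      filter_upwards [this] with ε he t htR
      exact he t (Finset.mem_range.2 htR)
    have e3 : ∀ᶠ ε in 𝓝[>] (0 : ℝ), 0 < ε := eventually_mem_nhdsWithin
    obtain ⟨ε, he1, he2, he3⟩ := (e1.and (e2.and e3)).exists
    have hs := orbit_posSol hN hN1 hD hD1 ha hb (x 0 + ε, x 1 + ε, x 2 + ε, x 3 + ε)
      ⟨add_pos_of_nonneg_of_pos (hx.1 0) he3, add_pos_of_nonneg_of_pos (hx.1 1) he3,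
        add_pos_of_nonneg_of_pos (hx.1 2) he3, add_pos_of_nonneg_of_pos (hx.1 3) he3⟩
    rcases hK _ hs n with h | ⟨t, ht', h⟩
    · exact absurd h (not_le.2 he1)
    · exact absurd h (not_le.2 (he2 t ht'))
  refine ⟨max K (∑ t ∈ Finset.range R, x t), fun n => ?_⟩
  rcases key n with h | ⟨t, ht, h⟩
  · exact h.trans (le_max_left _ _)
  · refine (h.trans ?_).trans (le_max_right _ _)
    exact Finset.single_le_sum (f := x) (fun i _ => hx.1 i) (Finset.mem_range.2 ht)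

/-- the coefficients of `P` -/
def numC (P : Params 4) : ℕ → ℝ
  | 0 => P.alpha
  | 1 => P.beta 0
  | 2 => P.beta 1
  | 3 => P.beta 2
  | 4 => P.beta 3
  | _ => 0

/-- the coefficients of `P` -/
def denC (P : Params 4) : ℕ → ℝ
  | 0 => P.A
  | 1 => P.B 0
  | 2 => P.B 1
  | 3 => P.B 2
  | 4 => P.B 3
  | _ => 0

theorem pat_numC {N D : ℕ} {P : Params 4} (hP : Belongs (caseOf 4 N D) P) : Pat N (numC P) := by
  obtain ⟨h0, hb, -, -⟩ := hP
  intro i hi
  have : i = 0 ∨ i = 1 ∨ i = 2 ∨ i = 3 ∨ i = 4 := by omega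
  rcases this with rfl | rfl | rfl | rfl | rfl
  · exact h0
  · exact hb 0
  · exact hb 1
  · exact hb 2
  · exact hb 3

theorem pat_denC {N D : ℕ} {P : Params 4} (hP : Belongs (caseOf 4 N D) P) : Pat D (denC P) := by
  obtain ⟨-, -, h0, hb⟩ := hP
  intro i hi
  have : i = 0 ∨ i = 1 ∨ i = 2 ∨ i = 3 ∨ i = 4 := by omega
  rcases this with rfl | rfl | rfl | rfl | rfl
  · exact h0
  · exact hb 0
  · exact hb 1
  · exact hb 2
  · exact hb 3

theorem nonnegSol_of_isSolution {N D : ℕ} {P : Params 4} (hP : Belongs (caseOf 4 N D) P) {x : ℕ → ℝ}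
    (hx : IsSolution P x) : NonnegSol (numC P) (denC P) x := by
  have ha := pat_numC hP
  have hb := pat_denC hP
  have hs : ∀ n, 0 < lin (denC P) (x (n + 3)) (x (n + 2)) (x (n + 1)) (x n) ∧
      x (n + 4) = lin (numC P) (x (n + 3)) (x (n + 2)) (x (n + 1)) (x n) /
      lin (denC P) (x (n + 3)) (x (n + 2)) (x (n + 1)) (x n) := by
    intro n
    obtain ⟨h1, h2⟩ := hx.2 n
    rw [Fin.sum_univ_four] at h1 h2
    rw [Fin.sum_univ_four] at h2
    have e : ∀ (al c0 c1 c2 c3 : ℝ), al + (c0 * x (n + 4 - 1 - ((0 : Fin 4) : ℕ)) +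
        c1 * x (n + 4 - 1 - ((1 : Fin 4) : ℕ)) + c2 * x (n + 4 - 1 - ((2 : Fin 4) : ℕ)) +
        c3 * x (n + 4 - 1 - ((3 : Fin 4) : ℕ))) =
        al + c0 * x (n + 3) + c1 * x (n + 2) + c2 * x (n + 1) + c3 * x n := by
      intro al c0 c1 c2 c3
      have e0 : n + 4 - 1 - ((0 : Fin 4) : ℕ) = n + 3 := by simp
      have e1 : n + 4 - 1 - ((1 : Fin 4) : ℕ) = n + 2 := by simp
      have e2 : n + 4 - 1 - ((2 : Fin 4) : ℕ) = n + 1 := by
        have : ((2 : Fin 4) : ℕ) = 2 := rfl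
        omega
      have e3 : n + 4 - 1 - ((3 : Fin 4) : ℕ) = n := by
        have : ((3 : Fin 4) : ℕ) = 3 := rfl
        omega
      rw [e0, e1, e2, e3]
      ring
    rw [e] at h1 h2
    rw [e] at h2
    exact ⟨h1, h2⟩
  have hnn : ∀ n, 0 ≤ x n := by
    intro n
    induction n using Nat.strong_induction_on with
    | _ n ih =>
      by_cases hn : n < 4
      · exact hx.1 n hn
      · obtain ⟨m, rfl⟩ : ∃ m, n = m + 4 := ⟨n - 4, by omega⟩
        rw [(hs m).2]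
        exact div_nonneg (lin_nonneg ha (ih _ (by omega)) (ih _ (by omega)) (ih _ (by omega))
          (ih _ (by omega))) (hs m).1.le
  exact ⟨hnn, hs⟩

/-- **Transfer.** A special case without backward orbits is ESB. -/
theorem esb_of_noBack {N D : ℕ} (hN : N < 32) (hN1 : N ≠ 0) (hD : D < 32) (hD1 : D ≠ 0)
    (h : ∀ a b, Pat N a → Pat D b → NoBack a b) : ESB (caseOf 4 N D) := by
  intro P hP x hx
  exact bounded_of_uniform hN hN1 hD hD1 (pat_numC hP) (pat_denC hP)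
    (uniform_of_noBack (h _ _ (pat_numC hP) (pat_denC hP))) (nonnegSol_of_isSolution hP hx)

end Pool.Agent.H50.Rdb
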